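import Pool.Agent.H208.Cur.Stm

set_option autoImplicit false

/-!
# The family of rational maps is jointly continuous
-/

noncomputable section

namespace Pool.Agent.H208.Cur

open OnePoint Set Filter Topology unitInterval Polynomial

theorem h728_quo_smul {c : ℂ} (hc : c ≠ 0) (A B : ℂ) : quo (c * A) (c * B) = quo A B := by
  unfold quo
  by_cases hB : B = 0
  · simp [hB]
  · rw [if_neg (mul_ne_zero hc hB), if_neg hB, mul_div_mul_left _ _ hc]

theorem h728_quo_cont {A₀ B₀ : ℂ} (h : ¬ (A₀ = 0 ∧ B₀ = 0)) :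
    Tendsto (fun p : ℂ × ℂ => quo p.1 p.2) (𝓝 (A₀, B₀)) (𝓝 (quo A₀ B₀)) := by
  by_cases hB : B₀ = 0
  · subst hB
    have hA : A₀ ≠ 0 := fun hA => h ⟨hA, rfl⟩
    have e : quo A₀ 0 = ∞ := by unfold quo; rw [if_pos rfl]
    rw [e, OnePoint.hasBasis_nhds_infty.tendsto_right_iff]
    rintro s ⟨-, hs⟩
    obtain ⟨R, hR⟩ := hs.isBounded.exists_norm_le
    have h1 : Tendsto (fun p : ℂ × ℂ => ‖p.1‖ - R * ‖p.2‖) (𝓝 (A₀, 0)) (𝓝 (‖A₀‖ - R * ‖(0 : ℂ)‖)) :=
      (Continuous.tendsto (by fun_prop) _)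
    rw [norm_zero, mul_zero, sub_zero] at h1
    have h2 := h1.eventually (lt_mem_nhds (norm_pos_iff.2 hA))
    filter_upwards [h2] with p hp
    unfold quo
    by_cases hp0 : p.2 = 0
    · rw [if_pos hp0]
      exact Or.inr rfl
    · rw [if_neg hp0]
      refine Or.inl ⟨p.1 / p.2, fun hm => ?_, rfl⟩
      have h3 := hR _ hm
      rw [norm_div, div_le_iff₀ (norm_pos_iff.2 hp0)] at h3
      linarith
  · have e : (fun p : ℂ × ℂ => quo p.1 p.2) =ᶠ[𝓝 (A₀, B₀)] fun p => ((p.1 / p.2 : ℂ) : Sph) := by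
      have h1 : ∀ᶠ p : ℂ × ℂ in 𝓝 (A₀, B₀), p.2 ≠ 0 :=
        (continuous_snd.tendsto (A₀, B₀)).eventually (isOpen_ne.mem_nhds hB)
      filter_upwards [h1] with p hp
      unfold quo
      rw [if_neg hp]
    have e2 : quo A₀ B₀ = ((A₀ / B₀ : ℂ) : Sph) := by unfold quo; rw [if_neg hB]
    rw [e2]
    refine Tendsto.congr' e.symm ?_
    refine (OnePoint.continuous_coe.tendsto _).comp ?_
    exact (continuous_fst.tendsto (A₀, B₀)).div (continuous_snd.tendsto (A₀, B₀)) hB

theorem h728_cc_cont {d m : ℕ} {T : Type} [TopologicalSpace T] {y : T → Ix d m → ℝ}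
    (hy : Continuous y) (i : Fin d ⊕ (Fin d ⊕ Fin m)) : Continuous fun t => cc (y t) i := by
  have e : (fun t => cc (y t) i) =
      fun t => ((y t (i, false) : ℝ) : ℂ) + ((y t (i, true) : ℝ) : ℂ) * Complex.I := by
    funext t
    exact Complex.mk_eq_add_mul_I _ _
  rw [e]
  have h1 : Continuous fun t => y t (i, false) := (continuous_apply _).comp hy
  have h2 : Continuous fun t => y t (i, true) := (continuous_apply _).comp hy
  fun_prop

/-- the reversed numerator -/
def h728_rnu {d m : ℕ} (y : Ix d m → ℝ) (ζ : ℂ) : ℂ :=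
  ∑ i : Fin d, cc y (.inl i) * ζ ^ (d - (i : ℕ))

/-- the reversed denominator -/
def h728_rde {d m : ℕ} (y : Ix d m → ℝ) (ζ : ℂ) : ℂ :=
  1 + ∑ i : Fin d, cc y (.inr (.inl i)) * ζ ^ (d - (i : ℕ))

theorem h728_pow {d : ℕ} (i : Fin d) {z : ℂ} (hz : z ≠ 0) :
    z ^ (i : ℕ) = z ^ d * z⁻¹ ^ (d - (i : ℕ)) := by
  have h : (i : ℕ) + (d - (i : ℕ)) = d := by have := i.2; omega
  have h2 : z ^ d = z ^ (i : ℕ) * z ^ (d - (i : ℕ)) := by rw [← pow_add, h]
  rw [h2, mul_assoc, ← mul_pow, mul_inv_cancel₀ hz, one_pow, mul_one]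

theorem h728_nu {d m : ℕ} (y : Ix d m → ℝ) {z : ℂ} (hz : z ≠ 0) :
    nu y z = z ^ d * h728_rnu y z⁻¹ := by
  unfold nu h728_rnu
  rw [Finset.mul_sum]
  refine Finset.sum_congr rfl fun i _ => ?_
  rw [h728_pow i hz]
  ring

theorem h728_de {d m : ℕ} (y : Ix d m → ℝ) {z : ℂ} (hz : z ≠ 0) :
    de y z = z ^ d * h728_rde y z⁻¹ := by
  unfold de h728_rde
  rw [mul_add, mul_one, Finset.mul_sum]
  congr 1
  refine Finset.sum_congr rfl fun i _ => ?_
  rw [h728_pow i hz]
  ring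

/-- the coordinate at infinity -/
def h728_J (x : Sph) : ℂ := x.elim 0 fun z => z⁻¹

theorem h728_J_cont : Tendsto h728_J (𝓝 (∞ : Sph)) (𝓝 0) := by
  rw [OnePoint.tendsto_nhds_infty']
  constructor
  · rw [tendsto_pure_left]
    intro s hs
    exact mem_of_mem_nhds hs
  · rw [coclosedCompact_eq_cocompact, ← Metric.cobounded_eq_cocompact]
    exact tendsto_inv₀_cobounded

theorem h728_rm {d m : ℕ} (y : Ix d m → ℝ) {x : Sph} (hx : x ≠ ((0 : ℂ) : Sph)) :
    rm y x = quo (h728_rnu y (h728_J x)) (h728_rde y (h728_J x)) := by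
  induction x using OnePoint.rec with
  | infty =>
    have h1 : h728_J (∞ : Sph) = 0 := rfl
    have h2 : ∀ i : Fin d, (0 : ℂ) ^ (d - (i : ℕ)) = 0 := fun i =>
      zero_pow (by have := i.2; omega)
    rw [h1]
    unfold h728_rnu h728_rde
    simp only [h2, mul_zero, Finset.sum_const_zero, add_zero]
    show ((0 : ℂ) : Sph) = quo 0 1
    unfold quo
    rw [if_neg one_ne_zero, zero_div]
  | coe z =>
    have hz : z ≠ 0 := fun h => hx (by rw [h])
    show quo (nu y z) (de y z) = quo (h728_rnu y z⁻¹) (h728_rde y z⁻¹)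
    rw [h728_nu y hz, h728_de y hz, h728_quo_smul (pow_ne_zero _ hz)]

theorem s_cont : S_cont := by
  intro d m hd T _ y hy hcop
  rw [continuous_iff_continuousAt]
  rintro ⟨t₀, x₀⟩
  have hc1 : ∀ i, Continuous fun t => cc (y t) i := fun i => h728_cc_cont hy i
  induction x₀ using OnePoint.rec with
  | infty =>
    have e : (fun p : T × Sph => rm (y p.1) p.2) =ᶠ[𝓝 (t₀, (∞ : Sph))]
        fun p => quo (h728_rnu (y p.1) (h728_J p.2)) (h728_rde (y p.1) (h728_J p.2)) := by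
      have h1 : ∀ᶠ p : T × Sph in 𝓝 (t₀, (∞ : Sph)), p.2 ≠ ((0 : ℂ) : Sph) :=
        (continuous_snd.tendsto (t₀, (∞ : Sph))).eventually
          (isOpen_ne.mem_nhds (OnePoint.infty_ne_coe 0))
      filter_upwards [h1] with p hp
      exact h728_rm _ hp
    refine ContinuousAt.congr ?_ e.symm
    have h2 : Tendsto (fun p : T × Sph => (p.1, h728_J p.2)) (𝓝 (t₀, (∞ : Sph)))
        (𝓝 (t₀, (0 : ℂ))) := by
      rw [nhds_prod_eq, nhds_prod_eq]
      exact tendsto_id.prodMap h728_J_cont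
    have h3 : Continuous fun p : T × ℂ => (h728_rnu (y p.1) p.2, h728_rde (y p.1) p.2) := by
      unfold h728_rnu h728_rde
      refine Continuous.prodMk ?_ ?_
      · exact continuous_finsetSum _ fun i _ =>
          ((hc1 _).comp continuous_fst).mul (continuous_snd.pow _)
      · exact continuous_const.add (continuous_finsetSum _ fun i _ =>
          ((hc1 _).comp continuous_fst).mul (continuous_snd.pow _))
    have h4 : ∀ i : Fin d, (0 : ℂ) ^ (d - (i : ℕ)) = 0 := fun i =>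
      zero_pow (by have := i.2; omega)
    have h5 : h728_rde (y t₀) 0 = 1 := by
      unfold h728_rde
      simp only [h4, mul_zero, Finset.sum_const_zero, add_zero]
    have h6 := (h728_quo_cont (A₀ := h728_rnu (y t₀) 0) (B₀ := h728_rde (y t₀) 0)
      (fun h => one_ne_zero (h5.symm.trans h.2))).comp ((h3.tendsto (t₀, (0 : ℂ))).comp h2)
    exact h6
  | coe z₀ =>
    have h1 : Tendsto (fun p : T × ℂ => quo (nu (y p.1) p.2) (de (y p.1) p.2)) (𝓝 (t₀, z₀))
        (𝓝 (quo (nu (y t₀) z₀) (de (y t₀) z₀))) := by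
      have h3 : Continuous fun p : T × ℂ => (nu (y p.1) p.2, de (y p.1) p.2) := by
        unfold nu de
        refine Continuous.prodMk ?_ ?_
        · exact continuous_finsetSum _ fun i _ =>
            ((hc1 _).comp continuous_fst).mul (continuous_snd.pow _)
        · exact (continuous_snd.pow _).add (continuous_finsetSum _ fun i _ =>
            ((hc1 _).comp continuous_fst).mul (continuous_snd.pow _))
      exact (h728_quo_cont (hcop t₀ z₀)).comp (h3.tendsto (t₀, z₀))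
    show Tendsto (fun p : T × Sph => rm (y p.1) p.2) (𝓝 (t₀, (z₀ : Sph)))
      (𝓝 (quo (nu (y t₀) z₀) (de (y t₀) z₀)))
    rw [nhds_prod_eq, OnePoint.nhds_coe_eq, ← Filter.map_id (f := 𝓝 t₀), Filter.prod_map_map_eq,
      ← nhds_prod_eq, Filter.tendsto_map'_iff]
    exact h1

end Pool.Agent.H208.Cur
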