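import Pool.Agent.H208.Cur.Stm

set_option autoImplicit false

/-!
# The critical values of a rational map
-/

noncomputable section

namespace Pool.Agent.H208.Cur

open OnePoint Set Filter Topology unitInterval Polynomial

/-! ### The inversion -/

/-- the inversion `x ↦ 1 / x` -/
def crit_inv (x : Sph) : Sph :=
  x.elim ((0 : ℂ) : Sph) fun z => if z = 0 then ∞ else ((z⁻¹ : ℂ) : Sph)

theorem crit_inv_infty : crit_inv ∞ = ((0 : ℂ) : Sph) := rfl

theorem crit_inv_coe (z : ℂ) :
    crit_inv (z : Sph) = if z = 0 then ∞ else ((z⁻¹ : ℂ) : Sph) := rfl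

theorem crit_inv_zero : crit_inv ((0 : ℂ) : Sph) = ∞ := by
  rw [crit_inv_coe, if_pos rfl]

theorem crit_inv_inv (x : Sph) : crit_inv (crit_inv x) = x := by
  induction x using OnePoint.rec with
  | infty => rw [crit_inv_infty, crit_inv_zero]
  | coe z =>
    by_cases hz : z = 0
    · rw [hz, crit_inv_zero, crit_inv_infty]
    · rw [crit_inv_coe, if_neg hz, crit_inv_coe, if_neg (inv_ne_zero hz), inv_inv]

theorem crit_inv_cont : Continuous crit_inv := by
  rw [continuous_iff_continuousAt]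
  intro x
  induction x using OnePoint.rec with
  | infty =>
    rw [OnePoint.continuousAt_infty', coclosedCompact_eq_cocompact,
      ← Metric.cobounded_eq_cocompact]
    have h1 : Tendsto (fun z : ℂ => ((z⁻¹ : ℂ) : Sph)) (Bornology.cobounded ℂ)
        (𝓝 ((0 : ℂ) : Sph)) :=
      (OnePoint.continuous_coe.tendsto (0 : ℂ)).comp tendsto_inv₀_cobounded
    refine h1.congr' ?_
    have h2 : ∀ᶠ z : ℂ in Bornology.cobounded ℂ, z ≠ 0 := Bornology.eventually_ne_cobounded 0
    filter_upwards [h2] with z hz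
    rw [Function.comp_apply, crit_inv_coe, if_neg hz]
  | coe z =>
    rw [OnePoint.continuousAt_coe]
    by_cases hz : z = 0
    · subst hz
      rw [ContinuousAt, Function.comp_apply, crit_inv_zero, ← nhdsNE_sup_pure,
        tendsto_sup]
      constructor
      · have h1 : Tendsto (fun z : ℂ => ((z⁻¹ : ℂ) : Sph)) (𝓝[≠] (0 : ℂ)) (𝓝 ∞) := by
          have h2 := OnePoint.tendsto_coe_infty (X := ℂ)
          rw [coclosedCompact_eq_cocompact, ← Metric.cobounded_eq_cocompact] at h2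
          exact h2.comp tendsto_inv₀_nhdsNE_zero
        refine h1.congr' ?_
        filter_upwards [self_mem_nhdsWithin] with z hz
        rw [Function.comp_apply, crit_inv_coe, if_neg (show ¬ z = 0 from hz)]
      · rw [tendsto_pure_left]
        intro s hs
        rw [Function.comp_apply, crit_inv_zero]
        exact mem_of_mem_nhds hs
    · have h1 : ContinuousAt (fun z : ℂ => ((z⁻¹ : ℂ) : Sph)) z :=
        OnePoint.continuous_coe.continuousAt.comp (continuousAt_inv₀ hz)
      refine h1.congr ?_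
      filter_upwards [isOpen_ne.mem_nhds hz] with z hz
      rw [Function.comp_apply, crit_inv_coe, if_neg hz]

/-- the inversion as a homeomorphism -/
def crit_invH : Sph ≃ₜ Sph where
  toFun := crit_inv
  invFun := crit_inv
  left_inv := crit_inv_inv
  right_inv := crit_inv_inv
  continuous_toFun := crit_inv_cont
  continuous_invFun := crit_inv_cont

theorem crit_inv_nhds (x : Sph) : map crit_inv (𝓝 x) = 𝓝 (crit_inv x) :=
  crit_invH.map_nhds_eq x

/-! ### Pairs of polynomials -/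

/-- a pair of polynomials which defines a rational map of degree `d ≥ 1` -/
structure CritP (d : ℕ) (a b : ℂ[X]) : Prop where
  hd : 1 ≤ d
  cop : ∀ z, ¬ (a.eval z = 0 ∧ b.eval z = 0)
  da : a.natDegree ≤ d
  db : b.natDegree ≤ d
  top : ¬ (a.coeff d = 0 ∧ b.coeff d = 0)

theorem CritP.swap {d : ℕ} {a b : ℂ[X]} (h : CritP d a b) : CritP d b a :=
  ⟨h.hd, fun z hz => h.cop z hz.symm, h.db, h.da, fun hz => h.top hz.symm⟩

theorem crit_eval_zero_reflect (d : ℕ) (a : ℂ[X]) : (reflect d a).eval 0 = a.coeff d := by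
  rw [← Polynomial.coeff_zero_eq_eval_zero, Polynomial.coeff_reflect,
    revAt_le (Nat.zero_le d), Nat.sub_zero]

theorem crit_eval_reflect {d : ℕ} {a : ℂ[X]} (ha : a.natDegree ≤ d) {z : ℂ} (hz : z ≠ 0) :
    (reflect d a).eval z⁻¹ * z ^ d = a.eval z := by
  let _ := invertibleOfNonzero hz
  have h := Polynomial.eval₂_reflect_mul_pow (RingHom.id ℂ) z d a ha
  rw [invOf_eq_inv] at h
  exact h

theorem crit_coeff_reflect (d : ℕ) (a : ℂ[X]) : (reflect d a).coeff d = a.eval 0 := by
  rw [← Polynomial.coeff_zero_eq_eval_zero, Polynomial.coeff_reflect,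
    revAt_le (le_refl d), Nat.sub_self]

theorem CritP.refl {d : ℕ} {a b : ℂ[X]} (h : CritP d a b) :
    CritP d (reflect d a) (reflect d b) := by
  refine ⟨h.hd, ?_, ?_, ?_, ?_⟩
  · intro z hz
    by_cases h0 : z = 0
    · rw [h0, crit_eval_zero_reflect, crit_eval_zero_reflect] at hz
      exact h.top hz
    · have h1 := crit_eval_reflect h.da (inv_ne_zero h0)
      have h2 := crit_eval_reflect h.db (inv_ne_zero h0)
      rw [inv_inv] at h1 h2
      rw [hz.1, zero_mul] at h1
      rw [hz.2, zero_mul] at h2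
      exact h.cop _ ⟨h1.symm, h2.symm⟩
  · exact (natDegree_reflect_le).trans (max_le le_rfl h.da)
  · exact (natDegree_reflect_le).trans (max_le le_rfl h.db)
  · rw [crit_coeff_reflect, crit_coeff_reflect]
    exact h.cop 0

theorem crit_quo_swap {A B : ℂ} (h : ¬ (A = 0 ∧ B = 0)) : quo B A = crit_inv (quo A B) := by
  unfold quo
  by_cases hB : B = 0
  · have hA : A ≠ 0 := fun hA => h ⟨hA, hB⟩
    rw [if_neg hA, if_pos hB, crit_inv_infty, hB, zero_div]
  · by_cases hA : A = 0
    · rw [if_pos hA, if_neg hB, hA, zero_div, crit_inv_zero]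
    · rw [if_neg hA, if_neg hB, crit_inv_coe, if_neg (div_ne_zero hA hB), inv_div]

theorem crit_rat_infty (d : ℕ) (a b : ℂ[X]) :
    ratMap d a b ∞ = quo (a.coeff d) (b.coeff d) := rfl

theorem crit_rat_coe (d : ℕ) (a b : ℂ[X]) (z : ℂ) :
    ratMap d a b (z : Sph) = quo (a.eval z) (b.eval z) := rfl

theorem CritP.rat_swap {d : ℕ} {a b : ℂ[X]} (h : CritP d a b) (x : Sph) :
    ratMap d b a x = crit_inv (ratMap d a b x) := by
  induction x using OnePoint.rec with
  | infty => exact crit_quo_swap h.top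
  | coe z => exact crit_quo_swap (h.cop z)

theorem crit_quo_mul (A B : ℂ) {c : ℂ} (hc : c ≠ 0) : quo (A * c) (B * c) = quo A B := by
  unfold quo
  by_cases hB : B = 0
  · rw [if_pos hB, if_pos (by rw [hB, zero_mul])]
  · rw [if_neg hB, if_neg (mul_ne_zero hB hc), mul_div_mul_right _ _ hc]

theorem CritP.rat_refl {d : ℕ} {a b : ℂ[X]} (h : CritP d a b) (x : Sph) :
    ratMap d a b x = ratMap d (reflect d a) (reflect d b) (crit_inv x) := by
  induction x using OnePoint.rec with
  | infty =>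
    rw [crit_inv_infty, crit_rat_coe, crit_rat_infty, crit_eval_zero_reflect,
      crit_eval_zero_reflect]
  | coe z =>
    by_cases hz : z = 0
    · rw [hz, crit_inv_zero, crit_rat_coe, crit_rat_infty, crit_coeff_reflect,
        crit_coeff_reflect]
    · rw [crit_inv_coe, if_neg hz, crit_rat_coe, crit_rat_coe, ← crit_eval_reflect h.da hz,
        ← crit_eval_reflect h.db hz, crit_quo_mul _ _ (pow_ne_zero d hz)]

/-- the map is not constant -/
theorem CritP.sub_ne {d : ℕ} {a b : ℂ[X]} (h : CritP d a b) (w : ℂ) : a - C w * b ≠ 0 := by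
  intro h0
  have h1 : a = C w * b := sub_eq_zero.1 h0
  have hb : b.degree = 0 := by
    by_contra hb
    obtain ⟨z, hz⟩ := IsAlgClosed.exists_root b hb
    have hz' : b.eval z = 0 := hz
    refine h.cop z ⟨?_, hz'⟩
    rw [h1, eval_mul, hz', mul_zero]
  have h2 : b.coeff d = 0 := by
    refine coeff_eq_zero_of_degree_lt ?_
    rw [hb]
    exact_mod_cast h.hd
  refine h.top ⟨?_, h2⟩
  rw [h1, coeff_C_mul, h2, mul_zero]

theorem CritP.ne {d : ℕ} {a b : ℂ[X]} (h : CritP d a b) : b ≠ 0 := by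
  have h1 := h.swap.sub_ne 0
  rwa [map_zero, zero_mul, sub_zero] at h1

theorem CritP.nhds_aux {d : ℕ} {a b : ℂ[X]} (h : CritP d a b) {z₀ : ℂ} (hz : b.eval z₀ ≠ 0) :
    map (ratMap d a b) (𝓝 (z₀ : Sph)) = 𝓝 (ratMap d a b (z₀ : Sph)) := by
  obtain ⟨f, hf⟩ : ∃ f : ℂ → ℂ, f = fun z => a.eval z / b.eval z := ⟨_, rfl⟩
  have han : AnalyticAt ℂ f z₀ := by
    rw [hf]
    exact (a.differentiable.analyticAt z₀).div (b.differentiable.analyticAt z₀) hz
  have hbne : ∀ᶠ z in 𝓝 z₀, b.eval z ≠ 0 :=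
    b.continuous.continuousAt.eventually_ne hz
  have hmap : map f (𝓝 z₀) = 𝓝 (f z₀) := by
    refine le_antisymm han.continuousAt ?_
    refine (han.eventually_constant_or_nhds_le_map_nhds).resolve_left fun hc => ?_
    refine h.sub_ne (f z₀) (Polynomial.eq_zero_of_infinite_isRoot _ ?_)
    refine Set.Infinite.mono (s := {z | f z = f z₀ ∧ b.eval z ≠ 0}) ?_
      (infinite_of_mem_nhds z₀ (hc.and hbne))
    rintro z ⟨h1, h2⟩
    change (a - C (f z₀) * b).eval z = 0
    rw [← h1, hf, eval_sub, eval_mul, eval_C]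
    change a.eval z - a.eval z / b.eval z * b.eval z = 0
    rw [div_mul_cancel₀ _ h2, sub_self]
  have hz2 : ratMap d a b (z₀ : Sph) = ((f z₀ : ℂ) : Sph) := by
    rw [crit_rat_coe, quo, if_neg hz, hf]
  rw [hz2, OnePoint.nhds_coe_eq, OnePoint.nhds_coe_eq, ← hmap, Filter.map_map, Filter.map_map]
  refine Filter.map_congr ?_
  filter_upwards [hbne] with z hz
  rw [Function.comp_apply, Function.comp_apply, crit_rat_coe, quo, if_neg hz, hf]

theorem CritP.nhds_coe {d : ℕ} {a b : ℂ[X]} (h : CritP d a b) (z₀ : ℂ) :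
    map (ratMap d a b) (𝓝 (z₀ : Sph)) = 𝓝 (ratMap d a b (z₀ : Sph)) := by
  by_cases hz : b.eval z₀ = 0
  · have ha : a.eval z₀ ≠ 0 := fun ha => h.cop z₀ ⟨ha, hz⟩
    have h1 : ratMap d a b = crit_inv ∘ ratMap d b a := by
      funext x
      exact h.swap.rat_swap x
    rw [h1, ← Filter.map_map, h.swap.nhds_aux ha, crit_inv_nhds]
    rfl
  · exact h.nhds_aux hz

theorem CritP.nhds {d : ℕ} {a b : ℂ[X]} (h : CritP d a b) (x : Sph) :
    map (ratMap d a b) (𝓝 x) = 𝓝 (ratMap d a b x) := by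
  induction x using OnePoint.rec with
  | infty =>
    have h1 : ratMap d a b = ratMap d (reflect d a) (reflect d b) ∘ crit_inv := by
      funext x
      exact h.rat_refl x
    rw [h1, ← Filter.map_map, crit_inv_nhds, crit_inv_infty, h.refl.nhds_coe]
    rfl
  | coe z => exact h.nhds_coe z

/-! ### Fibres -/

theorem crit_quo_eq_infty {A B : ℂ} : quo A B = ∞ ↔ B = 0 := by
  unfold quo
  by_cases hB : B = 0
  · simp [hB]
  · simp [hB]

theorem crit_quo_eq_coe {A B w : ℂ} (h : ¬ (A = 0 ∧ B = 0)) :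
    quo A B = (w : Sph) ↔ A - w * B = 0 := by
  unfold quo
  by_cases hB : B = 0
  · have hA : A ≠ 0 := fun hA => h ⟨hA, hB⟩
    rw [if_pos hB, hB, mul_zero, sub_zero]
    constructor
    · intro h1
      exact absurd h1 (OnePoint.infty_ne_coe w)
    · intro h1
      exact absurd h1 hA
  · rw [if_neg hB, OnePoint.coe_eq_coe, div_eq_iff hB, sub_eq_zero]

/-- the polynomial of a fibre -/
theorem CritP.fib {d : ℕ} {a b : ℂ[X]} (h : CritP d a b) (w : Sph) :
    ∃ p : ℂ[X], p ≠ 0 ∧ p.natDegree ≤ d ∧ (ratMap d a b ∞ = w ↔ p.coeff d = 0) ∧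
      (∀ z : ℂ, ratMap d a b (z : Sph) = w ↔ p.eval z = 0) ∧
      ∀ v : ℂ, w = (v : Sph) → p = a - C v * b := by
  induction w using OnePoint.rec with
  | infty =>
    refine ⟨b, h.ne, h.db, ?_, fun z => ?_, fun v hv => ?_⟩
    · rw [crit_rat_infty, crit_quo_eq_infty]
    · rw [crit_rat_coe, crit_quo_eq_infty]
    · exact absurd hv (OnePoint.infty_ne_coe v)
  | coe w =>
    refine ⟨a - C w * b, h.sub_ne w, ?_, ?_, fun z => ?_, fun v hv => ?_⟩
    · refine (natDegree_sub_le _ _).trans (max_le h.da ?_)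
      exact (natDegree_C_mul_le _ _).trans h.db
    · rw [crit_rat_infty, crit_quo_eq_coe h.top, coeff_sub, coeff_C_mul]
    · rw [crit_rat_coe, crit_quo_eq_coe (h.cop z), eval_sub, eval_mul, eval_C]
    · rw [OnePoint.coe_eq_coe.1 hv]

theorem CritP.fib_eq {d : ℕ} {a b : ℂ[X]} {w : Sph} {p : ℂ[X]} (hp : p ≠ 0)
    (h2 : ∀ z : ℂ, ratMap d a b (z : Sph) = w ↔ p.eval z = 0) :
    ratMap d a b ⁻¹' {w} =
      ((↑) : ℂ → Sph) '' (p.roots.toFinset : Set ℂ) ∪ {x | x = ∞ ∧ ratMap d a b ∞ = w} := by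
  ext x
  induction x using OnePoint.rec with
  | infty => simp
  | coe z =>
    simp only [mem_preimage, mem_singleton_iff, mem_union, mem_image, mem_ofPred_eq,
      OnePoint.coe_ne_infty, false_and, or_false, OnePoint.coe_eq_coe, exists_eq_right,
      Finset.mem_coe, Multiset.mem_toFinset, mem_roots hp, IsRoot.def, h2]

theorem CritP.fib_le {d : ℕ} {a b : ℂ[X]} (h : CritP d a b) (w : Sph) :
    (ratMap d a b ⁻¹' {w}).Finite ∧ (ratMap d a b ⁻¹' {w}).ncard ≤ d := by
  obtain ⟨p, hp, hpd, hp1, hp2, -⟩ := h.fib w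
  rw [CritP.fib_eq hp hp2]
  have hc : (((↑) : ℂ → Sph) '' (p.roots.toFinset : Set ℂ)).ncard ≤ p.natDegree := by
    rw [ncard_image_of_injective _ OnePoint.coe_injective, ncard_coe_finset]
    exact (Multiset.toFinset_card_le _).trans (card_roots' p)
  have hfin : (((↑) : ℂ → Sph) '' (p.roots.toFinset : Set ℂ)).Finite :=
    (Finset.finite_toSet _).image _
  by_cases hw : ratMap d a b ∞ = w
  · have h1 : {x : Sph | x = ∞ ∧ ratMap d a b ∞ = w} = {∞} := by
      ext x
      simp [hw]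
    rw [h1]
    refine ⟨hfin.union (finite_singleton _), ?_⟩
    refine (ncard_union_le _ _).trans ?_
    rw [ncard_singleton]
    have h2 : p.natDegree ≠ d := by
      intro h3
      have h4 := hp1.1 hw
      rw [← h3] at h4
      exact hp (leadingCoeff_eq_zero.1 h4)
    omega
  · have h1 : {x : Sph | x = ∞ ∧ ratMap d a b ∞ = w} = ∅ := by
      ext x
      simp [hw]
    rw [h1, union_empty]
    exact ⟨hfin, hc.trans hpd⟩

/-- all but finitely many points have exactly `d` preimages -/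
theorem CritP.fib_gen {d : ℕ} {a b : ℂ[X]} (h : CritP d a b) (hW : wronskian a b ≠ 0) :
    {w : Sph | (ratMap d a b ⁻¹' {w}).ncard ≠ d}.Finite := by
  have hE : (({∞, ratMap d a b ∞} : Set Sph) ∪
      (fun z : ℂ => ratMap d a b (z : Sph)) '' ((wronskian a b).roots.toFinset : Set ℂ)).Finite :=
    (toFinite _).union ((Finset.finite_toSet _).image _)
  refine hE.subset fun w hw => ?_
  by_contra hcon
  apply hw
  simp only [mem_union, mem_insert_iff, mem_singleton_iff, mem_image, not_or] at hcon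
  obtain ⟨⟨hw1, hw2⟩, hw3⟩ := hcon
  obtain ⟨v, hv⟩ := OnePoint.ne_infty_iff_exists.1 hw1
  obtain ⟨p, hp, hpd, hp1, hp2, hp3⟩ := h.fib w
  have h1 : {x : Sph | x = ∞ ∧ ratMap d a b ∞ = w} = ∅ := by
    ext x
    simp [Ne.symm hw2]
  rw [CritP.fib_eq hp hp2, h1, union_empty, ncard_image_of_injective _ OnePoint.coe_injective,
    ncard_coe_finset]
  have hdeg : p.natDegree = d := by
    refine le_antisymm hpd (le_natDegree_of_ne_zero fun h0 => ?_)
    exact hw2 (hp1.2 h0).symm
  have hnod : p.roots.Nodup := by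
    rw [Multiset.nodup_iff_count_le_one]
    intro z
    rw [count_roots]
    by_contra hcon
    push Not at hcon
    obtain ⟨h3, h4⟩ := (one_lt_rootMultiplicity_iff_isRoot hp).1 hcon
    refine hw3 ⟨z, ?_, (hp2 z).2 h3⟩
    rw [Finset.mem_coe, Multiset.mem_toFinset, mem_roots hW, IsRoot.def]
    have h5 := hp3 v hv.symm
    rw [IsRoot.def, h5] at h3 h4
    simp only [derivative_sub, derivative_mul, derivative_C, zero_mul, zero_add, eval_sub,
      eval_mul, eval_C] at h3 h4
    simp only [wronskian, eval_sub, eval_mul]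
    linear_combination (derivative b).eval z * h3 - b.eval z * h4
  rw [Multiset.toFinset_card_of_nodup hnod, IsAlgClosed.card_roots_eq_natDegree, hdeg]

/-! ### The statement -/

theorem crit_main {d : ℕ} {R : Sph → Sph} (hn : ∀ x, map R (𝓝 x) = 𝓝 (R x))
    (hle : ∀ w, (R ⁻¹' {w}).Finite ∧ (R ⁻¹' {w}).ncard ≤ d)
    (hgen : {w : Sph | (R ⁻¹' {w}).ncard ≠ d}.Finite) (w : Sph) :
    w ∈ R '' crit R ↔ (R ⁻¹' {w}).ncard ≠ d := by
  have hcont : Continuous R := continuous_iff_continuousAt.2 fun x => (hn x).le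
  obtain ⟨hfin, hw⟩ := hle w
  constructor
  · rintro ⟨x, hx, hxw⟩ hcard
    obtain ⟨U, hU, hdis⟩ := hfin.t2_separation
    have hxS : x ∈ R ⁻¹' {w} := hxw
    have hW : (⋂ y ∈ R ⁻¹' {w}, R '' U y) ∈ 𝓝 w := by
      rw [Filter.biInter_mem hfin]
      intro y hy
      have hyw : R y = w := hy
      rw [← hyw, ← hn y]
      exact image_mem_map ((hU y).2.mem_nhds (hU y).1)
    have hN : U x ∩ R ⁻¹' (⋂ y ∈ R ⁻¹' {w}, R '' U y) ∈ 𝓝 x := by
      refine inter_mem ((hU x).2.mem_nhds (hU x).1) ?_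
      refine hcont.continuousAt.preimage_mem_nhds ?_
      rw [hxw]
      exact hW
    refine hx _ hN ?_
    rintro u ⟨huU, huW⟩ v ⟨hvU, hvW⟩ huv
    have hpre : ∀ y, ∃ g, y ∈ R ⁻¹' {w} → g ∈ U y ∧ R g = R u := by
      intro y
      by_cases hy : y ∈ R ⁻¹' {w}
      · obtain ⟨g, hg, hgu⟩ := mem_iInter₂.1 huW y hy
        exact ⟨g, fun _ => ⟨hg, hgu⟩⟩
      · exact ⟨y, fun h => absurd h hy⟩
    choose g hg using hpre
    classical
    obtain ⟨G, hG⟩ : ∃ G : Sph → Sph, ∀ y, G y = if y = x then u else g y :=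
      ⟨fun y => if y = x then u else g y, fun _ => rfl⟩
    have hG1 : ∀ y ∈ R ⁻¹' {w}, G y ∈ U y ∧ R (G y) = R u := by
      intro y hy
      by_cases hyx : y = x
      · have h1 : G y = u := by rw [hG, if_pos hyx]
        rw [h1, hyx]
        exact ⟨huU, rfl⟩
      · have h1 : G y = g y := by rw [hG, if_neg hyx]
        rw [h1]
        exact hg y hy
    have hGinj : InjOn G (R ⁻¹' {w}) := by
      intro y hy y' hy' hyy
      by_contra hne
      have h1 := hdis hy hy' hne
      exact Set.disjoint_left.1 h1 (hG1 y hy).1 (hyy ▸ (hG1 y' hy').1)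
    have hGsub : G '' (R ⁻¹' {w}) ⊆ R ⁻¹' {R u} := by
      rintro _ ⟨y, hy, rfl⟩
      exact (hG1 y hy).2
    have hGeq : G '' (R ⁻¹' {w}) = R ⁻¹' {R u} := by
      refine Set.eq_of_subset_of_ncard_le hGsub ?_ (hle _).1
      rw [hGinj.ncard_image, hcard]
      exact (hle _).2
    have hv : v ∈ G '' (R ⁻¹' {w}) := by
      rw [hGeq]
      exact huv.symm
    obtain ⟨y, hy, hyv⟩ := hv
    have hyx : y = x := by
      by_contra hne
      have h1 := hdis hy hxS hne
      exact Set.disjoint_left.1 h1 (hG1 y hy).1 (hyv ▸ hvU)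
    rw [← hyv, hyx, hG, if_pos rfl]
  · intro hne
    by_contra hcon
    have hnc : ∀ x, ∃ U ∈ 𝓝 x, x ∈ R ⁻¹' {w} → InjOn R U := by
      intro x
      by_cases hx : x ∈ R ⁻¹' {w}
      · have h1 : x ∉ crit R := fun h => hcon ⟨x, h, hx⟩
        simp only [crit, mem_ofPred_eq, not_forall, not_not] at h1
        obtain ⟨U, hU, hinj⟩ := h1
        exact ⟨U, hU, fun _ => hinj⟩
      · exact ⟨univ, univ_mem, fun h => absurd h hx⟩
    choose U hU hinj using hnc
    obtain ⟨O, hO⟩ : ∃ O, O = ⋃ x ∈ R ⁻¹' {w}, interior (U x) := ⟨_, rfl⟩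
    have hOo : IsOpen O := by
      rw [hO]
      exact isOpen_biUnion fun x _ => isOpen_interior
    have hK : IsCompact (R '' Oᶜ) := (hOo.isClosed_compl.isCompact).image hcont
    have hwK : w ∉ R '' Oᶜ := by
      rintro ⟨x, hx, hxw⟩
      refine hx ?_
      rw [hO, mem_iUnion₂]
      exact ⟨x, hxw, mem_interior_iff_mem_nhds.2 (hU x)⟩
    have hWn : (R '' Oᶜ)ᶜ ∈ 𝓝 w := hK.isClosed.isOpen_compl.mem_nhds hwK
    have hinf : ((R '' Oᶜ)ᶜ).Infinite := infinite_of_mem_nhds w hWn
    obtain ⟨w', hw', hw'2⟩ := hinf.exists_notMem_finite hgen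
    have hw'3 : (R ⁻¹' {w'}).ncard = d := by
      by_contra h
      exact hw'2 h
    have hex : ∀ u, ∃ x, u ∈ R ⁻¹' {w'} → x ∈ R ⁻¹' {w} ∧ u ∈ U x := by
      intro u
      by_cases hu : u ∈ R ⁻¹' {w'}
      · have h1 : u ∈ O := by
          by_contra h1
          exact hw' ⟨u, h1, hu⟩
        rw [hO, mem_iUnion₂] at h1
        obtain ⟨x, hx, hux⟩ := h1
        exact ⟨x, fun _ => ⟨hx, interior_subset hux⟩⟩
      · exact ⟨u, fun h => absurd h hu⟩
    choose φ hφ using hex
    have h1 : (R ⁻¹' {w'}).ncard ≤ (R ⁻¹' {w}).ncard := by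
      refine Set.ncard_le_ncard_of_injOn φ (fun u hu => (hφ u hu).1) ?_ hfin
      intro u hu v hv huv
      have h2 := hφ u hu
      have h3 := hφ v hv
      rw [← huv] at h3
      have h4 : R u = w' := hu
      have h5 : R v = w' := hv
      exact hinj (φ u) h2.1 h2.2 h3.2 (h4.trans h5.symm)
    omega

theorem s_crit : S_crit := by
  intro d hd R hR w
  obtain ⟨a, b, hab, hmax, rfl⟩ := hR
  have hcop : ∀ z, ¬ (a.eval z = 0 ∧ b.eval z = 0) := by
    rintro z ⟨h1, h2⟩
    obtain ⟨u, v, huv⟩ := hab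
    have h3 := congrArg (Polynomial.eval z) huv
    rw [eval_add, eval_mul, eval_mul, h1, h2, mul_zero, mul_zero, add_zero, eval_one] at h3
    exact zero_ne_one h3
  have ha : a.natDegree ≤ d := hmax ▸ le_max_left _ _
  have hb : b.natDegree ≤ d := hmax ▸ le_max_right _ _
  have htop : ¬ (a.coeff d = 0 ∧ b.coeff d = 0) := by
    rintro ⟨h1, h2⟩
    rcases max_choice a.natDegree b.natDegree with h3 | h3
    · rw [h3] at hmax
      rw [← hmax] at h1 hd
      have h4 := leadingCoeff_eq_zero.1 h1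
      rw [h4, natDegree_zero] at hd
      omega
    · rw [h3] at hmax
      rw [← hmax] at h2 hd
      have h4 := leadingCoeff_eq_zero.1 h2
      rw [h4, natDegree_zero] at hd
      omega
  have hP : CritP d a b := ⟨hd, hcop, ha, hb, htop⟩
  have hW : wronskian a b ≠ 0 := by
    intro h0
    obtain ⟨h1, h2⟩ := hab.wronskian_eq_zero_iff.1 h0
    have h3 := derivative_eq_zero.1 h1
    have h4 := derivative_eq_zero.1 h2
    rw [h3, h4] at hmax
    simp at hmax
    omega
  exact crit_main hP.nhds hP.fib_le (hP.fib_gen hW) w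

end Pool.Agent.H208.Cur
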