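import Pool.Agent.H208.Cur.Stm

set_option autoImplicit false

/-!
Invariance of the pullback relation and of its least attractor under Thurston equivalence.
-/

noncomputable section

namespace Pool.Agent.H208.Cur

open OnePoint Set Filter Topology unitInterval Polynomial

/-- the data of a Thurston equivalence -/
def EqvTE (F G : Sph → Sph) (h : I → Sph ≃ₜ Sph) : Prop :=
  IsIsotopy h ∧ (∀ s, ∀ x ∈ post F, h s x = h 0 x) ∧ ∀ x, h 0 (F x) = G (h 1 x)

/-- the action of a homeomorphism on sets of curves -/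
def eqvPhi (g : Sph ≃ₜ Sph) (x : Set (Set Sph)) : Set (Set Sph) := (fun δ => g '' δ) '' x

theorem eqv_symm_image (g : Sph ≃ₜ Sph) (γ : Set Sph) : g.symm '' (g '' γ) = γ := by
  rw [← Set.image_comp]
  have : (g.symm : Sph → Sph) ∘ g = id := by
    funext x
    simp
  rw [this, Set.image_id]

theorem eqv_image_symm (g : Sph ≃ₜ Sph) (γ : Set Sph) : g '' (g.symm '' γ) = γ :=
  eqv_symm_image g.symm γ

theorem eqvPhi_symm (g : Sph ≃ₜ Sph) (x : Set (Set Sph)) : eqvPhi g.symm (eqvPhi g x) = x := by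
  unfold eqvPhi
  rw [← Set.image_comp]
  have : ((fun δ => g.symm '' δ) ∘ fun δ => g '' δ) = id := by
    funext δ
    exact eqv_symm_image g δ
  rw [this, Set.image_id]

theorem eqvPhi_symm' (g : Sph ≃ₜ Sph) (x : Set (Set Sph)) : eqvPhi g (eqvPhi g.symm x) = x :=
  eqvPhi_symm g.symm x

theorem eqvPhi_inj (g : Sph ≃ₜ Sph) : Function.Injective (eqvPhi g) := by
  intro x y h
  rw [← eqvPhi_symm g x, h, eqvPhi_symm]

theorem eqv_mem_phi (g : Sph ≃ₜ Sph) (x : Set (Set Sph)) (δ : Set Sph) :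
    δ ∈ eqvPhi g x ↔ g.symm '' δ ∈ x := by
  constructor
  · rintro ⟨ε, hε, rfl⟩
    simp only
    rw [eqv_symm_image]
    exact hε
  · intro h
    exact ⟨_, h, eqv_image_symm g δ⟩

theorem eqv_curve (g : Sph ≃ₜ Sph) {P γ : Set Sph} (h : IsCurve P γ) :
    IsCurve (g '' P) (g '' γ) := by
  obtain ⟨⟨c, hc, hi, hr⟩, hd⟩ := h
  refine ⟨⟨g ∘ c, g.continuous.comp hc, g.injective.comp hi, ?_⟩, ?_⟩
  · rw [Set.range_comp, hr]
  · exact (Set.disjoint_image_iff g.injective).2 hd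

theorem eqv_ess (g : Sph ≃ₜ Sph) {P γ : Set Sph} (h : Essential P γ) :
    Essential (g '' P) (g '' γ) := by
  refine ⟨eqv_curve g h.1, ?_⟩
  intro x' hx'
  obtain ⟨x, rfl⟩ := g.surjective x'
  have hx : x ∉ γ := fun hx => hx' ⟨x, hx, rfl⟩
  have h1 := h.2 x hx
  have h2 : (g '' γ)ᶜ = g '' γᶜ := (Set.image_compl_eq g.bijective).symm
  have h3 : connectedComponentIn (g '' γᶜ) (g x) = g '' connectedComponentIn γᶜ x :=
    (g.image_connectedComponentIn (s := γᶜ) hx).symm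
  rw [h2, h3, ← Set.image_inter g.injective, Set.ncard_image_of_injective _ g.injective]
  exact h1

theorem eqv_iso (g : Sph ≃ₜ Sph) {P γ δ : Set Sph} (h : Isotopic P γ δ) :
    Isotopic (g '' P) (g '' γ) (g '' δ) := by
  obtain ⟨k, hk, h0, hP, h1⟩ := h
  refine ⟨fun s => g.symm.trans ((k s).trans g), ?_, ?_, ?_, ?_⟩
  · have h2 : Continuous fun p : I × Sph => g (k p.1 (g.symm p.2)) :=
      g.continuous.comp (hk.comp (continuous_fst.prodMk (g.symm.continuous.comp continuous_snd)))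
    exact h2
  · intro x
    show g (k 0 (g.symm x)) = x
    rw [h0]
    exact g.apply_symm_apply x
  · rintro s _ ⟨x, hx, rfl⟩
    show g (k s (g.symm (g x))) = g x
    rw [g.symm_apply_apply, hP s x hx]
  · show (fun x => g (k 1 (g.symm x))) '' (g '' γ) = g '' δ
    rw [← h1, ← Set.image_comp, ← Set.image_comp]
    refine Set.image_congr fun x _ => ?_
    show g (k 1 (g.symm (g x))) = g (k 1 x)
    rw [g.symm_apply_apply]

theorem eqv_ess_iff (g : Sph ≃ₜ Sph) (P γ : Set Sph) :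
    Essential (g '' P) (g '' γ) ↔ Essential P γ := by
  refine ⟨fun h => ?_, eqv_ess g⟩
  have h1 := eqv_ess g.symm h
  rwa [eqv_symm_image, eqv_symm_image] at h1

theorem eqv_curve_iff (g : Sph ≃ₜ Sph) (P γ : Set Sph) :
    IsCurve (g '' P) (g '' γ) ↔ IsCurve P γ := by
  refine ⟨fun h => ?_, eqv_curve g⟩
  have h1 := eqv_curve g.symm h
  rwa [eqv_symm_image, eqv_symm_image] at h1

theorem eqv_iso_iff (g : Sph ≃ₜ Sph) (P γ δ : Set Sph) :
    Isotopic (g '' P) (g '' γ) (g '' δ) ↔ Isotopic P γ δ := by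
  refine ⟨fun h => ?_, eqv_iso g⟩
  have h1 := eqv_iso g.symm h
  rwa [eqv_symm_image, eqv_symm_image, eqv_symm_image] at h1

theorem eqv_triv (g : Sph ≃ₜ Sph) (P : Set Sph) : triv (g '' P) = eqvPhi g (triv P) := by
  ext δ
  rw [eqv_mem_phi]
  unfold triv
  rw [Set.mem_ofPred_eq, Set.mem_ofPred_eq, ← eqv_curve_iff g P, ← eqv_ess_iff g P, eqv_image_symm]

theorem eqv_cls (g : Sph ≃ₜ Sph) (P γ : Set Sph) :
    cls (g '' P) (g '' γ) = eqvPhi g (cls P γ) := by
  unfold cls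
  by_cases h : Essential P γ
  · rw [if_pos h, if_pos ((eqv_ess_iff g P γ).2 h)]
    ext δ
    rw [eqv_mem_phi, Set.mem_ofPred_eq, Set.mem_ofPred_eq, ← eqv_iso_iff g P, eqv_image_symm]
  · rw [if_neg h, if_neg (fun h' => h ((eqv_ess_iff g P γ).1 h'))]
    exact eqv_triv g P

theorem eqv_isosymm (hS : S_symm) {P γ δ : Set Sph} (h : Isotopic P γ δ) : Isotopic P δ γ := by
  obtain ⟨k, hk, h0, hP, h1⟩ := h
  refine ⟨fun s => (k s).symm, hS k hk, ?_, ?_, ?_⟩
  · intro x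
    show (k 0).symm x = x
    rw [Homeomorph.symm_apply_eq, h0]
  · intro s x hx
    show (k s).symm x = x
    rw [Homeomorph.symm_apply_eq, hP s x hx]
  · show (k 1).symm '' δ = γ
    rw [← h1]
    exact eqv_symm_image (k 1) γ

theorem eqv_isotrans {P γ δ ε : Set Sph} (h : Isotopic P γ δ) (h' : Isotopic P δ ε) :
    Isotopic P γ ε := by
  obtain ⟨k, hk, h0, hP, h1⟩ := h
  obtain ⟨k', hk', h0', hP', h1'⟩ := h'
  refine ⟨fun s => (k s).trans (k' s), ?_, ?_, ?_, ?_⟩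
  · have h2 : Continuous fun p : I × Sph => k' p.1 (k p.1 p.2) :=
      hk'.comp (continuous_fst.prodMk hk)
    exact h2
  · intro x
    show k' 0 (k 0 x) = x
    rw [h0, h0']
  · intro s x hx
    show k' s (k s x) = x
    rw [hP s x hx, hP' s x hx]
  · show (fun x => k' 1 (k 1 x)) '' γ = ε
    rw [← h1', ← h1, ← Set.image_comp]
    rfl

theorem eqv_ess_of_iso {P γ δ : Set Sph} (h : Isotopic P γ δ) (he : Essential P γ) :
    Essential P δ := by
  obtain ⟨k, hk, h0, hP, h1⟩ := h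
  have h2 := eqv_ess (k 1) he
  have h3 : (k 1) '' P = P := by
    ext x
    constructor
    · rintro ⟨y, hy, rfl⟩
      rw [hP 1 y hy]
      exact hy
    · intro hx
      exact ⟨x, hx, hP 1 x hx⟩
  rw [h3, h1] at h2
  exact h2

theorem eqv_cls_eq (hS : S_symm) {P γ δ : Set Sph} (h : Isotopic P γ δ) :
    cls P γ = cls P δ := by
  unfold cls
  have h' := eqv_isosymm hS h
  by_cases he : Essential P γ
  · rw [if_pos he, if_pos (eqv_ess_of_iso h he)]
    ext ε
    exact ⟨fun h1 => eqv_isotrans h' h1, fun h1 => eqv_isotrans h h1⟩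
  · rw [if_neg he, if_neg fun he' => he (eqv_ess_of_iso h' he')]

theorem eqv_crit {F G : Sph → Sph} {h : I → Sph ≃ₜ Sph} (H : EqvTE F G h) (x : Sph) :
    h 1 x ∈ crit G ↔ x ∈ crit F := by
  have hinj : ∀ U : Set Sph, InjOn G (h 1 '' U) ↔ InjOn F U := by
    intro U
    constructor
    · intro hG a ha b hb hab
      apply (h 1).injective
      apply hG ⟨a, ha, rfl⟩ ⟨b, hb, rfl⟩
      rw [← H.2.2, ← H.2.2, hab]
    · rintro hF _ ⟨a, ha, rfl⟩ _ ⟨b, hb, rfl⟩ hab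
      rw [← H.2.2, ← H.2.2] at hab
      rw [hF ha hb ((h 0).injective hab)]
  constructor
  · intro hx U hU hi
    exact hx (h 1 '' U) ((h 1).isOpenMap.image_mem_nhds hU) ((hinj U).2 hi)
  · intro hx V hV hi
    have h1 : h 1 ⁻¹' V ∈ 𝓝 x := (h 1).continuous.continuousAt hV
    refine hx _ h1 ((hinj _).1 ?_)
    rw [Set.image_preimage_eq _ (h 1).surjective]
    exact hi

theorem eqv_post {F G : Sph → Sph} {h : I → Sph ≃ₜ Sph} (H : EqvTE F G h) :
    post G = h 0 '' post F := by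
  have key : ∀ c ∈ crit F, ∀ n, G^[n + 1] (h 1 c) = h 0 (F^[n + 1] c) := by
    intro c hc n
    induction n with
    | zero => exact (H.2.2 c).symm
    | succ n ih =>
      rw [Function.iterate_succ_apply', ih,
        ← H.2.1 1 (F^[n + 1] c) ⟨n + 1, by omega, c, hc, rfl⟩, ← H.2.2,
        ← Function.iterate_succ_apply' F]
  ext y
  constructor
  · rintro ⟨n, hn, c, hc, rfl⟩
    obtain ⟨c, rfl⟩ := (h 1).surjective c
    have hc' := (eqv_crit H c).1 hc
    obtain ⟨m, rfl⟩ : ∃ m, n = m + 1 := ⟨n - 1, by omega⟩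
    rw [key c hc' m]
    exact ⟨_, ⟨m + 1, hn, c, hc', rfl⟩, rfl⟩
  · rintro ⟨_, ⟨n, hn, c, hc, rfl⟩, rfl⟩
    obtain ⟨m, rfl⟩ : ∃ m, n = m + 1 := ⟨n - 1, by omega⟩
    rw [← key c hc m]
    exact ⟨m + 1, hn, h 1 c, (eqv_crit H c).2 hc, rfl⟩

theorem eqv_te_symm (hS : S_symm) {F G : Sph → Sph} {h : I → Sph ≃ₜ Sph} (H : EqvTE F G h) :
    EqvTE G F fun s => (h s).symm := by
  refine ⟨hS h H.1, ?_, ?_⟩
  · intro s y hy
    rw [eqv_post H] at hy
    obtain ⟨x, hx, rfl⟩ := hy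
    show (h s).symm (h 0 x) = (h 0).symm (h 0 x)
    rw [(h 0).symm_apply_apply, Homeomorph.symm_apply_eq, H.2.1 s x hx]
  · intro x
    show (h 0).symm (G x) = F ((h 1).symm x)
    rw [Homeomorph.symm_apply_eq, H.2.2, (h 1).apply_symm_apply]

theorem eqv_cls01 (hS : S_symm) {F G : Sph → Sph} {h : I → Sph ≃ₜ Sph} (H : EqvTE F G h)
    (δ : Set Sph) : cls (post G) (h 1 '' δ) = cls (post G) (h 0 '' δ) := by
  refine (eqv_cls_eq hS ?_).symm
  refine ⟨fun s => (h 0).symm.trans (h s), ?_, ?_, ?_, ?_⟩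
  · have h2 : Continuous fun p : I × Sph => h p.1 ((h 0).symm p.2) :=
      H.1.comp (continuous_fst.prodMk ((h 0).symm.continuous.comp continuous_snd))
    exact h2
  · intro x
    show h 0 ((h 0).symm x) = x
    exact (h 0).apply_symm_apply x
  · intro s y hy
    rw [eqv_post H] at hy
    obtain ⟨x, hx, rfl⟩ := hy
    show h s ((h 0).symm (h 0 x)) = h 0 x
    rw [(h 0).symm_apply_apply, H.2.1 s x hx]
  · show (fun x => h 1 ((h 0).symm x)) '' (h 0 '' δ) = h 1 '' δ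
    rw [← Set.image_comp]
    refine Set.image_congr fun x _ => ?_
    show h 1 ((h 0).symm (h 0 x)) = h 1 x
    rw [(h 0).symm_apply_apply]

theorem eqv_pull (hS : S_symm) {F G : Sph → Sph} {h : I → Sph ≃ₜ Sph} (H : EqvTE F G h)
    {x y : Set (Set Sph)} (hxy : Pull F x y) : Pull G (eqvPhi (h 0) x) (eqvPhi (h 0) y) := by
  have hP := eqv_post H
  rcases hxy with ⟨rfl, rfl⟩ | ⟨γ, hγ, rfl, p, hp, rfl⟩
  · left
    rw [hP, eqv_triv]
    exact ⟨rfl, rfl⟩
  · right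
    refine ⟨h 0 '' γ, ?_, ?_, h 1 p, ?_, ?_⟩
    · rw [hP]
      exact eqv_ess (h 0) hγ
    · rw [hP, eqv_cls]
    · show G (h 1 p) ∈ h 0 '' γ
      rw [← H.2.2]
      exact ⟨F p, hp, rfl⟩
    · have h1 : G ⁻¹' (h 0 '' γ) = h 1 '' (F ⁻¹' γ) := by
        ext z
        obtain ⟨w, rfl⟩ := (h 1).surjective z
        constructor
        · rintro ⟨a, ha, hb⟩
          rw [← H.2.2] at hb
          have h2 := (h 0).injective hb
          exact ⟨w, by show F w ∈ γ; rw [← h2]; exact ha, rfl⟩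
        · rintro ⟨a, ha, hb⟩
          have h2 := (h 1).injective hb
          show G (h 1 w) ∈ h 0 '' γ
          rw [← H.2.2, ← h2]
          exact ⟨F a, ha, rfl⟩
      rw [h1, ← (h 1).image_connectedComponentIn hp, eqv_cls01 hS H, hP, eqv_cls]

theorem eqv_pullN (hS : S_symm) {F G : Sph → Sph} {h : I → Sph ≃ₜ Sph} (H : EqvTE F G h) (n : ℕ) :
    ∀ {x y : Set (Set Sph)}, PullN F n x y → PullN G n (eqvPhi (h 0) x) (eqvPhi (h 0) y) := by
  induction n with
  | zero =>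
    intro x y hxy
    exact congrArg _ hxy
  | succ n ih =>
    rintro x y ⟨z, hz, hzy⟩
    exact ⟨eqvPhi (h 0) z, ih hz, eqv_pull hS H hzy⟩

theorem eqv_classes {F G : Sph → Sph} {h : I → Sph ≃ₜ Sph} (H : EqvTE F G h)
    {x : Set (Set Sph)} (hx : x ∈ Classes (post F)) : eqvPhi (h 0) x ∈ Classes (post G) := by
  have hP := eqv_post H
  rcases hx with rfl | ⟨γ, hγ, rfl⟩
  · left
    rw [hP, eqv_triv]
  · right
    refine ⟨h 0 '' γ, ?_, ?_⟩
    · rw [hP]
      exact eqv_ess (h 0) hγ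
    · rw [hP, eqv_cls]

theorem eqv_attr (hS : S_symm) {F G : Sph → Sph} {h : I → Sph ≃ₜ Sph} (H : EqvTE F G h)
    {A : Set (Set (Set Sph))} (hA : IsGlobalAttractor F A) :
    IsGlobalAttractor G (eqvPhi (h 0) '' A) := by
  have H' := eqv_te_symm hS H
  obtain ⟨h1, h2, h3⟩ := hA
  refine ⟨?_, h2.image _, ?_⟩
  · rintro _ ⟨x, hx, rfl⟩
    exact eqv_classes H (h1 hx)
  · intro x hx
    obtain ⟨N, hN⟩ := h3 (eqvPhi (h 0).symm x) (eqv_classes H' hx)
    refine ⟨N, fun n hn y hy => ?_⟩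
    have h4 := hN n hn _ (eqv_pullN hS H' n hy)
    exact ⟨_, h4, eqvPhi_symm' (h 0) y⟩

theorem s_equiv : S_equiv := by
  intro hS F G ⟨h, hh⟩
  have H : EqvTE F G h := hh
  have H' := eqv_te_symm hS H
  refine ⟨⟨h 0, eqv_post H⟩, ?_⟩
  rintro k ⟨A, ⟨hA, hmin⟩, hk⟩
  refine ⟨eqvPhi (h 0) '' A, ⟨eqv_attr hS H hA, ?_⟩, ?_⟩
  · intro B hB
    have h1 := hmin (eqv_attr hS H' hB)
    rintro _ ⟨x, hx, rfl⟩
    obtain ⟨b, hb, hbx⟩ := h1 hx
    have h2 : eqvPhi (h 0) x = b := by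
      rw [← hbx]
      exact eqvPhi_symm' (h 0) b
    rw [h2]
    exact hb
  · rw [Set.ncard_image_of_injective _ (eqvPhi_inj (h 0))]
    exact hk

end Pool.Agent.H208.Cur
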