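import Pool.Agent.H208.Cur.Stm2

set_option autoImplicit false

/-!
# The fibres of the normalised rational maps
-/

noncomputable section

namespace Pool.Agent.H208.Cur

open OnePoint Set Filter Topology unitInterval Polynomial

theorem s_fib_aux1 (Q : ℂ[X]) (hQ : Q ≠ 0) (S : Set Sph)
    (hS : ∀ x ∈ S, ∃ z : ℂ, x = (z : Sph) ∧ Q.eval z = 0) :
    S.Finite ∧ S.ncard ≤ Q.natDegree := by
  have hsub : S ⊆ (fun z : ℂ => (z : Sph)) '' (Q.roots.toFinset : Set ℂ) := by
    intro x hx
    obtain ⟨z, hz, hz2⟩ := hS x hx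
    refine ⟨z, ?_, hz.symm⟩
    rw [Finset.mem_coe, Multiset.mem_toFinset, Polynomial.mem_roots hQ]
    exact hz2
  have hfin : ((fun z : ℂ => (z : Sph)) '' (Q.roots.toFinset : Set ℂ)).Finite :=
    (Finset.finite_toSet _).image _
  refine ⟨hfin.subset hsub, ?_⟩
  calc S.ncard ≤ ((fun z : ℂ => (z : Sph)) '' (Q.roots.toFinset : Set ℂ)).ncard :=
        Set.ncard_le_ncard hsub hfin
    _ ≤ (Q.roots.toFinset : Set ℂ).ncard := Set.ncard_image_le (Finset.finite_toSet _)
    _ = Q.roots.toFinset.card := Set.ncard_coe_finset _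
    _ ≤ Multiset.card Q.roots := Multiset.toFinset_card_le _
    _ ≤ Q.natDegree := Q.card_roots'

/-- the numerator polynomial -/
def fibN {d m : ℕ} (y : Ix d m → ℝ) : ℂ[X] := ∑ i : Fin d, C (cc y (.inl i)) * X ^ (i : ℕ)

/-- the denominator polynomial -/
def fibD {d m : ℕ} (y : Ix d m → ℝ) : ℂ[X] :=
  X ^ d + ∑ i : Fin d, C (cc y (.inr (.inl i))) * X ^ (i : ℕ)

theorem s_fib_aux2 {d m : ℕ} (y : Ix d m → ℝ) (z : ℂ) : (fibN y).eval z = nu y z := by
  unfold fibN nu
  rw [Polynomial.eval_finsetSum]
  simp

theorem s_fib_aux3 {d m : ℕ} (y : Ix d m → ℝ) (z : ℂ) : (fibD y).eval z = de y z := by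
  unfold fibD de
  rw [Polynomial.eval_add, Polynomial.eval_finsetSum]
  simp

theorem s_fib_aux4 {d m : ℕ} (y : Ix d m → ℝ) : (fibN y).degree < d :=
  Polynomial.degree_sum_fin_lt _

theorem s_fib_aux5 {d m : ℕ} (y : Ix d m → ℝ) :
    (∑ i : Fin d, C (cc y (.inr (.inl i))) * X ^ (i : ℕ) : ℂ[X]).degree < d :=
  Polynomial.degree_sum_fin_lt _

theorem s_fib_aux6 {d m : ℕ} (y : Ix d m → ℝ) : (fibD y).degree = d := by
  unfold fibD
  rw [Polynomial.degree_add_eq_left_of_degree_lt, Polynomial.degree_X_pow]
  rw [Polynomial.degree_X_pow]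
  exact s_fib_aux5 y

theorem s_fib : S_fib := by
  intro d m hd y hcop w
  have hD0 : fibD y ≠ 0 := by
    intro h
    have h1 := s_fib_aux6 y
    rw [h, Polynomial.degree_zero] at h1
    exact absurd h1 (by simp)
  have hDn : (fibD y).natDegree = d := Polynomial.natDegree_eq_of_degree_eq_some (s_fib_aux6 y)
  -- `N ≠ 0`
  have hN0 : fibN y ≠ 0 := by
    intro h
    obtain ⟨z, hz⟩ := Complex.exists_root (f := fibD y) (by
      rw [s_fib_aux6]
      exact_mod_cast hd)
    refine hcop z ⟨?_, ?_⟩
    · rw [← s_fib_aux2, h, Polynomial.eval_zero]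
    · rw [← s_fib_aux3]
      exact hz
  have hrmz : ∀ z : ℂ, rm y (z : Sph) = quo (nu y z) (de y z) := fun z => rfl
  have hrmi : rm y (∞ : Sph) = ((0 : ℂ) : Sph) := rfl
  induction w using OnePoint.rec with
  | infty =>
    have h := s_fib_aux1 (fibD y) hD0 (rm y ⁻¹' {(∞ : Sph)}) (by
      intro x hx
      rw [mem_preimage, mem_singleton_iff] at hx
      induction x using OnePoint.rec with
      | infty =>
        rw [hrmi] at hx
        exact absurd hx (OnePoint.coe_ne_infty _)
      | coe z =>
        refine ⟨z, rfl, ?_⟩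
        rw [hrmz] at hx
        unfold quo at hx
        split_ifs at hx with h0
        · rw [s_fib_aux3]
          exact h0
        · exact absurd hx (OnePoint.coe_ne_infty _))
    rw [hDn] at h
    exact h
  | coe w =>
    have hz : ∀ z : ℂ, rm y (z : Sph) = (w : Sph) → nu y z - w * de y z = 0 := by
      intro z hz
      rw [hrmz] at hz
      unfold quo at hz
      split_ifs at hz with h0
      · exact absurd hz.symm (OnePoint.coe_ne_infty _)
      · have h1 : nu y z / de y z = w := OnePoint.coe_injective hz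
        rw [← h1, div_mul_cancel₀ _ h0, sub_self]
    rcases eq_or_ne w 0 with hw | hw
    · subst hw
      have h := s_fib_aux1 (fibN y) hN0 (rm y ⁻¹' {((0 : ℂ) : Sph)} \ {(∞ : Sph)}) (by
        intro x hx
        obtain ⟨hx1, hx2⟩ := hx
        rw [mem_preimage, mem_singleton_iff] at hx1
        rw [mem_singleton_iff] at hx2
        induction x using OnePoint.rec with
        | infty => exact absurd rfl hx2
        | coe z =>
          refine ⟨z, rfl, ?_⟩
          have h1 := hz z hx1
          rw [zero_mul, sub_zero] at h1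
          rw [s_fib_aux2]
          exact h1)
      have hNn : (fibN y).natDegree < d := by
        rw [Polynomial.natDegree_lt_iff_degree_lt hN0]
        exact s_fib_aux4 y
      have hsub : rm y ⁻¹' {((0 : ℂ) : Sph)} ⊆
          insert (∞ : Sph) (rm y ⁻¹' {((0 : ℂ) : Sph)} \ {(∞ : Sph)}) := by
        intro x hx
        by_cases hx2 : x = ∞
        · exact Or.inl hx2
        · exact Or.inr ⟨hx, hx2⟩
      refine ⟨(h.1.insert _).subset hsub, ?_⟩
      have h3 := Set.ncard_le_ncard hsub (h.1.insert _)
      have h4 := Set.ncard_insert_le (∞ : Sph) (rm y ⁻¹' {((0 : ℂ) : Sph)} \ {(∞ : Sph)})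
      have h5 := h.2
      omega
    · have hQd : (fibN y - C w * fibD y).degree = d := by
        rw [Polynomial.degree_sub_eq_right_of_degree_lt, Polynomial.degree_C_mul hw, s_fib_aux6]
        rw [Polynomial.degree_C_mul hw, s_fib_aux6]
        exact s_fib_aux4 y
      have hQn : (fibN y - C w * fibD y).natDegree = d :=
        Polynomial.natDegree_eq_of_degree_eq_some hQd
      have hQ0 : fibN y - C w * fibD y ≠ 0 := by
        intro h
        rw [h, Polynomial.degree_zero] at hQd
        exact absurd hQd (by simp)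
      have h := s_fib_aux1 (fibN y - C w * fibD y) hQ0 (rm y ⁻¹' {(w : Sph)}) (by
        intro x hx
        rw [mem_preimage, mem_singleton_iff] at hx
        induction x using OnePoint.rec with
        | infty =>
          rw [hrmi] at hx
          exact absurd (OnePoint.coe_injective hx).symm hw
        | coe z =>
          refine ⟨z, rfl, ?_⟩
          rw [Polynomial.eval_sub, Polynomial.eval_mul, Polynomial.eval_C, s_fib_aux2,
            s_fib_aux3]
          exact hz z hx)
      rw [hQn] at h
      exact h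

end Pool.Agent.H208.Cur
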