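import Pool.Agent.H208.Cur.Stm

set_option autoImplicit false

/-!
# Existence of the least finite global attractor (problem MP_5e4b6b_an)
-/

namespace Pool.Agent.H208.Cur

open Set

/-- The intersection of two finite global attractors is a finite global attractor. -/
theorem s_least_aux1 {F : Sph → Sph} {A B : Set (Set (Set Sph))} (hA : IsGlobalAttractor F A)
    (hB : IsGlobalAttractor F B) : IsGlobalAttractor F (A ∩ B) := by
  refine ⟨inter_subset_left.trans hA.1, hA.2.1.subset inter_subset_left, fun x hx => ?_⟩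
  obtain ⟨N, hN⟩ := hA.2.2 x hx
  obtain ⟨N', hN'⟩ := hB.2.2 x hx
  exact ⟨max N N', fun n hn y hy =>
    ⟨hN n (le_of_max_le_left hn) y hy, hN' n (le_of_max_le_right hn) y hy⟩⟩

/-- If there is a finite global attractor then there is a least one. -/
theorem s_least : S_least := by
  classical
  intro F hex
  have hP : ∃ k, ∃ A, IsGlobalAttractor F A ∧ A.ncard = k := by
    obtain ⟨A, hA⟩ := hex
    exact ⟨_, A, hA, rfl⟩
  obtain ⟨A, hA, hk⟩ := Nat.find_spec hP
  refine ⟨A, hA, fun B hB => ?_⟩
  have hAB : IsGlobalAttractor F (A ∩ B) := s_least_aux1 hA hB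
  have h1 := Nat.find_min' hP ⟨A ∩ B, hAB, rfl⟩
  rw [← hk] at h1
  have h2 : A ∩ B = A := Set.eq_of_subset_of_ncard_le inter_subset_left h1 hA.2.1
  exact inter_eq_left.mp h2

end Pool.Agent.H208.Cur
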