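import Pool.Agent.H208.Cur.Stm

set_option autoImplicit false

/-!
# S_lift : a family of branched coverings with constant branch data is trivial
-/

noncomputable section

namespace Pool.Agent.H208.Cur

open OnePoint Set Filter Topology unitInterval

/-- the total map -/
def lift969_Psi (G : I × Sph → Sph) (p : I × Sph) : I × Sph := (p.1, G p)

/-- the regular values -/
def lift969_B (P : Set Sph) : Set (I × Sph) := {p | p.2 ∉ P}

theorem lift969_cov {G : I × Sph → Sph} (hG : Continuous G) {P Q : Set Sph}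
    (hPQ : ∀ s x, G (s, x) ∈ P ↔ x ∈ Q)
    (hloc : IsLocalHomeomorphOn (fun p : I × Sph => (p.1, G p)) {p | p.2 ∉ Q}) :
    IsCoveringMap ((lift969_B P).restrictPreimage (lift969_Psi G)) := by
  have hc : Continuous (lift969_Psi G) := continuous_fst.prodMk hG
  have h1 : IsLocalHomeomorphOn (lift969_Psi G) (lift969_Psi G ⁻¹' lift969_B P) := by
    refine IsLocalHomeomorphOn.mono hloc ?_
    rintro ⟨s, x⟩ hp hx
    exact hp ((hPQ s x).2 hx)
  exact (IsCoveringMapOn.of_isLocalHomeomorphOn hc h1).isCoveringMap_restrictPreimage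

/-- uniqueness of lifts -/
theorem lift969_uniq {G : I × Sph → Sph} {P Q : Set Sph}
    (hPQ : ∀ s x, G (s, x) ∈ P ↔ x ∈ Q)
    (hcov : IsCoveringMap ((lift969_B P).restrictPreimage (lift969_Psi G)))
    {ww : I → I} (hw : Continuous ww) {a b : I → Sph} (ha : Continuous a) (hb : Continuous b)
    (haQ : ∀ r, a r ∉ Q) (hbQ : ∀ r, b r ∉ Q)
    (hab : ∀ r, G (ww r, a r) = G (ww r, b r)) (t : I) (ht : a t = b t) (r : I) : a r = b r := by
  have m1 : ∀ r, (ww r, a r) ∈ lift969_Psi G ⁻¹' lift969_B P := fun r h => haQ r ((hPQ _ _).1 h)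
  have m2 : ∀ r, (ww r, b r) ∈ lift969_Psi G ⁻¹' lift969_B P := fun r h => hbQ r ((hPQ _ _).1 h)
  have key := hcov.eq_of_comp_eq (A := I) (g₁ := fun t => ⟨(ww t, a t), m1 t⟩)
    (g₂ := fun t => ⟨(ww t, b t), m2 t⟩) (by fun_prop) (by fun_prop) (by
      funext r
      apply Subtype.ext
      show lift969_Psi G (ww r, a r) = lift969_Psi G (ww r, b r)
      unfold lift969_Psi
      rw [hab]) t (by
      apply Subtype.ext
      show (ww t, a t) = (ww t, b t)
      rw [ht])
  have h3 := congrArg Prod.snd (congrArg Subtype.val (congrFun key r))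
  exact h3

/-- existence of lifts of paths -/
theorem lift969_path {G : I × Sph → Sph} {P Q : Set Sph}
    (hPQ : ∀ s x, G (s, x) ∈ P ↔ x ∈ Q)
    (hcov : IsCoveringMap ((lift969_B P).restrictPreimage (lift969_Psi G)))
    {ww : I → I} (hw : Continuous ww) {x : Sph} (hx : x ∉ Q) :
    ∃ a : I → Sph, Continuous a ∧ a 0 = x ∧ (∀ r, a r ∉ Q) ∧
      ∀ r, G (ww r, a r) = G (ww 0, x) := by
  have hx0 : (ww 0, x) ∈ lift969_Psi G ⁻¹' lift969_B P := fun h => hx ((hPQ _ _).1 h)
  have m1 : ∀ r, (ww r, G (ww 0, x)) ∈ lift969_B P := fun r => hx0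
  obtain ⟨Γ, h1, h2⟩ := hcov.exists_path_lifts
    (⟨fun t => ⟨(ww t, G (ww 0, x)), m1 t⟩, by fun_prop⟩ : C(I, lift969_B P)) ⟨(ww 0, x), hx0⟩ rfl
  have h3 : ∀ r, lift969_Psi G (Γ r).1 = (ww r, G (ww 0, x)) := fun r =>
    congrArg Subtype.val (congrFun h1 r)
  have h4 : ∀ r, (Γ r).1.1 = ww r := fun r => congrArg Prod.fst (h3 r)
  have h5 : ∀ r, G (ww r, (Γ r).1.2) = G (ww 0, x) := fun r => by
    have h6 : G ((Γ r).1.1, (Γ r).1.2) = G (ww 0, x) := congrArg Prod.snd (h3 r)
    rw [h4] at h6
    exact h6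
  refine ⟨fun r => (Γ r).1.2, by fun_prop, ?_, ?_, h5⟩
  · show (Γ 0).1.2 = x
    rw [h2]
  · intro r hr
    have h7 := (hPQ (ww r) _).2 hr
    rw [h5] at h7
    exact hx0 h7

open Classical in
theorem s_lift : S_lift := by
  intro G hG P Q hP hQ hPQ hloc
  have hcov := lift969_cov hG hPQ hloc
  have hex : ∀ x : Sph, ∃ a : I → Sph, x ∉ Q → (Continuous a ∧ a 0 = x ∧ (∀ r, a r ∉ Q) ∧
      ∀ r, G (r, a r) = G (0, x)) := by
    intro x
    by_cases hx : x ∈ Q
    · exact ⟨fun _ => x, fun h => absurd hx h⟩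
    · obtain ⟨a, ha⟩ := lift969_path hPQ hcov (ww := id) continuous_id hx
      exact ⟨a, fun _ => ha⟩
  choose a ha using hex
  -- the family
  set k : I → Sph → Sph := fun s x => if x ∈ Q then x else a x s with hk
  have kQ : ∀ s x, x ∈ Q → k s x = x := fun s x hx => by rw [hk]; exact if_pos hx
  have kN : ∀ s x, x ∉ Q → k s x = a x s := fun s x hx => by rw [hk]; exact if_neg hx
  have k0 : ∀ x, k 0 x = x := by
    intro x
    by_cases hx : x ∈ Q
    · exact kQ 0 x hx
    · rw [kN 0 x hx]
      exact (ha x hx).2.1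
  have hQo : IsOpen (Qᶜ) := hQ.isClosed.isOpen_compl
  -- the points of `Q` have constant images
  have hQc : ∀ s, ∀ x ∈ Q, G (s, x) = G (0, x) := by
    intro s x hx
    have h1 : Continuous fun s : I => G (s, x) := by fun_prop
    exact (isPreconnected_univ (α := I)).constant_of_mapsTo hP.isDiscrete h1.continuousOn
      (fun u _ => (hPQ u x).2 hx) (mem_univ s) (mem_univ 0)
  have kG : ∀ s x, G (s, k s x) = G (0, x) := by
    intro s x
    by_cases hx : x ∈ Q
    · rw [kQ s x hx]
      exact hQc s x hx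
    · rw [kN s x hx]
      exact (ha x hx).2.2.2 s
  have kc : ∀ x, Continuous fun s => k s x := by
    intro x
    by_cases hx : x ∈ Q
    · have h1 : (fun s => k s x) = fun _ => x := funext fun s => kQ s x hx
      rw [h1]
      exact continuous_const
    · have h1 : (fun s => k s x) = a x := funext fun s => kN s x hx
      rw [h1]
      exact (ha x hx).1
  have kNQ : ∀ s x, x ∉ Q → k s x ∉ Q := by
    intro s x hx
    rw [kN s x hx]
    exact (ha x hx).2.2.1 s
  -- joint continuity
  have hjc : Continuous fun p : I × Sph => k p.1 p.2 := by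
    rw [continuous_iff_continuousAt]
    rintro ⟨s₀, x₀⟩
    by_cases hx : x₀ ∈ Q
    · intro O hO
      have hO' : O ∈ 𝓝 x₀ := by
        have h1 : k s₀ x₀ = x₀ := kQ s₀ x₀ hx
        simp only [h1] at hO
        exact hO
      have h2 : IsCompact (Q \ {x₀}) := (hQ.subset sdiff_subset).isCompact
      obtain ⟨U, U', hU, hU', hwU, hU2, hd⟩ := SeparatedNhds.of_isCompact_isCompact
        (isCompact_singleton (x := x₀)) h2 disjoint_sdiff_right
      obtain ⟨O', hO'O, hO'o, hwO'⟩ := mem_nhds_iff.1 hO'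
      have hUO : IsOpen (U ∩ O') := hU.inter hO'o
      have hx0U : x₀ ∈ U ∩ O' := ⟨hwU rfl, hwO'⟩
      have hd' : Disjoint (U ∩ O') U' := hd.mono_left inter_subset_left
      have hQU : Q ⊆ (U ∩ O') ∪ U' := by
        intro x hxQ
        by_cases h : x = x₀
        · rw [h]; exact Or.inl hx0U
        · exact Or.inr (hU2 ⟨hxQ, h⟩)
      set C : Set (I × Sph) := {p | p.2 ∉ (U ∩ O') ∪ U'} with hC
      have hCc : IsClosed C := by
        have h3 : IsClosed (((U ∩ O') ∪ U')ᶜ : Set Sph) := (hUO.union hU').isClosed_compl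
        exact h3.preimage continuous_snd
      have hcl : IsClosed (G '' C) := hG.isClosedMap _ hCc
      have hV : (G '' C)ᶜ ∈ 𝓝 (G (0, x₀)) := by
        refine hcl.isOpen_compl.mem_nhds ?_
        rintro ⟨⟨s, x⟩, hp, hpe⟩
        apply hp
        apply hQU
        rw [← hPQ s x, hpe, hPQ 0 x₀]
        exact hx
      have hN : (U ∩ O') ∩ {x | G (0, x) ∈ (G '' C)ᶜ} ∈ 𝓝 x₀ := by
        refine inter_mem (hUO.mem_nhds hx0U) ?_
        have h3 : Continuous fun x : Sph => G (0, x) := by fun_prop
        exact h3.continuousAt.preimage_mem_nhds hV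
      rw [Filter.mem_map]
      refine mem_of_superset (prod_mem_nhds univ_mem hN) ?_
      rintro ⟨s, x⟩ ⟨-, hx1, hx2⟩
      apply hO'O
      have hsub : range (fun s => k s x) ⊆ (U ∩ O') ∪ U' := by
        rintro _ ⟨t, rfl⟩
        by_contra h
        apply hx2
        refine ⟨(t, k t x), h, ?_⟩
        exact kG t x
      have h4 := (isPreconnected_range (kc x)).subset_left_of_subset_union hUO hU' hd' hsub
        ⟨k 0 x, ⟨0, rfl⟩, by rw [k0]; exact hx1⟩
      exact (h4 ⟨s, rfl⟩).2
    · -- away from `Q`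
      have m1 : ∀ p : I × (Qᶜ : Set Sph), (p.1, G (0, p.2)) ∈ lift969_B P := fun p h =>
        p.2.2 ((hPQ _ _).1 h)
      have m2 : ∀ p : I × (Qᶜ : Set Sph), (p.1, k p.1 p.2) ∈ lift969_Psi G ⁻¹' lift969_B P := by
        intro p h
        exact kNQ p.1 p.2 p.2.2 ((hPQ _ _).1 h)
      have key := hcov.isLocalHomeomorph.continuous_lift hcov.isSeparatedMap (A := (Qᶜ : Set Sph))
        (f := ⟨fun p => ⟨(p.1, G (0, p.2)), m1 p⟩, by fun_prop⟩)
        (g := fun p => ⟨(p.1, k p.1 p.2), m2 p⟩) (by
          funext p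
          apply Subtype.ext
          show lift969_Psi G (p.1, k p.1 p.2) = (p.1, G (0, p.2))
          unfold lift969_Psi
          rw [kG]) (by
          refine Continuous.subtype_mk ?_ _
          have h1 : (fun x : (Qᶜ : Set Sph) => ((0 : I), k 0 x)) =
              fun x : (Qᶜ : Set Sph) => ((0 : I), (x : Sph)) := by
            funext x
            rw [k0]
          rw [h1]
          fun_prop) (fun x => by
          refine Continuous.subtype_mk ?_ _
          exact continuous_id.prodMk (kc x))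
      have key2 : ContinuousOn (fun p : I × Sph => k p.1 p.2) ((univ : Set I) ×ˢ (Qᶜ)) := by
        rw [continuousOn_iff_continuous_domRestrict]
        have h1 : Continuous fun q : ((univ : Set I) ×ˢ (Qᶜ) : Set (I × Sph)) =>
            (((fun p : I × (Qᶜ : Set Sph) =>
              (⟨(p.1, k p.1 p.2), m2 p⟩ : lift969_Psi G ⁻¹' lift969_B P)) (q.1.1, ⟨q.1.2, q.2.2⟩) :
              lift969_Psi G ⁻¹' lift969_B P) : I × Sph).2 := by
          refine continuous_snd.comp (continuous_subtype_val.comp (key.comp ?_))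
          fun_prop
        exact h1
      exact key2.continuousAt (prod_mem_nhds univ_mem (hQo.mem_nhds hx))
  have kcx : ∀ s, Continuous (k s) := fun s => hjc.comp (Continuous.prodMk_right s)
  -- injectivity
  have kinj : ∀ s, Function.Injective (k s) := by
    intro s x x' hxx
    by_cases hx : x ∈ Q
    · by_cases hx' : x' ∈ Q
      · rw [kQ s x hx, kQ s x' hx'] at hxx
        exact hxx
      · exfalso
        apply kNQ s x' hx'
        rw [← hxx, kQ s x hx]
        exact hx
    · by_cases hx' : x' ∈ Q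
      · exfalso
        apply kNQ s x hx
        rw [hxx, kQ s x' hx']
        exact hx'
      · have hGG : G (0, x) = G (0, x') := by rw [← kG s x, ← kG s x', hxx]
        have h1 := lift969_uniq hPQ hcov (ww := id) continuous_id (kc x) (kc x')
          (fun r => kNQ r x hx) (fun r => kNQ r x' hx') (fun r => by
            show G (r, k r x) = G (r, k r x')
            rw [kG, kG, hGG]) s hxx 0
        rw [k0, k0] at h1
        exact h1
  -- surjectivity
  have ksurj : ∀ s, Function.Surjective (k s) := by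
    intro s z
    by_cases hz : z ∈ Q
    · exact ⟨z, kQ s z hz⟩
    have hw : Continuous fun t : I => s * unitInterval.symm t := by fun_prop
    obtain ⟨b, hb, hb0, hbQ, hbG⟩ := lift969_path hPQ hcov hw hz
    have e0 : s * unitInterval.symm 0 = s := by rw [unitInterval.symm_zero, mul_one]
    have e1 : s * unitInterval.symm 1 = 0 := by rw [unitInterval.symm_one, mul_zero]
    refine ⟨b 1, ?_⟩
    have hG1 : G (0, b 1) = G (s, z) := by
      have h1 := hbG 1
      simp only [e0, e1] at h1
      exact h1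
    have h1 := lift969_uniq hPQ hcov hw (a := fun t => k (s * unitInterval.symm t) (b 1)) (b := b)
      ((kc (b 1)).comp hw) hb (fun r => kNQ _ _ (hbQ 1)) hbQ (fun r => by
        rw [kG, hG1]
        have h2 := hbG r
        simp only [e0] at h2
        exact h2.symm) 1 (by
        simp only [e1]
        exact k0 _) 0
    simp only [e0] at h1
    rw [h1, hb0]
  refine ⟨fun s => Continuous.homeoOfEquivCompactToT2 (f := Equiv.ofBijective (k s)
    ⟨kinj s, ksurj s⟩) (kcx s), ?_, ?_, ?_, ?_⟩
  · exact hjc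
  · exact k0
  · exact fun s x hx => kQ s x hx
  · exact kG

end Pool.Agent.H208.Cur
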