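import Pool.Agent.H208.Cur.Stm

set_option autoImplicit false

/-!
# The family of a path of good maps is a local homeomorphism away from the marked points
-/

noncomputable section

namespace Pool.Agent.H208.Cur

open OnePoint Set Filter Topology unitInterval Polynomial

theorem s_loc_cc {d m : ℕ} {y : I → Ix d m → ℝ} (hy : Continuous y)
    (i : Fin d ⊕ (Fin d ⊕ Fin m)) : Continuous fun s => cc (y s) i := by
  have h : ∀ s, cc (y s) i = ((y s (i, false) : ℝ) : ℂ) + ((y s (i, true) : ℝ) : ℂ) * Complex.I :=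
    fun s => Complex.mk_eq_add_mul_I _ _
  simp only [h]
  have h1 : Continuous fun s => y s (i, false) := (continuous_apply _).comp hy
  have h2 : Continuous fun s => y s (i, true) := (continuous_apply _).comp hy
  exact (Complex.continuous_ofReal.comp h1).add
    ((Complex.continuous_ofReal.comp h2).mul continuous_const)

theorem s_loc_mk {d m : ℕ} {y : I → Ix d m → ℝ} (hy : Continuous y) (j : Fin m) :
    Continuous fun s => ((mk (y s) j : ℂ) : Sph) :=
  OnePoint.continuous_coe.comp (s_loc_cc hy (.inr (.inr j)))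

/-- counting: two finite sets with the same number of elements -/
theorem s_loc_count {A B : Set Sph} {n : ℕ} (hn : 1 ≤ n) (hA : A.ncard = n) (hB : B.ncard = n)
    (U : Sph → Set Sph) (hU : A.PairwiseDisjoint U) (hex : ∀ x ∈ A, ∃ z ∈ U x, z ∈ B)
    {x₀ : Sph} (hx₀ : x₀ ∈ A) {a b : Sph} (ha : a ∈ U x₀) (haB : a ∈ B) (hb : b ∈ U x₀)
    (hbB : b ∈ B) : a = b := by
  classical
  choose! g hg1 hg2 using hex
  have hBf : B.Finite := Set.finite_of_ncard_ne_zero (by omega)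
  have hinj : InjOn g A := by
    intro x hx z hz hxz
    by_contra hne
    have h1 := hU hx hz hne
    exact Set.disjoint_left.mp h1 (hg1 x hx) (hxz ▸ hg1 z hz)
  have himg : g '' A = B := by
    refine Set.eq_of_subset_of_ncard_le ?_ ?_ hBf
    · rintro _ ⟨x, hx, rfl⟩
      exact hg2 x hx
    · rw [hinj.ncard_image, hA, hB]
  have key : ∀ c, c ∈ U x₀ → c ∈ B → c = g x₀ := by
    intro c hc hcB
    rw [← himg] at hcB
    obtain ⟨x, hx, rfl⟩ := hcB
    by_cases hne : x = x₀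
    · rw [hne]
    · exact absurd hc (Set.disjoint_left.mp (hU hx hx₀ hne) (hg1 x hx))
  rw [key a ha haB, key b hb hbB]

theorem s_loc : S_loc := by
  intro d m hd J τ y hy hgood hcont hopen
  obtain ⟨Pm, hPm⟩ : ∃ Pm : I × Sph → I × Sph, Pm = fun p => (p.1, rm (y p.1) p.2) := ⟨_, rfl⟩
  have hPc : Continuous Pm := by
    rw [hPm]
    exact continuous_fst.prodMk hcont
  have hPo : IsOpenMap Pm := by
    rw [isOpenMap_iff_nhds_le]
    rintro ⟨t, x⟩
    intro O hO
    rw [Filter.mem_map] at hO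
    rw [nhds_prod_eq, Filter.mem_prod_iff] at hO
    obtain ⟨A, hA, V, hV, hAV⟩ := hO
    have h1 := hopen t x V hV
    have h2 : ∀ᶠ p : I × Sph in 𝓝 (t, rm (y t) x), p.1 ∈ A :=
      continuous_fst.continuousAt.preimage_mem_nhds (x := (t, rm (y t) x)) hA
    have h3 : Pm (t, x) = (t, rm (y t) x) := by rw [hPm]
    rw [h3]
    filter_upwards [h1, h2] with p hp1 hp2
    obtain ⟨x', hx', hx''⟩ := hp1
    have h4 : (p.1, x') ∈ Pm ⁻¹' O := hAV ⟨hp2, hx'⟩
    have h5 : Pm (p.1, x') = p := by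
      rw [hPm]
      exact Prod.ext rfl hx''
    rw [mem_preimage, h5] at h4
    exact h4
  rw [← hPm]
  rintro ⟨s₀, x₀⟩ hp
  have hp' : ∀ j, x₀ ≠ ((mk (y s₀) j : ℂ) : Sph) := hp
  obtain ⟨w₀, hw₀⟩ : ∃ w₀, w₀ = rm (y s₀) x₀ := ⟨_, rfl⟩
  have hw : ∀ j ∈ J, w₀ ≠ ((mk (y s₀) j : ℂ) : Sph) := by
    intro j hj hwj
    obtain ⟨i, hi⟩ := (hgood s₀).mem j hj x₀ (by rw [← hw₀, hwj])
    exact hp' i hi
  obtain ⟨A, hA⟩ : ∃ A : Set Sph, A = rm (y s₀) ⁻¹' {w₀} := ⟨_, rfl⟩
  have hAn : A.ncard = d := by rw [hA]; exact (hgood s₀).fib w₀ hw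
  have hAf : A.Finite := Set.finite_of_ncard_ne_zero (by omega)
  have hx₀A : x₀ ∈ A := by rw [hA]; exact hw₀.symm
  obtain ⟨U, hU1, hU2⟩ := hAf.t2_separation
  -- the good neighbourhood of `(s₀, w₀)`
  have hN1 : ∀ᶠ p : I × Sph in 𝓝 (s₀, w₀), ∀ x ∈ A, ∃ z ∈ U x, rm (y p.1) z = p.2 := by
    rw [Filter.eventually_all_finite hAf]
    intro x hx
    have h1 : rm (y s₀) x = w₀ := by
      rw [hA] at hx
      exact hx
    have h2 := hopen s₀ x (U x) ((hU1 x).2.mem_nhds (hU1 x).1)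
    rw [h1] at h2
    exact h2
  have hN2 : ∀ᶠ p : I × Sph in 𝓝 (s₀, w₀), ∀ j ∈ J, p.2 ≠ ((mk (y p.1) j : ℂ) : Sph) := by
    have h1 : ∀ j : Fin m, ∀ᶠ p : I × Sph in 𝓝 (s₀, w₀), j ∈ J →
        p.2 ≠ ((mk (y p.1) j : ℂ) : Sph) := by
      intro j
      by_cases hj : j ∈ J
      · have h2 : Continuous fun p : I × Sph => ((mk (y p.1) j : ℂ) : Sph) :=
          (s_loc_mk hy j).comp continuous_fst
        have h3 : IsOpen {p : I × Sph | p.2 ≠ ((mk (y p.1) j : ℂ) : Sph)} :=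
          isOpen_ne_fun continuous_snd h2
        filter_upwards [h3.mem_nhds (show (s₀, w₀) ∈ _ from hw j hj)] with p hp3 _
        exact hp3
      · exact Filter.Eventually.of_forall fun p h => absurd h hj
    exact Filter.eventually_all.mpr h1
  obtain ⟨N, hNsub, hNo, hNmem⟩ := eventually_nhds_iff.mp (hN1.and hN2)
  -- the domain
  obtain ⟨W, hW⟩ : ∃ W : Set (I × Sph), W = {p | p.2 ∈ U x₀ ∧ Pm p ∈ N} := ⟨_, rfl⟩
  have hWo : IsOpen W := by
    rw [hW]
    exact ((hU1 x₀).2.preimage continuous_snd).inter (hNo.preimage hPc)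
  have hWmem : (s₀, x₀) ∈ W := by
    rw [hW]
    refine ⟨(hU1 x₀).1, ?_⟩
    have h1 : Pm (s₀, x₀) = (s₀, w₀) := by rw [hPm, hw₀]
    rw [h1]
    exact hNmem
  have hinj : InjOn Pm W := by
    rintro ⟨s, a⟩ ha ⟨s', b⟩ hb hab
    rw [hW] at ha hb
    have hss : s = s' := by
      rw [hPm] at hab
      exact congrArg Prod.fst hab
    subst hss
    have hww : rm (y s) a = rm (y s) b := by
      rw [hPm] at hab
      exact congrArg Prod.snd hab
    have h1 : Pm (s, a) = (s, rm (y s) a) := by rw [hPm]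
    have h2 : (s, rm (y s) a) ∈ N := by
      rw [← h1]
      exact ha.2
    obtain ⟨h3, h4⟩ := hNsub _ h2
    have hB : (rm (y s) ⁻¹' {rm (y s) a}).ncard = d := (hgood s).fib _ h4
    have h5 : a = b :=
      s_loc_count hd hAn hB U hU2 h3 hx₀A ha.1 rfl hb.1 hww.symm
    rw [h5]
  let e := OpenPartialHomeomorph.ofContinuousOpen (InjOn.toPartialEquiv Pm W hinj)
    hPc.continuousOn hPo hWo
  exact ⟨e, hWmem, rfl⟩

end Pool.Agent.H208.Cur
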