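import Pool.Agent.H208.Cur.Stm

set_option autoImplicit false

/-!
# Normalisation of a rational map by a Moebius transformation
-/

noncomputable section

namespace Pool.Agent.H208.Cur

open OnePoint Set Filter Topology Polynomial

namespace SMob

/-! ### Moebius transformations -/

/-- The inversion `z ↦ 1 / z` of the Riemann sphere. -/
def inv (x : Sph) : Sph := x.elim ((0 : ℂ) : Sph) (fun z => if z = 0 then ∞ else ((z⁻¹ : ℂ) : Sph))

theorem inv_infty : inv ∞ = ((0 : ℂ) : Sph) := rfl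
theorem inv_coe (z : ℂ) : inv (z : Sph) = if z = 0 then ∞ else ((z⁻¹ : ℂ) : Sph) := rfl
theorem inv_zero : inv ((0 : ℂ) : Sph) = ∞ := by simp [inv_coe]
theorem inv_coe_ne {z : ℂ} (hz : z ≠ 0) : inv (z : Sph) = ((z⁻¹ : ℂ) : Sph) := by simp [inv_coe, hz]

theorem inv_inv (x : Sph) : inv (inv x) = x := by
  induction x using OnePoint.rec with
  | infty => simp [inv_infty, inv_zero]
  | coe z =>
    by_cases hz : z = 0
    · subst hz; simp [inv_infty, inv_zero]
    · rw [inv_coe_ne hz, inv_coe_ne (inv_ne_zero hz), _root_.inv_inv]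

theorem tendsto_inv_zero : Tendsto (fun z : ℂ => inv (z : Sph)) (𝓝[≠] 0) (𝓝 ∞) := by
  have h1 : Tendsto (fun z : ℂ => ((z⁻¹ : ℂ) : Sph)) (𝓝[≠] 0) (𝓝 ∞) := by
    have h2 : Tendsto (fun z : ℂ => z⁻¹) (𝓝[≠] 0) (cocompact ℂ) := by
      rw [← Metric.cobounded_eq_cocompact]; exact Filter.tendsto_inv₀_nhdsNE_zero
    have h3 : Tendsto ((↑) : ℂ → Sph) (cocompact ℂ) (𝓝 ∞) := by
      rw [← coclosedCompact_eq_cocompact]; exact OnePoint.tendsto_coe_infty
    exact h3.comp h2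
  refine h1.congr' ?_
  filter_upwards [self_mem_nhdsWithin] with z hz
  rw [inv_coe_ne hz]

theorem continuous_inv : Continuous inv := by
  rw [OnePoint.continuous_iff, coclosedCompact_eq_cocompact]
  constructor
  · rw [inv_infty]
    have h1 : Tendsto (fun z : ℂ => ((z⁻¹ : ℂ) : Sph)) (cocompact ℂ) (𝓝 ((0 : ℂ) : Sph)) :=
      (OnePoint.continuous_coe.tendsto (0 : ℂ)).comp (by
        rw [← Metric.cobounded_eq_cocompact]; exact Filter.tendsto_inv₀_cobounded)
    refine h1.congr' ?_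
    have h2 : ∀ᶠ z : ℂ in cocompact ℂ, z ≠ 0 := by
      have : ({(0 : ℂ)} : Set ℂ)ᶜ ∈ cocompact ℂ := isCompact_singleton.compl_mem_cocompact
      exact this
    filter_upwards [h2] with z hz
    rw [inv_coe_ne hz]
  · rw [continuous_iff_continuousAt]
    intro z
    by_cases hz : z = 0
    · subst hz
      rw [ContinuousAt, inv_zero]
      rw [← nhdsNE_sup_pure]
      exact tendsto_inv_zero.sup (by rw [tendsto_pure_left]; intro s hs; simpa [inv_zero] using mem_of_mem_nhds hs)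
    · have h1 : ContinuousAt (fun z : ℂ => ((z⁻¹ : ℂ) : Sph)) z :=
        OnePoint.continuous_coe.continuousAt.comp (continuousAt_inv₀ hz)
      refine h1.congr ?_
      filter_upwards [isOpen_ne.mem_nhds hz] with w hw
      rw [inv_coe_ne hw]

/-- the inversion as a homeomorphism -/
def invH : Sph ≃ₜ Sph where
  toFun := inv
  invFun := inv
  left_inv := inv_inv
  right_inv := inv_inv
  continuous_toFun := continuous_inv
  continuous_invFun := continuous_inv

/-- translations of the sphere -/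
def trH (a : ℂ) : Sph ≃ₜ Sph := (Homeomorph.addRight a).onePointCongr

theorem trH_coe (a z : ℂ) : trH a (z : Sph) = ((z + a : ℂ) : Sph) := rfl
theorem trH_infty (a : ℂ) : trH a ∞ = ∞ := rfl

theorem quo_zero (A : ℂ) : quo A 0 = ∞ := by
  unfold quo
  rw [if_pos rfl]

theorem quo_ne (A : ℂ) {B : ℂ} (h : B ≠ 0) : quo A B = ((A / B : ℂ) : Sph) := by
  unfold quo
  rw [if_neg h]

theorem trH_quo (a A B : ℂ) : trH a (quo A B) = quo (A + a * B) B := by
  by_cases h : B = 0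
  · rw [h, quo_zero, quo_zero, trH_infty]
  · rw [quo_ne _ h, quo_ne _ h, trH_coe]
    refine congrArg _ ?_
    field_simp

theorem inv_quo (A B : ℂ) (h : ¬ (A = 0 ∧ B = 0)) : inv (quo A B) = quo B A := by
  by_cases hB : B = 0
  · have hA : A ≠ 0 := fun hA => h ⟨hA, hB⟩
    rw [hB, quo_zero, quo_ne _ hA, inv_infty, zero_div]
  · rw [quo_ne _ hB]
    by_cases hA : A = 0
    · rw [hA, zero_div, inv_zero, quo_zero]
    · rw [inv_coe_ne (div_ne_zero hA hB), quo_ne _ hA, inv_div]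

theorem quo_mul (c A B : ℂ) (hc : c ≠ 0) : quo (c * A) (c * B) = quo A B := by
  by_cases h : B = 0
  · rw [h, mul_zero, quo_zero, quo_zero]
  · rw [quo_ne _ h, quo_ne _ (mul_ne_zero hc h), mul_div_mul_left _ _ hc]

/-- the Moebius transformation -/
def Mb (z₀ v : ℂ) : Sph ≃ₜ Sph := ((trH (-z₀)).trans invH).trans (trH (-v))

theorem Mb_apply (z₀ v : ℂ) (x : Sph) : Mb z₀ v x = trH (-v) (inv (trH (-z₀) x)) := rfl

theorem Mb_quo (z₀ v A B : ℂ) (h : ¬ (A = 0 ∧ B = 0)) :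
    Mb z₀ v (quo A B) = quo (B - v * (A - z₀ * B)) (A - z₀ * B) := by
  have h1 : ¬ (A + -z₀ * B = 0 ∧ B = 0) := by
    rintro ⟨h2, h3⟩
    rw [h3, mul_zero, add_zero] at h2
    exact h ⟨h2, h3⟩
  rw [Mb_apply, trH_quo, inv_quo _ _ h1, trH_quo]
  refine congrArg₂ quo ?_ ?_
  · ring
  · ring

theorem Mb_self (z₀ v : ℂ) : Mb z₀ v (z₀ : Sph) = ∞ := by
  rw [Mb_apply, trH_coe, add_neg_cancel, inv_zero, trH_infty]

theorem Mb_coe (z₀ v z : ℂ) (h : z ≠ z₀) : Mb z₀ v (z : Sph) = (((z - z₀)⁻¹ - v : ℂ) : Sph) := by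
  have h1 : z + -z₀ ≠ 0 := by
    intro h2
    exact h (add_neg_eq_zero.1 h2)
  rw [Mb_apply, trH_coe, inv_coe_ne h1, trH_coe]
  rfl

theorem Mb_infty (z₀ v : ℂ) : Mb z₀ v ∞ = ((-v : ℂ) : Sph) := by
  rw [Mb_apply, trH_infty, inv_infty, trH_coe, zero_add]

/-! ### Polynomials -/

theorem natDegree_comp (p : ℂ[X]) (r : ℂ) : (p.comp (X + C r)).natDegree = p.natDegree := by
  rw [Polynomial.natDegree_comp, natDegree_X_add_C, mul_one]

theorem coeff_comp (p : ℂ[X]) (r : ℂ) (d : ℕ) (hp : p.natDegree ≤ d) :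
    (p.comp (X + C r)).coeff d = p.coeff d := by
  rcases eq_or_lt_of_le hp with h | h
  · rw [← h]
    exact Polynomial.coeff_taylor_natDegree (r := r) (f := p)
  · rw [coeff_eq_zero_of_natDegree_lt h, coeff_eq_zero_of_natDegree_lt]
    rw [natDegree_comp]
    exact h

/-- the polynomial `w ^ d * p (1 / w + r)` -/
def rf (d : ℕ) (r : ℂ) (p : ℂ[X]) : ℂ[X] := reflect d (p.comp (X + C r))

theorem rf_eval (d : ℕ) (r : ℂ) (p : ℂ[X]) (hp : p.natDegree ≤ d) (w : ℂ) (hw : w ≠ 0) :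
    (rf d r p).eval w = w ^ d * p.eval (w⁻¹ + r) := by
  let _ : Invertible (w⁻¹) := invertibleOfNonzero (inv_ne_zero hw)
  have h := eval₂_reflect_mul_pow (RingHom.id ℂ) (w⁻¹) d (p.comp (X + C r)) (by
    rw [natDegree_comp]; exact hp)
  have h1 : (⅟(w⁻¹) : ℂ) = w := by rw [invOf_eq_inv, _root_.inv_inv]
  rw [h1] at h
  change (rf d r p).eval w * (w⁻¹) ^ d = (p.comp (X + C r)).eval w⁻¹ at h
  have h2 : (p.comp (X + C r)).eval w⁻¹ = p.eval (w⁻¹ + r) := by simp
  rw [h2, inv_pow] at h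
  have h3 : w ^ d ≠ 0 := pow_ne_zero _ hw
  rw [← h]
  field_simp

theorem rf_zero (d : ℕ) (r : ℂ) (p : ℂ[X]) (hp : p.natDegree ≤ d) :
    (rf d r p).eval 0 = p.coeff d := by
  rw [← coeff_zero_eq_eval_zero, rf, coeff_reflect, revAt_le (Nat.zero_le d), Nat.sub_zero,
    coeff_comp p r d hp]

theorem rf_top (d : ℕ) (r : ℂ) (p : ℂ[X]) : (rf d r p).coeff d = p.eval r := by
  rw [rf, coeff_reflect, revAt_le le_rfl, Nat.sub_self, coeff_zero_eq_eval_zero]
  simp

theorem rf_deg (d : ℕ) (r : ℂ) (p : ℂ[X]) (hp : p.natDegree ≤ d) :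
    (rf d r p).natDegree ≤ d := by
  rw [natDegree_le_iff_coeff_eq_zero]
  intro n hn
  rw [rf, coeff_reflect, revAt_eq_self_of_lt hn, coeff_eq_zero_of_natDegree_lt]
  rw [natDegree_comp]
  omega

theorem eval_fin (d : ℕ) (p : ℂ[X]) (hp : p.natDegree ≤ d) (z : ℂ) :
    p.eval z = p.coeff d * z ^ d + ∑ i : Fin d, p.coeff i * z ^ (i : ℕ) := by
  rw [eval_eq_sum_range' (Nat.lt_succ_of_le hp), Finset.sum_range_succ, add_comm,
    Finset.sum_range]

theorem exists_z (d : ℕ) (hd : 2 ≤ d) (a b : ℂ[X]) (hc : IsCoprime a b)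
    (hm : max a.natDegree b.natDegree = d) (E : Set Sph) (hE : E.Finite) :
    ∃ z₀ : ℂ, (z₀ : Sph) ∉ E ∧ a.eval z₀ - z₀ * b.eval z₀ ≠ 0 := by
  have h0 : a - X * b ≠ 0 := by
    intro h
    have h1 : a = X * b := sub_eq_zero.1 h
    rw [h1] at hc
    have h2 : IsUnit b := by
      have h3 : IsCoprime b b := hc.of_isCoprime_of_dvd_left (dvd_mul_left b X)
      exact isCoprime_self.1 h3
    have h3 : b.natDegree = 0 := natDegree_eq_zero_of_isUnit h2
    have h4 : a.natDegree ≤ 1 := by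
      rw [h1]
      refine natDegree_mul_le.trans ?_
      rw [h3, natDegree_X]
    have h5 : max a.natDegree b.natDegree ≤ 1 := max_le h4 (by omega)
    omega
  have hf : ({z : ℂ | (a - X * b).eval z = 0} ∪ ((↑) : ℂ → Sph) ⁻¹' E).Finite := by
    refine Set.Finite.union ?_ (hE.preimage OnePoint.coe_injective.injOn)
    have := Polynomial.finite_setOfPred_isRoot h0
    exact this
  obtain ⟨z₀, hz⟩ := hf.infinite_compl.nonempty
  rw [mem_compl_iff, mem_union, not_or] at hz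
  refine ⟨z₀, hz.2, ?_⟩
  have := hz.1
  intro h
  apply this
  show (a - X * b).eval z₀ = 0
  rw [eval_sub, eval_mul, eval_X]
  exact h

end SMob

open SMob in
theorem s_mob : S_mob := by
  rintro d hd R ⟨a, b, hc, hm, rfl⟩ E hE
  obtain ⟨z₀, hz₀, hL⟩ := exists_z d hd a b hc hm E hE
  have ha : a.natDegree ≤ d := hm ▸ le_max_left _ _
  have hb : b.natDegree ≤ d := hm ▸ le_max_right _ _
  have hcop : ∀ z, ¬ (a.eval z = 0 ∧ b.eval z = 0) := by
    rintro z ⟨h1, h2⟩
    obtain ⟨s, t, hst⟩ := hc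
    have h3 := congrArg (Polynomial.eval z) hst
    rw [eval_add, eval_mul, eval_mul, h1, h2, mul_zero, mul_zero, add_zero, eval_one] at h3
    exact zero_ne_one h3
  have htop : ¬ (a.coeff d = 0 ∧ b.coeff d = 0) := by
    rintro ⟨h1, h2⟩
    rcases max_choice a.natDegree b.natDegree with h3 | h3
    · rw [hm] at h3
      rw [h3] at h1
      have h4 : a = 0 := leadingCoeff_eq_zero.1 h1
      rw [h4, natDegree_zero] at h3
      omega
    · rw [hm] at h3
      rw [h3] at h2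
      have h4 : b = 0 := leadingCoeff_eq_zero.1 h2
      rw [h4, natDegree_zero] at h3
      omega
  set L : ℂ := a.eval z₀ - z₀ * b.eval z₀ with hLdef
  set v : ℂ := b.eval z₀ / L with hv
  set D : ℂ[X] := rf d z₀ a - C z₀ * rf d z₀ b with hD
  set N : ℂ[X] := rf d z₀ b - C v * D with hN
  have hDdeg : D.natDegree ≤ d := by
    refine (natDegree_sub_le _ _).trans (max_le (rf_deg d z₀ a ha) ?_)
    exact (natDegree_C_mul_le _ _).trans (rf_deg d z₀ b hb)
  have hNdeg : N.natDegree ≤ d := by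
    refine (natDegree_sub_le _ _).trans (max_le (rf_deg d z₀ b hb) ?_)
    exact (natDegree_C_mul_le _ _).trans hDdeg
  have hDtop : D.coeff d = L := by
    rw [hD, coeff_sub, coeff_C_mul, rf_top, rf_top]
  have hNtop : N.coeff d = 0 := by
    rw [hN, coeff_sub, coeff_C_mul, rf_top, hDtop, hv, div_mul_cancel₀ _ hL, sub_self]
  set den : ℂ[X] := D.comp (X + C v) with hden
  set num : ℂ[X] := N.comp (X + C v) with hnum
  have hden1 : den.natDegree ≤ d := by rw [hden, SMob.natDegree_comp]; exact hDdeg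
  have hnum1 : num.natDegree ≤ d := by rw [hnum, SMob.natDegree_comp]; exact hNdeg
  have hden2 : den.coeff d = L := by rw [hden, SMob.coeff_comp _ _ _ hDdeg, hDtop]
  have hnum2 : num.coeff d = 0 := by rw [hnum, SMob.coeff_comp _ _ _ hNdeg, hNtop]
  -- the coordinates
  let c : Fin d ⊕ (Fin d ⊕ Fin 0) → ℂ :=
    Sum.elim (fun i => num.coeff i / L) (Sum.elim (fun i => den.coeff i / L) (fun _ => 0))
  let y : Ix d 0 → ℝ := fun p => if p.2 then (c p.1).im else (c p.1).re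
  have hcc : ∀ i, cc y i = c i := fun i => by
    apply Complex.ext
    · rfl
    · rfl
  have hnu : ∀ ω, nu y ω = num.eval ω / L := by
    intro ω
    rw [eval_fin d num hnum1, hnum2, zero_mul, zero_add, Finset.sum_div]
    refine Finset.sum_congr rfl fun i _ => ?_
    rw [hcc]
    show num.coeff i / L * ω ^ (i : ℕ) = _
    ring
  have hde : ∀ ω, de y ω = den.eval ω / L := by
    intro ω
    rw [eval_fin d den hden1, hden2, add_div, mul_div_cancel_left₀ _ hL, Finset.sum_div]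
    refine congrArg (ω ^ d + ·) (Finset.sum_congr rfl fun i _ => ?_)
    rw [hcc]
    show den.coeff i / L * ω ^ (i : ℕ) = _
    ring
  have hdenE : ∀ ω, den.eval ω = D.eval (ω + v) := fun ω => by rw [hden]; simp
  have hnumE : ∀ ω, num.eval ω = N.eval (ω + v) := fun ω => by rw [hnum]; simp
  -- values of `D` and `N`
  have hDw : ∀ w : ℂ, w ≠ 0 → D.eval w =
      w ^ d * (a.eval (w⁻¹ + z₀) - z₀ * b.eval (w⁻¹ + z₀)) := by
    intro w hw
    rw [hD, eval_sub, eval_mul, eval_C, rf_eval d z₀ a ha w hw, rf_eval d z₀ b hb w hw]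
    ring
  have hNw : ∀ w : ℂ, w ≠ 0 → N.eval w = w ^ d * (b.eval (w⁻¹ + z₀) -
      v * (a.eval (w⁻¹ + z₀) - z₀ * b.eval (w⁻¹ + z₀))) := by
    intro w hw
    rw [hN, eval_sub, eval_mul, eval_C, hDw w hw, rf_eval d z₀ b hb w hw]
    ring
  have hD0 : D.eval 0 = a.coeff d - z₀ * b.coeff d := by
    rw [hD, eval_sub, eval_mul, eval_C, rf_zero d z₀ a ha, rf_zero d z₀ b hb]
  have hN0 : N.eval 0 = b.coeff d - v * (a.coeff d - z₀ * b.coeff d) := by
    rw [hN, eval_sub, eval_mul, eval_C, hD0, rf_zero d z₀ b hb]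
  refine ⟨y, ?_, Mb z₀ v, ?_, ?_⟩
  · rintro ω ⟨h1, h2⟩
    rw [hnu, hnumE, div_eq_zero_iff, or_iff_left hL] at h1
    rw [hde, hdenE, div_eq_zero_iff, or_iff_left hL] at h2
    by_cases hw : ω + v = 0
    · rw [hw] at h1 h2
      rw [hD0] at h2
      rw [hN0, h2, mul_zero, sub_zero] at h1
      rw [h1, mul_zero, sub_zero] at h2
      exact htop ⟨h2, h1⟩
    · have hp : (ω + v) ^ d ≠ 0 := pow_ne_zero _ hw
      rw [hDw _ hw, mul_eq_zero, or_iff_right hp] at h2
      rw [hNw _ hw, mul_eq_zero, or_iff_right hp, h2, mul_zero, sub_zero] at h1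
      rw [h1, mul_zero, sub_zero] at h2
      exact hcop _ ⟨h2, h1⟩
  · intro x
    induction x using OnePoint.rec with
    | infty =>
      have e1 : ratMap d a b ∞ = quo (a.coeff d) (b.coeff d) := rfl
      rw [e1, Mb_quo _ _ _ _ htop, Mb_infty]
      have e2 : rm y ((-v : ℂ) : Sph) = quo (nu y (-v)) (de y (-v)) := rfl
      rw [e2, hnu, hde, hnumE, hdenE, neg_add_cancel, hD0, hN0, div_eq_inv_mul, div_eq_inv_mul,
        quo_mul _ _ _ (inv_ne_zero hL)]
    | coe z =>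
      have e1 : ratMap d a b (z : Sph) = quo (a.eval z) (b.eval z) := rfl
      rw [e1, Mb_quo _ _ _ _ (hcop z)]
      by_cases hz : z = z₀
      · rw [hz, Mb_self]
        have e2 : rm y ∞ = ((0 : ℂ) : Sph) := rfl
        rw [e2, ← hLdef, quo_ne _ hL, hv, div_mul_cancel₀ _ hL, sub_self, zero_div]
      · rw [Mb_coe _ _ _ hz]
        have hw : (z - z₀)⁻¹ ≠ 0 := inv_ne_zero (sub_ne_zero.2 hz)
        have e2 : rm y (((z - z₀)⁻¹ - v : ℂ) : Sph) =
            quo (nu y ((z - z₀)⁻¹ - v)) (de y ((z - z₀)⁻¹ - v)) := rfl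
        rw [e2, hnu, hde, hnumE, hdenE, sub_add_cancel, hDw _ hw, hNw _ hw, _root_.inv_inv,
          sub_add_cancel, div_eq_inv_mul, div_eq_inv_mul, quo_mul _ _ _ (inv_ne_zero hL),
          quo_mul _ _ _ (pow_ne_zero _ hw)]
  · rintro ⟨x, hx, h⟩
    have h1 : x = (z₀ : Sph) := (Mb z₀ v).injective (h.trans (Mb_self z₀ v).symm)
    rw [h1] at hx
    exact hz₀ hx

end Pool.Agent.H208.Cur
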