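import Pool.Agent.H208.Cur.Stm

set_option autoImplicit false

/-!
# `S_move`: small motions of finitely many points of the plane
-/

noncomputable section

namespace Pool.Agent.H208.Cur

open OnePoint Set Filter Topology unitInterval

/-- bump function -/
def s_move_phi (r : ℝ) (a z : ℂ) : ℝ := max (1 - ‖z - a‖ / r) 0

theorem s_move_phi_cont (r : ℝ) (a : ℂ) : Continuous (s_move_phi r a) := by
  unfold s_move_phi
  fun_prop

theorem s_move_phi_nonneg (r : ℝ) (a z : ℂ) : 0 ≤ s_move_phi r a z := le_max_right _ _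

theorem s_move_phi_le {r : ℝ} (hr : 0 < r) (a z : ℂ) : s_move_phi r a z ≤ 1 := by
  unfold s_move_phi
  refine max_le ?_ zero_le_one
  have : 0 ≤ ‖z - a‖ / r := by positivity
  linarith

theorem s_move_phi_self (r : ℝ) (a : ℂ) : s_move_phi r a a = 1 := by
  simp [s_move_phi]

theorem s_move_phi_far {r : ℝ} (hr : 0 < r) {a z : ℂ} (h : r ≤ ‖z - a‖) : s_move_phi r a z = 0 := by
  unfold s_move_phi
  refine max_eq_right ?_
  have : 1 ≤ ‖z - a‖ / r := by rwa [le_div_iff₀ hr, one_mul]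
  linarith

theorem s_move_phi_lip {r : ℝ} (hr : 0 < r) (a z w : ℂ) :
    |s_move_phi r a z - s_move_phi r a w| ≤ ‖z - w‖ / r := by
  unfold s_move_phi
  refine (abs_max_sub_max_le_abs _ _ _).trans ?_
  have e : 1 - ‖z - a‖ / r - (1 - ‖w - a‖ / r) = (‖w - a‖ - ‖z - a‖) / r := by ring
  rw [e, abs_div, abs_of_pos hr]
  refine div_le_div_of_nonneg_right ?_ hr.le
  refine (abs_norm_sub_norm_le _ _).trans (le_of_eq ?_)
  rw [show w - a - (z - a) = -(z - w) by ring, norm_neg]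

/-- the map of the plane -/
def s_move_f {m : ℕ} (q : Fin m → ℂ) (r : ℝ) (v : Fin m → ℂ) (z : ℂ) : ℂ :=
  z + ∑ j, (s_move_phi r (q j) z : ℂ) * v j

theorem s_move_lip {m : ℕ} (q : Fin m → ℂ) {r : ℝ} (hr : 0 < r) {v : Fin m → ℂ}
    (hv : ∀ j, ‖v j‖ < r / (2 * (m + 1))) (z w : ℂ) :
    ‖s_move_f q r v z - s_move_f q r v w - (z - w)‖ ≤ 1 / 2 * ‖z - w‖ := by
  have e : s_move_f q r v z - s_move_f q r v w - (z - w) =
      ∑ j, ((s_move_phi r (q j) z - s_move_phi r (q j) w : ℝ) : ℂ) * v j := by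
    unfold s_move_f
    rw [add_sub_add_comm, add_sub_cancel_left, ← Finset.sum_sub_distrib]
    refine Finset.sum_congr rfl fun j _ => ?_
    push_cast
    ring
  rw [e]
  refine (norm_sum_le _ _).trans ?_
  have h1 : ∀ j ∈ (Finset.univ : Finset (Fin m)),
      ‖((s_move_phi r (q j) z - s_move_phi r (q j) w : ℝ) : ℂ) * v j‖ ≤
        ‖z - w‖ / r * (r / (2 * (m + 1))) := by
    intro j _
    rw [norm_mul, Complex.norm_real, Real.norm_eq_abs]
    exact mul_le_mul (s_move_phi_lip hr _ _ _) (hv j).le (norm_nonneg _) (by positivity)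
  refine (Finset.sum_le_sum h1).trans ?_
  rw [Finset.sum_const, Finset.card_univ, Fintype.card_fin, nsmul_eq_mul]
  have h2 : (m : ℝ) * (‖z - w‖ / r * (r / (2 * (m + 1)))) = (m / (2 * (m + 1))) * ‖z - w‖ := by
    field_simp
  rw [h2]
  refine mul_le_mul_of_nonneg_right ?_ (norm_nonneg _)
  rw [div_le_div_iff₀ (by positivity) (by norm_num)]
  have : (0:ℝ) ≤ m := Nat.cast_nonneg m
  linarith

theorem s_move_bd {m : ℕ} (q : Fin m → ℂ) {r : ℝ} (hr : 0 < r) {v : Fin m → ℂ}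
    (hv : ∀ j, ‖v j‖ < r / (2 * (m + 1))) (z : ℂ) : ‖z‖ - r ≤ ‖s_move_f q r v z‖ := by
  have h0 : ‖∑ j, (s_move_phi r (q j) z : ℂ) * v j‖ ≤ r := by
    refine (norm_sum_le _ _).trans ?_
    have h1 : ∀ j ∈ (Finset.univ : Finset (Fin m)),
        ‖(s_move_phi r (q j) z : ℂ) * v j‖ ≤ 1 * (r / (2 * (m + 1))) := by
      intro j _
      rw [norm_mul, Complex.norm_real, Real.norm_eq_abs, abs_of_nonneg (s_move_phi_nonneg _ _ _)]
      exact mul_le_mul (s_move_phi_le hr _ _) (hv j).le (norm_nonneg _) zero_le_one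
    refine (Finset.sum_le_sum h1).trans ?_
    rw [Finset.sum_const, Finset.card_univ, Fintype.card_fin, nsmul_eq_mul, one_mul]
    have : (m : ℝ) * (r / (2 * (m + 1))) = (m / (2 * (m + 1))) * r := by ring
    rw [this]
    refine mul_le_of_le_one_left hr.le ?_
    rw [div_le_one (by positivity)]
    have : (0:ℝ) ≤ m := Nat.cast_nonneg m
    linarith
  unfold s_move_f
  have h2 : z = (z + ∑ j, (s_move_phi r (q j) z : ℂ) * v j) -
      ∑ j, (s_move_phi r (q j) z : ℂ) * v j := by ring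
  have h3 := norm_sub_le (z + ∑ j, (s_move_phi r (q j) z : ℂ) * v j)
    (∑ j, (s_move_phi r (q j) z : ℂ) * v j)
  rw [← h2] at h3
  linarith

theorem s_move_approx {m : ℕ} (q : Fin m → ℂ) {r : ℝ} (hr : 0 < r) {v : Fin m → ℂ}
    (hv : ∀ j, ‖v j‖ < r / (2 * (m + 1))) :
    ApproximatesLinearOn (s_move_f q r v) ((ContinuousLinearEquiv.refl ℝ ℂ : ℂ ≃L[ℝ] ℂ) : ℂ →L[ℝ] ℂ)
      univ (1 / 2) := by
  intro z _ w _
  have h := s_move_lip q hr hv z w
  simpa using h

theorem s_move_norm : (1 / 2 : NNReal) <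
    ‖(((ContinuousLinearEquiv.refl ℝ ℂ : ℂ ≃L[ℝ] ℂ).symm : ℂ ≃L[ℝ] ℂ) : ℂ →L[ℝ] ℂ)‖₊⁻¹ := by
  have h1 : ‖(((ContinuousLinearEquiv.refl ℝ ℂ : ℂ ≃L[ℝ] ℂ).symm : ℂ ≃L[ℝ] ℂ) : ℂ →L[ℝ] ℂ)‖₊ = 1 := by
    have h2 : (((ContinuousLinearEquiv.refl ℝ ℂ : ℂ ≃L[ℝ] ℂ).symm : ℂ ≃L[ℝ] ℂ) : ℂ →L[ℝ] ℂ) =
        ContinuousLinearMap.id ℝ ℂ := rfl
    rw [h2]
    exact ContinuousLinearMap.nnnorm_id
  rw [h1]
  rw [inv_one]
  exact NNReal.half_lt_self one_ne_zero

/-- the homeomorphism of the plane -/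
def s_move_homeo {m : ℕ} (q : Fin m → ℂ) {r : ℝ} (hr : 0 < r) {v : Fin m → ℂ}
    (hv : ∀ j, ‖v j‖ < r / (2 * (m + 1))) : ℂ ≃ₜ ℂ :=
  (s_move_approx q hr hv).toHomeomorph _ (Or.inr s_move_norm)

theorem s_move_homeo_apply {m : ℕ} (q : Fin m → ℂ) {r : ℝ} (hr : 0 < r) {v : Fin m → ℂ}
    (hv : ∀ j, ‖v j‖ < r / (2 * (m + 1))) (z : ℂ) :
    s_move_homeo q hr hv z = s_move_f q r v z := rfl

theorem s_move_radius {m : ℕ} (q : Fin m → ℂ) (hq : Function.Injective q) :
    ∃ r : ℝ, 0 < r ∧ ∀ i j, i ≠ j → r ≤ ‖q i - q j‖ := by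
  have h : ∀ᶠ r : ℝ in 𝓝[>] 0, ∀ p : Fin m × Fin m, p.1 ≠ p.2 → r ≤ ‖q p.1 - q p.2‖ := by
    rw [eventually_all]
    intro p
    by_cases hp : p.1 = p.2
    · exact Eventually.of_forall fun r h => absurd hp h
    · have hpos : 0 < ‖q p.1 - q p.2‖ := norm_pos_iff.2 (sub_ne_zero.2 fun h => hp (hq h))
      have h1 : ∀ᶠ r : ℝ in 𝓝[>] 0, r < ‖q p.1 - q p.2‖ :=
        nhdsWithin_le_nhds (eventually_lt_nhds hpos)
      exact h1.mono fun r hr _ => hr.le
  obtain ⟨r, hr1, hr2⟩ := (h.and self_mem_nhdsWithin).exists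
  exact ⟨r, hr2, fun i j hij => hr1 (i, j) hij⟩

theorem s_move : S_move := by
  intro m q hq
  obtain ⟨r, hr, hrq⟩ := s_move_radius q hq
  refine ⟨r / (2 * (m + 1)), by positivity, ?_⟩
  intro c hc hc0 hcε
  have hv : ∀ s, ∀ j, ‖(fun j => c s j - q j) j‖ < r / (2 * (m + 1)) := fun s j => hcε s j
  refine ⟨fun s => (s_move_homeo q hr (hv s)).onePointCongr, ?_, ?_, ?_⟩
  · unfold IsIsotopy
    have hjoint : Continuous fun p : I × ℂ => s_move_f q r (fun j => c p.1 j - q j) p.2 := by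
      unfold s_move_f
      have h1 := fun j => s_move_phi_cont r (q j)
      fun_prop
    have hcoe : ∀ (s : I) (z : ℂ), (s_move_homeo q hr (hv s)).onePointCongr (z : Sph) =
        ((s_move_f q r (fun j => c s j - q j) z : ℂ) : Sph) := fun s z => rfl
    have hinf : ∀ (s : I), (s_move_homeo q hr (hv s)).onePointCongr (∞ : Sph) = (∞ : Sph) :=
      fun s => rfl
    rw [continuous_iff_continuousAt]
    rintro ⟨s, x⟩
    induction x using OnePoint.rec with
    | infty =>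
      change Tendsto (fun p : I × Sph => (s_move_homeo q hr (hv p.1)).onePointCongr p.2)
        (𝓝 (s, (∞ : Sph))) (𝓝 (∞ : Sph))
      rw [OnePoint.hasBasis_nhds_infty.tendsto_right_iff]
      intro k hk
      obtain ⟨R, hR⟩ := hk.2.isBounded.subset_closedBall 0
      have hmem : (((↑) : ℂ → Sph) '' (Metric.closedBall (0:ℂ) (R + r))ᶜ ∪ {∞}) ∈ 𝓝 (∞ : Sph) :=
        OnePoint.hasBasis_nhds_infty.mem_of_mem
          ⟨Metric.isClosed_closedBall, isCompact_closedBall _ _⟩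
      have hmem2 : ∀ᶠ p : I × Sph in 𝓝 (s, (∞ : Sph)),
          p.2 ∈ (((↑) : ℂ → Sph) '' (Metric.closedBall (0:ℂ) (R + r))ᶜ ∪ {∞}) :=
        continuous_snd.continuousAt.eventually hmem
      refine hmem2.mono ?_
      rintro ⟨s', x⟩ hx
      rcases hx with hx | hx
      · obtain ⟨z, hz, rfl⟩ := hx
        left
        refine ⟨s_move_f q r (fun j => c s' j - q j) z, ?_, rfl⟩
        intro hcon
        have h1 := hR hcon
        rw [mem_closedBall_zero_iff] at h1
        have h2 := s_move_bd q hr (hv s') z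
        apply hz
        rw [mem_closedBall_zero_iff]
        linarith
      · right
        have hx' : x = ∞ := hx
        rw [hx']
        exact hinf s'
    | coe z =>
      have hoe : IsOpenEmbedding (Prod.map id ((↑) : ℂ → Sph) : I × ℂ → I × Sph) :=
        IsOpenEmbedding.id.prodMap OnePoint.isOpenEmbedding_coe
      have h1 := hoe.continuousAt_iff (g := fun p : I × Sph =>
        (s_move_homeo q hr (hv p.1)).onePointCongr p.2) (x := (s, z))
      refine h1.1 ?_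
      exact (OnePoint.continuous_coe.comp hjoint).continuousAt
  · intro x
    have h0 : ∀ z, s_move_f q r (fun j => c 0 j - q j) z = z := by
      intro z
      unfold s_move_f
      simp [hc0]
    induction x using OnePoint.rec with
    | infty => rfl
    | coe z =>
      change ((s_move_f q r (fun j => c 0 j - q j) z : ℂ) : Sph) = (z : Sph)
      rw [h0]
  · intro s j
    change ((s_move_f q r (fun j => c s j - q j) (q j) : ℂ) : Sph) = (c s j : Sph)
    congr 1
    unfold s_move_f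
    rw [Finset.sum_eq_single j]
    · rw [s_move_phi_self]
      push_cast
      ring
    · intro i _ hij
      rw [s_move_phi_far hr (hrq j i (Ne.symm hij))]
      simp
    · intro h
      exact absurd (Finset.mem_univ j) h

end Pool.Agent.H208.Cur
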