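import Pool.Agent.H208.Cur.Stm

set_option autoImplicit false

/-!
# The family of rational maps is open
-/

noncomputable section

namespace Pool.Agent.H208.Cur

open OnePoint Set Filter Topology unitInterval Polynomial

/-- the chart at infinity -/
def s_open_J (u : ℂ) : Sph := if u = 0 then ∞ else ((u⁻¹ : ℂ) : Sph)

/-- the inverse of the chart at infinity -/
def s_open_K (x : Sph) : ℂ := x.elim 0 fun z => z⁻¹

theorem s_open_J_zero : s_open_J 0 = ∞ := if_pos rfl

theorem s_open_J_ne {u : ℂ} (hu : u ≠ 0) : s_open_J u = ((u⁻¹ : ℂ) : Sph) := if_neg hu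

theorem s_open_JK {x : Sph} (hx : x ≠ ((0 : ℂ) : Sph)) : s_open_J (s_open_K x) = x := by
  induction x using OnePoint.rec with
  | infty => exact s_open_J_zero
  | coe z =>
    have hz : z ≠ 0 := fun h => hx (by rw [h])
    have h1 : s_open_K (z : Sph) = z⁻¹ := rfl
    rw [h1, s_open_J_ne (inv_ne_zero hz), inv_inv]

theorem s_open_cocl : coclosedCompact ℂ = Bornology.cobounded ℂ := by
  rw [coclosedCompact_eq_cocompact, Metric.cobounded_eq_cocompact]

theorem s_open_K_cont : ContinuousAt s_open_K ∞ := by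
  rw [continuousAt_infty', s_open_cocl]
  exact tendsto_inv₀_cobounded

theorem s_open_J_cont : ContinuousAt s_open_J 0 := by
  rw [← continuousWithinAt_compl_self]
  have h1 : Tendsto (fun u : ℂ => ((u⁻¹ : ℂ) : Sph)) (𝓝[≠] 0) (𝓝 ∞) := by
    refine tendsto_coe_infty.comp ?_
    rw [s_open_cocl]
    exact tendsto_inv₀_nhdsNE_zero
  have h2 : Tendsto (fun u : ℂ => ((u⁻¹ : ℂ) : Sph)) (𝓝[≠] 0) (𝓝 (s_open_J 0)) := by
    rw [s_open_J_zero]
    exact h1
  refine Tendsto.congr' ?_ h2
  filter_upwards [self_mem_nhdsWithin] with u hu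
  exact (s_open_J_ne hu).symm

section

variable {T : Type} [TopologicalSpace T]

theorem s_open_fin {t₀ : T} {w₀ : ℂ} {p : T × Sph → Prop}
    (h : ∀ᶠ q : T × ℂ in 𝓝 (t₀, w₀), p (q.1, (q.2 : Sph))) :
    ∀ᶠ q : T × Sph in 𝓝 (t₀, (w₀ : Sph)), p q := by
  have he : IsOpenEmbedding (Prod.map (id : T → T) ((↑) : ℂ → Sph)) :=
    IsOpenEmbedding.id.prodMap isOpenEmbedding_coe
  have h1 := he.map_nhds_eq (t₀, w₀)
  have h2 : Prod.map (id : T → T) ((↑) : ℂ → Sph) (t₀, w₀) = (t₀, (w₀ : Sph)) := rfl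
  rw [h2] at h1
  rw [← h1, eventually_map]
  exact h

theorem s_open_inf {t₀ : T} {p : T × Sph → Prop}
    (h : ∀ᶠ q : T × ℂ in 𝓝 (t₀, 0), p (q.1, s_open_J q.2)) :
    ∀ᶠ q : T × Sph in 𝓝 (t₀, (∞ : Sph)), p q := by
  have h1 : Tendsto (fun q : T × Sph => (q.1, s_open_K q.2)) (𝓝 (t₀, (∞ : Sph)))
      (𝓝 (t₀, (0 : ℂ))) := by
    have h2 : ContinuousAt (fun q : T × Sph => (q.1, s_open_K q.2)) (t₀, (∞ : Sph)) :=
      continuousAt_fst.prodMk (ContinuousAt.comp (x := (t₀, (∞ : Sph))) (g := s_open_K)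
        (f := Prod.snd) s_open_K_cont continuousAt_snd)
    exact h2
  have h3 : ∀ᶠ q : T × Sph in 𝓝 (t₀, (∞ : Sph)), q.2 ≠ ((0 : ℂ) : Sph) := by
    have : ContinuousAt (fun q : T × Sph => q.2) (t₀, (∞ : Sph)) := continuousAt_snd
    exact this.eventually_ne (OnePoint.infty_ne_coe 0)
  filter_upwards [h1.eventually h, h3] with q h4 h5
  have h6 : (q.1, s_open_J (s_open_K q.2)) = q := by rw [s_open_JK h5]
  rwa [h6] at h4

end

/-- zeros of an entire function are isolated or it vanishes -/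
theorem s_open_iso {f : ℂ → ℂ} (hf : Differentiable ℂ f) (h : ∃ z, f z ≠ 0) (z₀ : ℂ) :
    ∀ᶠ z in 𝓝[≠] z₀, f z ≠ 0 := by
  have ha : AnalyticOnNhd ℂ f univ := hf.differentiableOn.analyticOnNhd isOpen_univ
  rcases (ha z₀ (mem_univ _)).eventually_eq_zero_or_eventually_ne_zero with h1 | h1
  · exfalso
    obtain ⟨z, hz⟩ := h
    have h0 : AnalyticOnNhd ℂ (fun _ : ℂ => (0 : ℂ)) univ := fun _ _ => analyticAt_const
    have h2 := ha.eq_of_eventuallyEq h0 (z₀ := z₀) h1
    exact hz (by rw [h2])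
  · exact h1

section

variable {d m : ℕ}

theorem s_open_cc {T : Type} [TopologicalSpace T] {y : T → Ix d m → ℝ} (hy : Continuous y)
    (i : Fin d ⊕ (Fin d ⊕ Fin m)) : Continuous fun t => cc (y t) i := by
  have h : (fun t => cc (y t) i) = fun t => ((y t (i, false) : ℝ) : ℂ) +
      ((y t (i, true) : ℝ) : ℂ) * Complex.I := by
    funext t
    exact Complex.mk_eq_add_mul_I _ _
  rw [h]
  have h1 : Continuous fun t => y t (i, false) := (continuous_apply _).comp hy
  have h2 : Continuous fun t => y t (i, true) := (continuous_apply _).comp hy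
  fun_prop

theorem s_open_nu {T : Type} [TopologicalSpace T] {y : T → Ix d m → ℝ} (hy : Continuous y) :
    Continuous fun p : T × ℂ => nu (y p.1) p.2 := by
  refine continuous_finsetSum _ fun i _ => ?_
  exact ((s_open_cc hy _).comp continuous_fst).mul (continuous_snd.pow _)

theorem s_open_de {T : Type} [TopologicalSpace T] {y : T → Ix d m → ℝ} (hy : Continuous y) :
    Continuous fun p : T × ℂ => de (y p.1) p.2 := by
  refine (continuous_snd.pow _).add (continuous_finsetSum _ fun i _ => ?_)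
  exact ((s_open_cc hy _).comp continuous_fst).mul (continuous_snd.pow _)

theorem s_open_nud (y : Ix d m → ℝ) : Differentiable ℂ (nu y) := by
  unfold nu
  fun_prop

theorem s_open_ded (y : Ix d m → ℝ) : Differentiable ℂ (de y) := by
  unfold de
  fun_prop

/-- the denominator as a polynomial -/
theorem s_open_pol (y : Ix d m → ℝ) : ∃ q : ℂ[X], q.natDegree = d ∧ q.Monic ∧
    ∀ z, q.eval z = de y z := by
  have hlt : (∑ i : Fin d, C (cc y (.inr (.inl i))) * X ^ (i : ℕ) : ℂ[X]).degree < d :=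
    degree_sum_fin_lt _
  refine ⟨X ^ d + ∑ i : Fin d, C (cc y (.inr (.inl i))) * X ^ (i : ℕ), ?_, ?_, ?_⟩
  · rw [natDegree_add_eq_left_of_degree_lt (by rw [degree_X_pow]; exact hlt), natDegree_X_pow]
  · exact monic_X_pow_add hlt
  · intro z
    simp [de, eval_finsetSum]

theorem s_open_root (y : Ix d m → ℝ) (hd : 1 ≤ d) : ∃ z, de y z = 0 := by
  obtain ⟨q, h1, h2, h3⟩ := s_open_pol y
  obtain ⟨z, hz⟩ := IsAlgClosed.exists_root q (by
    rw [degree_eq_natDegree h2.ne_zero, h1]
    exact_mod_cast (by omega : d ≠ 0))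
  exact ⟨z, by rw [← h3]; exact hz⟩

theorem s_open_nr (y : Ix d m → ℝ) : ∃ z, de y z ≠ 0 := by
  obtain ⟨q, h1, h2, h3⟩ := s_open_pol y
  by_contra hcon
  push Not at hcon
  apply h2.ne_zero
  apply Polynomial.funext
  intro z
  rw [h3, hcon, eval_zero]

end

theorem s_open_rev {d : ℕ} (c : Fin d → ℂ) {ζ : ℂ} (hζ : ζ ≠ 0) :
    ∑ i : Fin d, c i * ζ ^ (d - (i : ℕ)) = ζ ^ d * ∑ i : Fin d, c i * (ζ⁻¹) ^ (i : ℕ) := by
  rw [Finset.mul_sum]
  refine Finset.sum_congr rfl fun i _ => ?_
  have h1 : ζ ^ d = ζ ^ (d - (i : ℕ)) * ζ ^ (i : ℕ) := by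
    rw [← pow_add, Nat.sub_add_cancel i.2.le]
  have h2 : ζ ^ (i : ℕ) * (ζ⁻¹) ^ (i : ℕ) = 1 := by
    rw [← mul_pow, mul_inv_cancel₀ hζ, one_pow]
  rw [h1]
  linear_combination (-(c i * ζ ^ (d - (i : ℕ)))) * h2

theorem s_open_quo {A B w : ℂ} (hB : B ≠ 0) (h : A - w * B = 0) : quo A B = ((w : ℂ) : Sph) := by
  rw [quo, if_neg hB]
  congr 1
  rw [div_eq_iff hB]
  linear_combination h

theorem s_open : S_open := by
  intro hroot d m hd T _ y hy hyz t₀ x₀ V hV
  induction x₀ using OnePoint.rec with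
  | infty =>
    have e1 : rm (y t₀) ∞ = ((0 : ℂ) : Sph) := rfl
    rw [e1]
    have hV' : s_open_J ⁻¹' V ∈ 𝓝 (0 : ℂ) := by
      apply s_open_J_cont
      rw [s_open_J_zero]
      exact hV
    have hcN : Continuous fun p : (T × ℂ) × ℂ =>
        ∑ i : Fin d, cc (y p.1.1) (.inl i) * p.2 ^ (d - (i : ℕ)) :=
      continuous_finsetSum _ fun i _ =>
        (((s_open_cc hy _).comp continuous_fst).comp continuous_fst).mul (continuous_snd.pow _)
    have hcD : Continuous fun p : (T × ℂ) × ℂ =>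
        ∑ i : Fin d, cc (y p.1.1) (.inr (.inl i)) * p.2 ^ (d - (i : ℕ)) :=
      continuous_finsetSum _ fun i _ =>
        (((s_open_cc hy _).comp continuous_fst).comp continuous_fst).mul (continuous_snd.pow _)
    have h := hroot (T × ℂ) (fun p ζ => ∑ i : Fin d, cc (y p.1) (.inl i) * ζ ^ (d - (i : ℕ)) -
      p.2 * (1 + ∑ i : Fin d, cc (y p.1) (.inr (.inl i)) * ζ ^ (d - (i : ℕ)))) (t₀, 0) 0
      (hcN.sub ((continuous_snd.comp continuous_fst).mul (continuous_const.add hcD)))
      (fun p => by fun_prop) ?_ ?_ _ hV'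
    · apply s_open_fin
      filter_upwards [h] with q hq
      obtain ⟨ζ, hζV, hζ⟩ := hq
      refine ⟨s_open_J ζ, hζV, ?_⟩
      by_cases h0 : ζ = 0
      · rw [h0, s_open_J_zero]
        rw [h0] at hζ
        have h1 : ∀ c : Fin d → ℂ, ∑ i : Fin d, c i * (0 : ℂ) ^ (d - (i : ℕ)) = 0 := by
          intro c
          refine Finset.sum_eq_zero fun i _ => ?_
          rw [zero_pow (by have := i.2; omega), mul_zero]
        rw [h1, h1, add_zero, mul_one, zero_sub, neg_eq_zero] at hζ
        rw [hζ]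
        rfl
      · rw [s_open_J_ne h0]
        rw [s_open_rev _ h0, s_open_rev _ h0] at hζ
        have h2 : nu (y q.1) ζ⁻¹ - q.2 * de (y q.1) ζ⁻¹ = 0 := by
          have h3 : ζ ^ d * (ζ⁻¹) ^ d = 1 := by rw [← mul_pow, mul_inv_cancel₀ h0, one_pow]
          have h4 : ζ ^ d * (nu (y q.1) ζ⁻¹ - q.2 * de (y q.1) ζ⁻¹) = 0 := by
            rw [nu, de]
            linear_combination hζ - q.2 * h3
          exact (mul_eq_zero.mp h4).resolve_left (pow_ne_zero _ h0)
        have h5 : de (y q.1) ζ⁻¹ ≠ 0 := by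
          intro h5
          rw [h5, mul_zero, sub_zero] at h2
          exact hyz q.1 _ ⟨h2, h5⟩
        exact s_open_quo h5 h2
    · change ∑ i : Fin d, cc (y t₀) (.inl i) * (0 : ℂ) ^ (d - (i : ℕ)) - 0 * _ = 0
      rw [zero_mul, sub_zero]
      refine Finset.sum_eq_zero fun i _ => ?_
      rw [zero_pow (by have := i.2; omega), mul_zero]
    · apply s_open_iso (by fun_prop)
      by_contra hcon
      push Not at hcon
      have h1 : ∀ z, z ≠ 0 → nu (y t₀) z = 0 := by
        intro z hz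
        have h2 := hcon z⁻¹
        rw [zero_mul, sub_zero, s_open_rev _ (inv_ne_zero hz), inv_inv] at h2
        exact (mul_eq_zero.mp h2).resolve_left (pow_ne_zero _ (inv_ne_zero hz))
      have h2 : nu (y t₀) = fun _ => 0 := by
        refine Continuous.ext_on (dense_compl_singleton (0 : ℂ)) (s_open_nud _).continuous
          continuous_const ?_
        intro z hz
        exact h1 z hz
      obtain ⟨z, hz⟩ := s_open_root (y t₀) hd
      exact hyz t₀ z ⟨by rw [h2], hz⟩
  | coe z₀ =>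
    have hV' : ((↑) : ℂ → Sph) ⁻¹' V ∈ 𝓝 z₀ := continuous_coe.continuousAt hV
    by_cases hde : de (y t₀) z₀ = 0
    · have e1 : rm (y t₀) (z₀ : Sph) = ∞ := if_pos hde
      rw [e1]
      have h := hroot (T × ℂ) (fun p z => p.2 * nu (y p.1) z - de (y p.1) z) (t₀, 0) z₀
        (((continuous_snd.comp continuous_fst).mul ((s_open_nu hy).comp
          ((continuous_fst.comp continuous_fst).prodMk continuous_snd))).sub
          ((s_open_de hy).comp ((continuous_fst.comp continuous_fst).prodMk continuous_snd)))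
        (fun p => ((s_open_nud _).const_mul _).sub (s_open_ded _)) (by simp [hde]) ?_ _ hV'
      · apply s_open_inf
        filter_upwards [h] with q hq
        obtain ⟨z, hzV, hz⟩ := hq
        refine ⟨(z : Sph), hzV, ?_⟩
        have e2 : rm (y q.1) (z : Sph) = quo (nu (y q.1) z) (de (y q.1) z) := rfl
        change rm (y q.1) (z : Sph) = s_open_J q.2
        rw [e2]
        by_cases h0 : q.2 = 0
        · rw [h0, zero_mul, zero_sub, neg_eq_zero] at hz
          rw [h0, s_open_J_zero, quo, if_pos hz]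
        · rw [s_open_J_ne h0]
          have h5 : de (y q.1) z ≠ 0 := by
            intro h5
            rw [h5, sub_zero] at hz
            exact hyz q.1 _ ⟨(mul_eq_zero.mp hz).resolve_left h0, h5⟩
          apply s_open_quo h5
          have h6 : q.2⁻¹ * q.2 = 1 := inv_mul_cancel₀ h0
          linear_combination q.2⁻¹ * hz - nu (y q.1) z * h6
      · apply s_open_iso (((s_open_nud _).const_mul _).sub (s_open_ded _))
        obtain ⟨z, hz⟩ := s_open_nr (y t₀)
        exact ⟨z, by simpa using hz⟩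
    · have e1 : rm (y t₀) (z₀ : Sph) = ((nu (y t₀) z₀ / de (y t₀) z₀ : ℂ) : Sph) := if_neg hde
      rw [e1]
      set w₀ := nu (y t₀) z₀ / de (y t₀) z₀ with hw₀
      have h := hroot (T × ℂ) (fun p z => nu (y p.1) z - p.2 * de (y p.1) z) (t₀, w₀) z₀
        (((s_open_nu hy).comp
          ((continuous_fst.comp continuous_fst).prodMk continuous_snd)).sub
          ((continuous_snd.comp continuous_fst).mul
          ((s_open_de hy).comp ((continuous_fst.comp continuous_fst).prodMk continuous_snd))))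
        (fun p => (s_open_nud _).sub ((s_open_ded _).const_mul _))
        (by simp only [hw₀]; field_simp; ring) ?_ _ hV'
      · apply s_open_fin
        filter_upwards [h] with q hq
        obtain ⟨z, hzV, hz⟩ := hq
        refine ⟨(z : Sph), hzV, ?_⟩
        have e2 : rm (y q.1) (z : Sph) = quo (nu (y q.1) z) (de (y q.1) z) := rfl
        change rm (y q.1) (z : Sph) = ((q.2 : ℂ) : Sph)
        rw [e2]
        have h5 : de (y q.1) z ≠ 0 := by
          intro h5
          rw [h5, mul_zero, sub_zero] at hz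
          exact hyz q.1 _ ⟨hz, h5⟩
        exact s_open_quo h5 hz
      · apply s_open_iso ((s_open_nud _).sub ((s_open_ded _).const_mul _))
        obtain ⟨z, hz⟩ := s_open_root (y t₀) hd
        refine ⟨z, fun h0 => ?_⟩
        change nu (y t₀) z - w₀ * de (y t₀) z = 0 at h0
        rw [hz, mul_zero, sub_zero] at h0
        exact hyz t₀ z ⟨h0, hz⟩

end Pool.Agent.H208.Cur
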