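import Pool.Agent.H208.Cur.Stm

set_option autoImplicit false

/-! Statement `S_rat` (helper208), proved by helper196. -/

noncomputable section

namespace Pool.Agent.H208.Cur

open OnePoint Set Filter Topology unitInterval Polynomial

def s_rat_a {d m : ℕ} (y : Ix d m → ℝ) : ℂ[X] :=
  ∑ i : Fin d, C (cc y (.inl i)) * X ^ (i : ℕ)

def s_rat_r {d m : ℕ} (y : Ix d m → ℝ) : ℂ[X] :=
  ∑ i : Fin d, C (cc y (.inr (.inl i))) * X ^ (i : ℕ)

theorem s_rat_eval_a {d m : ℕ} (y : Ix d m → ℝ) (z : ℂ) : (s_rat_a y).eval z = nu y z := by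
  unfold s_rat_a nu
  rw [eval_finsetSum]
  apply Finset.sum_congr rfl
  intro i _
  rw [eval_mul, eval_C, eval_pow, eval_X]

theorem s_rat_eval_r {d m : ℕ} (y : Ix d m → ℝ) (z : ℂ) :
    (X ^ d + s_rat_r y).eval z = de y z := by
  unfold s_rat_r de
  rw [eval_add, eval_pow, eval_X, eval_finsetSum]
  congr 1
  apply Finset.sum_congr rfl
  intro i _
  rw [eval_mul, eval_C, eval_pow, eval_X]

theorem s_rat : S_rat := by
  intro d m hd y hy
  have ha : (s_rat_a y).degree < d := degree_sum_fin_lt _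
  have hr : (s_rat_r y).degree < d := degree_sum_fin_lt _
  have hbm : (X ^ d + s_rat_r y).Monic := monic_X_pow_add hr
  have hbd : (X ^ d + s_rat_r y).natDegree = d := by
    apply natDegree_eq_of_degree_eq_some
    rw [degree_add_eq_left_of_degree_lt]
    · exact degree_X_pow d
    · rw [degree_X_pow]; exact hr
  refine ⟨s_rat_a y, X ^ d + s_rat_r y, ?_, ?_, ?_⟩
  · rw [Polynomial.isCoprime_iff_aeval_ne_zero_of_isAlgClosed (K := ℂ) (k := ℂ)]
    intro z
    by_contra h
    rw [not_or, not_not, not_not] at h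
    apply hy z
    obtain ⟨h1, h2⟩ := h
    rw [coe_aeval_eq_eval] at h1 h2
    rw [← s_rat_eval_a, ← s_rat_eval_r]
    exact ⟨h1, h2⟩
  · rw [hbd]
    apply max_eq_right
    by_cases h0 : s_rat_a y = 0
    · rw [h0, natDegree_zero]; exact Nat.zero_le _
    · exact ((natDegree_lt_iff_degree_lt h0).2 ha).le
  · funext x
    unfold rm ratMap
    induction x using OnePoint.rec with
    | infty =>
      have h1 : (s_rat_a y).coeff d = 0 := coeff_eq_zero_of_degree_lt ha
      have h2 : (X ^ d + s_rat_r y).coeff d = 1 := by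
        have := hbm.coeff_natDegree
        rwa [hbd] at this
      rw [h1, h2]
      simp [quo]
    | coe z =>
      simp only [OnePoint.elim_some, s_rat_eval_a, s_rat_eval_r]

end Pool.Agent.H208.Cur
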