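import Pool.Agent.H208.Cur.Stm

set_option autoImplicit false

/-!
# Zeros of holomorphic families persist (written by helper199)
-/

noncomputable section

namespace Pool.Agent.H208.Cur

open OnePoint Set Filter Topology unitInterval Polynomial

theorem s_root : S_root := by
  intro T _ f t₀ z₀ hcont hdiff h0 hiso V hV
  -- a small closed disc
  obtain ⟨r, hr, hrV, hrz⟩ : ∃ r : ℝ, 0 < r ∧ Metric.closedBall z₀ r ⊆ V ∧
      ∀ z ∈ Metric.closedBall z₀ r, z ≠ z₀ → f t₀ z ≠ 0 := by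
    rw [eventually_nhdsWithin_iff] at hiso
    have h1 := Filter.inter_mem hV hiso
    obtain ⟨r, hr, hsub⟩ := Metric.nhds_basis_closedBall.mem_iff.1 h1
    exact ⟨r, hr, fun z hz => (hsub hz).1, fun z hz hne => (hsub hz).2 hne⟩
  have hsph : ∀ z ∈ Metric.sphere z₀ r, f t₀ z ≠ 0 := by
    intro z hz
    refine hrz z (Metric.sphere_subset_closedBall hz) ?_
    rintro rfl
    rw [mem_sphere_iff_norm, sub_self, norm_zero] at hz
    exact hr.ne hz
  have hne : (Metric.sphere z₀ r).Nonempty := NormedSpace.sphere_nonempty.2 hr.le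
  have hc0 : Continuous (f t₀) := (hdiff t₀).continuous
  obtain ⟨w, hw, hmin⟩ := (isCompact_sphere z₀ r).exists_isMinOn hne hc0.norm.continuousOn
  have hε : 0 < ‖f t₀ w‖ := norm_pos_iff.2 (hsph w hw)
  -- the values on the circle
  have hev1 : ∀ᶠ t in 𝓝 t₀, ∀ z ∈ Metric.sphere z₀ r, ‖f t₀ w‖ / 2 < ‖f t z‖ := by
    refine (isCompact_sphere z₀ r).eventually_forall_of_forall_eventually ?_
    intro z hz
    have h1 : ‖f t₀ w‖ / 2 < ‖f t₀ z‖ := by
      have h2 := hmin hz
      have h3 : ‖f t₀ w‖ ≤ ‖f t₀ z‖ := h2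
      linarith
    exact (hcont.norm.tendsto (t₀, z)).eventually (lt_mem_nhds h1)
  have hev2 : ∀ᶠ t in 𝓝 t₀, ‖f t z₀‖ < ‖f t₀ w‖ / 2 := by
    have h1 : Continuous fun t => f t z₀ :=
      hcont.comp (continuous_id.prodMk continuous_const)
    have h2 : ‖f t₀ z₀‖ < ‖f t₀ w‖ / 2 := by
      rw [h0, norm_zero]
      linarith
    exact (h1.norm.tendsto t₀).eventually (gt_mem_nhds h2)
  filter_upwards [hev1, hev2] with t h1 h2
  by_contra hcon
  push Not at hcon
  have hnz : ∀ z ∈ Metric.closedBall z₀ r, f t z ≠ 0 := fun z hz => hcon z (hrV hz)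
  have hd : DiffContOnCl ℂ (fun z => (f t z)⁻¹) (Metric.ball z₀ r) := by
    refine DiffContOnCl.inv (hdiff t).diffContOnCl ?_
    intro z hz
    rw [closure_ball z₀ hr.ne'] at hz
    exact hnz z hz
  have h3 : ‖(f t z₀)⁻¹‖ ≤ (‖f t₀ w‖ / 2)⁻¹ := by
    refine Complex.norm_le_of_forall_mem_frontier_norm_le Metric.isBounded_ball hd ?_
      (subset_closure (Metric.mem_ball_self hr))
    intro z hz
    rw [frontier_ball z₀ hr.ne'] at hz
    rw [norm_inv]
    exact inv_anti₀ (by linarith) (h1 z hz).le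
  have h4 : 0 < ‖f t z₀‖ := norm_pos_iff.2 (hnz z₀ (Metric.mem_closedBall_self hr.le))
  rw [norm_inv, inv_le_inv₀ h4 (by linarith)] at h3
  linarith

end Pool.Agent.H208.Cur
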