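import Pool.Agent.H208.Cur.Stm

set_option autoImplicit false

/-!
# The set of the marked rational maps of a type is semialgebraic (helper30)
-/

noncomputable section

namespace Pool.Agent.H208.Cur

open OnePoint Set Filter Topology unitInterval Polynomial
open Pool.Agent.H581R2 Pool.Agent.TH729.SQ

/-- complex valued polynomial functions -/
def s_sa_CF {ι : Type} (f : (ι → ℝ) → ℂ) : Prop :=
  PF (fun v => (f v).re) ∧ PF (fun v => (f v).im)

lemma s_sa_CF.zero {ι : Type} : s_sa_CF (fun _ : ι → ℝ => (0 : ℂ)) := ⟨PF.zero, PF.zero⟩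

lemma s_sa_CF.one {ι : Type} : s_sa_CF (fun _ : ι → ℝ => (1 : ℂ)) := ⟨PF.one, PF.zero⟩

lemma s_sa_CF.add {ι : Type} {f g : (ι → ℝ) → ℂ} (hf : s_sa_CF f) (hg : s_sa_CF g) :
    s_sa_CF (fun v => f v + g v) := ⟨hf.1.add hg.1, hf.2.add hg.2⟩

lemma s_sa_CF.mul {ι : Type} {f g : (ι → ℝ) → ℂ} (hf : s_sa_CF f) (hg : s_sa_CF g) :
    s_sa_CF (fun v => f v * g v) := by
  constructor
  · have h := (hf.1.mul hg.1).sub (hf.2.mul hg.2)
    refine cast ?_ h
    congr 1
  · have h := (hf.1.mul hg.2).add (hf.2.mul hg.1)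
    refine cast ?_ h
    congr 1

lemma s_sa_CF.pow {ι : Type} {f : (ι → ℝ) → ℂ} (hf : s_sa_CF f) (n : ℕ) :
    s_sa_CF (fun v => f v ^ n) := by
  induction n with
  | zero =>
    have h : (fun v => f v ^ 0) = fun _ => (1 : ℂ) := by
      funext v
      rw [pow_zero]
    rw [h]
    exact s_sa_CF.one
  | succ n ih =>
    have h : (fun v => f v ^ (n + 1)) = fun v => f v ^ n * f v := by
      funext v
      rw [pow_succ]
    rw [h]
    exact ih.mul hf

lemma s_sa_CF.sum {ι : Type} {α : Type} (s : Finset α) {f : α → (ι → ℝ) → ℂ}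
    (hf : ∀ a ∈ s, s_sa_CF (f a)) : s_sa_CF (fun v => ∑ a ∈ s, f a v) := by
  constructor
  · have h : (fun v => (∑ a ∈ s, f a v).re) = fun v => ∑ a ∈ s, (f a v).re := by
      funext v
      rw [Complex.re_sum]
    rw [h]
    exact PF.sum s fun a ha => (hf a ha).1
  · have h : (fun v => (∑ a ∈ s, f a v).im) = fun v => ∑ a ∈ s, (f a v).im := by
      funext v
      rw [Complex.im_sum]
    rw [h]
    exact PF.sum s fun a ha => (hf a ha).2

lemma s_sa_CF.comp {ι κ : Type} {f : (κ → ℝ) → ℂ} (hf : s_sa_CF f) {φ : (ι → ℝ) → κ → ℝ}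
    (hφ : ∀ k, PF (fun v => φ v k)) : s_sa_CF (fun v => f (φ v)) :=
  ⟨PF.comp hf.1 hφ, PF.comp hf.2 hφ⟩

lemma s_sa_eq {ι : Type} {f g : (ι → ℝ) → ℂ} (hf : s_sa_CF f) (hg : s_sa_CF g) :
    SAP (fun v => f v = g v) :=
  ((SAP.eq hf.1 hg.1).and (SAP.eq hf.2 hg.2)).congr fun v => Complex.ext_iff

/-- existential quantifier over a complex variable -/
lemma s_sa_exC {ι : Type} {p : (ι → ℝ) → ℂ → Prop}
    (h : ∀ (κ : Type) (φ : (κ → ℝ) → ι → ℝ) (z : (κ → ℝ) → ℂ), (∀ i, PF (fun u => φ u i)) →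
      s_sa_CF z → SAP (fun u => p (φ u) (z u))) : SAP (fun v => ∃ z, p v z) := by
  have h1 : SAP (fun v => ∃ a b : ℝ, p v ⟨a, b⟩) := by
    refine SAP.exists' (p := fun v a => ∃ b : ℝ, p v ⟨a, b⟩) ?_
    refine SAP.exists' (p := fun (w : Option ι → ℝ) b => p (fun i => w (Option.some i)) ⟨w none, b⟩) ?_
    exact h (Option (Option ι)) (fun w i => w (Option.some (Option.some i)))
      (fun w => ⟨w (Option.some none), w none⟩)
      (fun i => PF.coord _) ⟨PF.coord _, PF.coord _⟩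
  refine h1.congr fun v => ?_
  constructor
  · rintro ⟨z, hz⟩
    exact ⟨z.re, z.im, hz⟩
  · rintro ⟨a, b, hz⟩
    exact ⟨_, hz⟩

/-- universal quantifier over a complex variable -/
lemma s_sa_faC {ι : Type} {p : (ι → ℝ) → ℂ → Prop}
    (h : ∀ (κ : Type) (φ : (κ → ℝ) → ι → ℝ) (z : (κ → ℝ) → ℂ), (∀ i, PF (fun u => φ u i)) →
      s_sa_CF z → SAP (fun u => p (φ u) (z u))) : SAP (fun v => ∀ z, p v z) := by
  have h1 := (s_sa_exC (p := fun v z => ¬ p v z) fun κ φ z hφ hz => (h κ φ z hφ hz).not).not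
  exact h1.congr fun v => by push Not; rfl

lemma s_sa_forall {ι : Type} {α : Type} [Finite α] {p : α → (ι → ℝ) → Prop}
    (h : ∀ a, SAP (p a)) : SAP (fun v => ∀ a, p a v) := by
  classical
  have := Fintype.ofFinite α
  exact SAP.congr (SAP.forall_mem Finset.univ fun a _ => h a) (by simp)

/-- existential quantifier over finitely many complex variables -/
lemma s_sa_exV (n : ℕ) : ∀ {ι : Type} {p : (ι → ℝ) → (Fin n → ℂ) → Prop},
    (∀ (κ : Type) (φ : (κ → ℝ) → ι → ℝ) (z : (κ → ℝ) → Fin n → ℂ), (∀ i, PF (fun u => φ u i)) →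
      (∀ j, s_sa_CF (fun u => z u j)) → SAP (fun u => p (φ u) (z u))) →
    SAP (fun v => ∃ z, p v z) := by
  induction n with
  | zero =>
    intro ι p h
    refine (h ι (fun v => v) (fun _ j => j.elim0) (fun i => PF.coord i)
      fun j => j.elim0).congr fun v => ?_
    constructor
    · rintro ⟨z, hz⟩
      have : z = fun j => j.elim0 := funext fun j => j.elim0
      rw [← this]
      exact hz
    · intro hz
      exact ⟨_, hz⟩
  | succ n ih =>
    intro ι p h
    have h1 : SAP (fun v => ∃ a : ℂ, ∃ z : Fin n → ℂ, p v (Fin.cons a z)) := by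
      refine s_sa_exC fun κ φ a hφ ha => ?_
      refine ih (p := fun u z => p (φ u) (Fin.cons (a u) z)) fun κ' φ' z hφ' hz => ?_
      refine h κ' (fun u => φ (φ' u)) (fun u => Fin.cons (a (φ' u)) (z u))
        (fun i => PF.comp (hφ i) hφ') fun j => ?_
      refine Fin.cases ?_ (fun j => ?_) j
      · exact ha.comp hφ'
      · exact hz j
    refine h1.congr fun v => ?_
    constructor
    · rintro ⟨z, hz⟩
      refine ⟨z 0, fun j => z j.succ, ?_⟩
      have : (Fin.cons (z 0) (fun j => z j.succ) : Fin (n + 1) → ℂ) = z := Fin.cons_self_tail z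
      rw [this]
      exact hz
    · rintro ⟨a, z, hz⟩
      exact ⟨_, hz⟩

/-- the set has `n` elements -/
def s_sa_HasN (n : ℕ) (T : Set ℂ) : Prop :=
  ∃ x : Fin n → ℂ, (∀ i j, x i = x j → i = j) ∧ ∀ z, z ∈ T ↔ ∃ i, z = x i

lemma s_sa_HasN_iff (n : ℕ) (T : Set ℂ) : s_sa_HasN n T ↔ T.Finite ∧ T.ncard = n := by
  constructor
  · rintro ⟨x, hx, hT⟩
    have h1 : T = range x := by
      ext z
      rw [hT, mem_range]
      exact ⟨fun ⟨i, h⟩ => ⟨i, h.symm⟩, fun ⟨i, h⟩ => ⟨i, h.symm⟩⟩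
    have h2 : Function.Injective x := fun i j h => hx i j h
    rw [h1]
    refine ⟨finite_range x, ?_⟩
    rw [← image_univ, ncard_image_of_injective _ h2, ncard_univ, Nat.card_fin]
  · rintro ⟨hf, hn⟩
    have hc : Nat.card T = n := hn
    have _ : Finite T := hf
    let e : T ≃ Fin n := Finite.equivFinOfCardEq hc
    refine ⟨fun i => (e.symm i : ℂ), fun i j h => e.symm.injective (Subtype.ext h), fun z => ?_⟩
    constructor
    · intro hz
      refine ⟨e ⟨z, hz⟩, ?_⟩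
      show z = (e.symm (e ⟨z, hz⟩) : ℂ)
      rw [e.symm_apply_apply]
    · rintro ⟨i, rfl⟩
      exact (e.symm i).2

lemma s_sa_ncard (d : ℕ) (hd : 1 ≤ d) (S : Set Sph) : S.ncard = d ↔
    ((∞ ∉ S ∧ s_sa_HasN d {z : ℂ | (z : Sph) ∈ S}) ∨
      (∞ ∈ S ∧ s_sa_HasN (d - 1) {z : ℂ | (z : Sph) ∈ S})) := by
  rw [s_sa_HasN_iff, s_sa_HasN_iff]
  set T : Set ℂ := {z : ℂ | (z : Sph) ∈ S} with hT
  have hinj : Function.Injective (fun z : ℂ => (z : Sph)) := OnePoint.coe_injective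
  have himg : ((fun z : ℂ => (z : Sph)) '' T).ncard = T.ncard := ncard_image_of_injective _ hinj
  by_cases hS : ∞ ∈ S
  · have h1 : S = insert ∞ ((fun z : ℂ => (z : Sph)) '' T) := by
      ext x
      induction x using OnePoint.rec with
      | infty => exact ⟨fun _ => mem_insert _ _, fun _ => hS⟩
      | coe z =>
        constructor
        · intro hz
          exact Or.inr ⟨z, hz, rfl⟩
        · rintro (h | ⟨w, hw, h⟩)
          · exact absurd h (OnePoint.coe_ne_infty z)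
          · rw [← hinj h]
            exact hw
    have h2 : (∞ : Sph) ∉ (fun z : ℂ => (z : Sph)) '' T := by
      rintro ⟨w, _, h⟩
      exact OnePoint.coe_ne_infty w h
    constructor
    · intro h
      right
      have hfin : S.Finite := finite_of_ncard_pos (by omega)
      have hTf : ((fun z : ℂ => (z : Sph)) '' T).Finite := by
        rw [h1] at hfin
        exact hfin.subset (subset_insert _ _)
      rw [h1, ncard_insert_of_notMem h2 hTf, himg] at h
      refine ⟨hS, ?_, by omega⟩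
      exact Set.Finite.of_finite_image hTf hinj.injOn
    · rintro (h | ⟨_, h3, h4⟩)
      · exact absurd hS h.1
      · rw [h1, ncard_insert_of_notMem h2 (h3.image _), himg, h4]
        omega
  · have h1 : S = (fun z : ℂ => (z : Sph)) '' T := by
      ext x
      induction x using OnePoint.rec with
      | infty =>
        constructor
        · intro h
          exact absurd h hS
        · rintro ⟨w, _, h⟩
          exact absurd h (OnePoint.coe_ne_infty w)
      | coe z =>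
        constructor
        · intro hz
          exact ⟨z, hz, rfl⟩
        · rintro ⟨w, hw, h⟩
          rw [← hinj h]
          exact hw
    constructor
    · intro h
      left
      have hfin : S.Finite := finite_of_ncard_pos (by omega)
      refine ⟨hS, ?_, ?_⟩
      · rw [h1] at hfin
        exact Set.Finite.of_finite_image hfin hinj.injOn
      · rw [← himg, ← h1]
        exact h
    · rintro (⟨_, h3, h4⟩ | h)
      · rw [h1, himg, h4]
      · exact absurd h.1 hS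

section maps

variable {d m : ℕ} {κ : Type} {y : (κ → ℝ) → Ix d m → ℝ}

lemma s_sa_cc (hy : ∀ i, PF (fun v => y v i)) (i : Fin d ⊕ (Fin d ⊕ Fin m)) :
    s_sa_CF (fun v => cc (y v) i) := ⟨hy _, hy _⟩

lemma s_sa_mk (hy : ∀ i, PF (fun v => y v i)) (j : Fin m) : s_sa_CF (fun v => mk (y v) j) :=
  s_sa_cc hy _

lemma s_sa_nu (hy : ∀ i, PF (fun v => y v i)) {z : (κ → ℝ) → ℂ} (hz : s_sa_CF z) :
    s_sa_CF (fun v => nu (y v) (z v)) :=
  s_sa_CF.sum Finset.univ fun i _ => (s_sa_cc hy _).mul (hz.pow _)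

lemma s_sa_de (hy : ∀ i, PF (fun v => y v i)) {z : (κ → ℝ) → ℂ} (hz : s_sa_CF z) :
    s_sa_CF (fun v => de (y v) (z v)) :=
  (hz.pow d).add (s_sa_CF.sum Finset.univ fun i _ => (s_sa_cc hy _).mul (hz.pow _))

lemma s_sa_rm_fin (y : Ix d m → ℝ) (z w : ℂ) :
    rm y (z : Sph) = (w : Sph) ↔ de y z ≠ 0 ∧ nu y z = w * de y z := by
  show quo (nu y z) (de y z) = (w : Sph) ↔ _
  unfold quo
  split_ifs with h
  · constructor
    · intro h1
      exact absurd h1 (OnePoint.infty_ne_coe w)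
    · intro h1
      exact absurd h h1.1
  · rw [OnePoint.coe_eq_coe, div_eq_iff h]
    exact ⟨fun h1 => ⟨h, h1⟩, fun h1 => h1.2⟩

lemma s_sa_rm_inf (y : Ix d m → ℝ) (z : ℂ) : rm y (z : Sph) = ∞ ↔ de y z = 0 := by
  show quo (nu y z) (de y z) = ∞ ↔ _
  unfold quo
  split_ifs with h
  · exact ⟨fun _ => h, fun _ => rfl⟩
  · exact ⟨fun h1 => absurd h1 (OnePoint.coe_ne_infty _), fun h1 => absurd h1 h⟩

lemma s_sa_inf_fin (y : Ix d m → ℝ) (w : ℂ) : rm y ∞ = (w : Sph) ↔ w = 0 := by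
  show ((0 : ℂ) : Sph) = (w : Sph) ↔ _
  rw [OnePoint.coe_eq_coe]
  exact eq_comm

lemma s_sa_inf_inf (y : Ix d m → ℝ) : ¬ rm y ∞ = ∞ := OnePoint.coe_ne_infty (0 : ℂ)

lemma s_sa_rm (hy : ∀ i, PF (fun v => y v i)) {z w : (κ → ℝ) → ℂ} (hz : s_sa_CF z)
    (hw : s_sa_CF w) : SAP (fun v => rm (y v) (z v : Sph) = (w v : Sph)) :=
  ((s_sa_eq (s_sa_de hy hz) s_sa_CF.zero).not.and
    (s_sa_eq (s_sa_nu hy hz) (hw.mul (s_sa_de hy hz)))).congr fun v => s_sa_rm_fin _ _ _

lemma s_sa_rm' (hy : ∀ i, PF (fun v => y v i)) {z : (κ → ℝ) → ℂ} (hz : s_sa_CF z) :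
    SAP (fun v => rm (y v) (z v : Sph) = ∞) :=
  (s_sa_eq (s_sa_de hy hz) s_sa_CF.zero).congr fun v => s_sa_rm_inf _ _

lemma s_sa_hasN (hy : ∀ i, PF (fun v => y v i)) {w : (κ → ℝ) → ℂ} (hw : s_sa_CF w) (n : ℕ) :
    SAP (fun v => s_sa_HasN n {z : ℂ | (z : Sph) ∈ rm (y v) ⁻¹' {(w v : Sph)}}) := by
  refine s_sa_exV n fun κ' φ x hφ hx => ?_
  refine SAP.and ?_ ?_
  · refine s_sa_forall fun i => s_sa_forall fun j => ?_
    exact (s_sa_eq (hx i) (hx j)).imp (SAP.const _)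
  · refine s_sa_faC fun κ'' φ' z hφ' hz => ?_
    refine SAP.iff ?_ ?_
    · exact s_sa_rm (fun i => PF.comp (PF.comp (hy i) hφ) hφ') hz ((hw.comp hφ).comp hφ')
    · exact SAP.exists_fin fun i => s_sa_eq hz ((hx i).comp hφ')

lemma s_sa_hasN' (hy : ∀ i, PF (fun v => y v i)) (n : ℕ) :
    SAP (fun v => s_sa_HasN n {z : ℂ | (z : Sph) ∈ rm (y v) ⁻¹' {∞}}) := by
  refine s_sa_exV n fun κ' φ x hφ hx => ?_
  refine SAP.and ?_ ?_
  · refine s_sa_forall fun i => s_sa_forall fun j => ?_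
    exact (s_sa_eq (hx i) (hx j)).imp (SAP.const _)
  · refine s_sa_faC fun κ'' φ' z hφ' hz => ?_
    refine SAP.iff ?_ ?_
    · exact s_sa_rm' (fun i => PF.comp (PF.comp (hy i) hφ) hφ') hz
    · exact SAP.exists_fin fun i => s_sa_eq hz ((hx i).comp hφ')

end maps

theorem s_sa : S_sa := by
  intro d m hd J τ
  have h0 : ∀ i : Ix d m, PF (fun v : Ix d m → ℝ => v i) := fun i => PF.coord i
  have hcop : SAP (fun y : Ix d m → ℝ => ∀ z, ¬ (nu y z = 0 ∧ de y z = 0)) := by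
    refine s_sa_faC fun κ φ z hφ hz => ?_
    exact ((s_sa_eq (s_sa_nu hφ hz) s_sa_CF.zero).and (s_sa_eq (s_sa_de hφ hz) s_sa_CF.zero)).not
  have hinj : SAP (fun y : Ix d m → ℝ => ∀ i j, mk y i = mk y j → i = j) := by
    refine s_sa_forall fun i => s_sa_forall fun j => ?_
    exact (s_sa_eq (s_sa_mk h0 i) (s_sa_mk h0 j)).imp (SAP.const _)
  have hmap : SAP (fun y : Ix d m → ℝ => ∀ j, rm y (mk y j : Sph) = (mk y (τ j) : Sph)) := by
    refine s_sa_forall fun j => ?_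
    exact s_sa_rm h0 (s_sa_mk h0 j) (s_sa_mk h0 (τ j))
  have hmem : SAP (fun y : Ix d m → ℝ => ∀ j, j ∈ J → (¬ mk y j = 0 ∧
      ∀ z : ℂ, rm y (z : Sph) = (mk y j : Sph) → ∃ i, z = mk y i)) := by
    refine s_sa_forall fun j => ?_
    refine (SAP.const _).imp (SAP.and (s_sa_eq (s_sa_mk h0 j) s_sa_CF.zero).not ?_)
    refine s_sa_faC fun κ φ z hφ hz => ?_
    exact (s_sa_rm hφ hz (s_sa_mk hφ j)).imp (SAP.exists_fin fun i => s_sa_eq hz (s_sa_mk hφ i))
  have hfib : SAP (fun y : Ix d m → ℝ => s_sa_HasN d {z : ℂ | (z : Sph) ∈ rm y ⁻¹' {∞}} ∧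
      ∀ w : ℂ, (∀ j, j ∈ J → ¬ w = mk y j) →
        ((¬ w = 0 ∧ s_sa_HasN d {z : ℂ | (z : Sph) ∈ rm y ⁻¹' {(w : Sph)}}) ∨
          (w = 0 ∧ s_sa_HasN (d - 1) {z : ℂ | (z : Sph) ∈ rm y ⁻¹' {(w : Sph)}}))) := by
    refine SAP.and (s_sa_hasN' h0 d) ?_
    refine s_sa_faC fun κ φ w hφ hw => ?_
    refine SAP.imp ?_ (SAP.or (SAP.and ?_ ?_) (SAP.and ?_ ?_))
    · exact s_sa_forall fun j => (SAP.const _).imp (s_sa_eq hw (s_sa_mk hφ j)).not
    · exact (s_sa_eq hw s_sa_CF.zero).not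
    · exact s_sa_hasN hφ hw d
    · exact s_sa_eq hw s_sa_CF.zero
    · exact s_sa_hasN hφ hw (d - 1)
  refine SAP.congr (hcop.and (hinj.and (hmap.and (hmem.and hfib)))) fun y => ?_
  constructor
  · intro hG
    refine ⟨hG.cop, fun i j h => hG.inj h, hG.map, fun j hj => ⟨?_, ?_⟩, ?_, ?_⟩
    · intro hz
      obtain ⟨i, hi⟩ := hG.mem j hj ∞ ((s_sa_inf_fin y _).2 hz)
      exact OnePoint.infty_ne_coe _ hi
    · intro z hz
      obtain ⟨i, hi⟩ := hG.mem j hj z hz
      exact ⟨i, OnePoint.coe_injective hi⟩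
    · have h := hG.fib ∞ fun j _ => OnePoint.infty_ne_coe _
      rw [s_sa_ncard d hd] at h
      rcases h with h | h
      · exact h.2
      · exact absurd h.1 (s_sa_inf_inf y)
    · intro w hw
      have h := hG.fib w fun j hj h => hw j hj (OnePoint.coe_injective h)
      rw [s_sa_ncard d hd] at h
      rcases h with h | h
      · exact Or.inl ⟨fun h0 => h.1 ((s_sa_inf_fin y w).2 h0), h.2⟩
      · exact Or.inr ⟨(s_sa_inf_fin y w).1 h.1, h.2⟩
  · rintro ⟨h1, h2, h3, h4, h5, h6⟩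
    refine ⟨h1, fun i j h => h2 i j h, h3, fun j hj x hx => ?_, fun w hw => ?_⟩
    · induction x using OnePoint.rec with
      | infty => exact absurd ((s_sa_inf_fin y _).1 hx) (h4 j hj).1
      | coe z =>
        obtain ⟨i, hi⟩ := (h4 j hj).2 z hx
        exact ⟨i, by rw [hi]⟩
    · rw [s_sa_ncard d hd]
      induction w using OnePoint.rec with
      | infty => exact Or.inl ⟨s_sa_inf_inf y, h5⟩
      | coe w =>
        rcases h6 w fun j hj h => hw j hj (by rw [h]) with ⟨h7, h8⟩ | ⟨h7, h8⟩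
        · exact Or.inl ⟨fun h => h7 ((s_sa_inf_fin y w).1 h), h8⟩
        · exact Or.inr ⟨(s_sa_inf_fin y w).2 h7, h8⟩

end Pool.Agent.H208.Cur
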