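import Pool.Agent.H208.Cur.Stm

set_option autoImplicit false

/-!
# Functions constant along paths of a semialgebraic set have finite image (problem MP_5e4b6b_an)
-/

noncomputable section

namespace Pool.Agent.H208.Cur

open OnePoint Set Filter Topology unitInterval Polynomial
open Pool.Agent.H581R2 Pool.Agent.TH729.SQ

/-- The property of `V` to be proved. -/
def s_saf_P {ι : Type} (V : Set (ι → ℝ)) : Prop := ∀ (T : Type) (F : (ι → ℝ) → T),
    (∀ γ : I → ι → ℝ, Continuous γ → (∀ s, γ s ∈ V) → F (γ 0) = F (γ 1)) → (F '' V).Finite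

theorem s_saf_cell {α : Type} (IH : ∀ V : Set (α → ℝ), SA V → s_saf_P V)
    {V : Set (Option α → ℝ)} (hV : SA V) (c : CellData V) (T : Type) (F : (Option α → ℝ) → T)
    (hF : ∀ γ : I → Option α → ℝ, Continuous γ → (∀ s, γ s ∈ V) → F (γ 0) = F (γ 1)) :
    (F '' (V ∩ c.R)).Finite := by
  classical
  obtain ⟨D, s, J, hs, hg, hI1, hI2, hI3⟩ := c
  set D₁ : Set (α → ℝ) := {v | v ∈ D ∧ ext (s v) v ∈ V} with hD₁
  have hD₁s : SA D₁ := by
    refine SAP.congr (SAP.exists' (p := fun v t => (v ∈ D ∧ t = s v) ∧ ext t v ∈ V) ?_) ?_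
    · refine hg.and ?_
      exact SAP.congr (p := fun w => w ∈ V) hV fun w => by rw [ext_self]
    · intro v
      constructor
      · rintro ⟨h1, h2⟩
        exact ⟨s v, ⟨h1, rfl⟩, h2⟩
      · rintro ⟨t, ⟨h1, rfl⟩, h2⟩
        exact ⟨h1, h2⟩
  obtain ⟨T', hT', A, hA1, hA2, hA3⟩ := hs
  have hfin : ∀ τ : T', ((fun v => F (ext (s v) v)) '' (A τ ∩ D₁)).Finite := by
    intro τ
    refine IH (A τ ∩ D₁) ((hA1 τ).inter hD₁s) T (fun v => F (ext (s v) v)) ?_
    intro γ hγ hγV
    refine hF (fun t => ext (s (γ t)) (γ t)) ?_ fun t => (hγV t).2.2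
    have h1 : ContinuousOn s (A τ ∩ D₁) := (hA3 τ).mono fun v hv => ⟨hv.1, hv.2.1⟩
    have h2 : Continuous fun t => s (γ t) := h1.comp_continuous hγ hγV
    exact continuous_ext.comp (h2.prodMk hγ)
  refine (Set.finite_iUnion hfin).subset ?_
  rintro _ ⟨w, ⟨hwV, hwR⟩, rfl⟩
  obtain ⟨h1, h2⟩ := hwR
  set v : α → ℝ := fun i => w (Option.some i) with hv
  set t := w none with ht
  have hw : w = ext t v := (ext_self w).symm
  have h3 : ext t v ∈ V := by rw [← hw]; exact hwV
  have h4 : ext (s v) v ∈ V := hI3 v h1 t h2 (s v) (hI1 v h1) h3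
  obtain ⟨τ, hτ⟩ := mem_iUnion.1 (hA2 h1)
  rw [mem_iUnion]
  refine ⟨τ, v, ⟨hτ, h1, h4⟩, ?_⟩
  -- the vertical segment
  have h5 := hF (fun r : I => ext ((1 - (r : ℝ)) * s v + (r : ℝ) * t) v) ?_ ?_
  · change F (ext (s v) v) = F w
    rw [hw]
    simpa using h5
  · exact continuous_ext.comp (Continuous.prodMk (by fun_prop) continuous_const)
  · intro r
    refine hI3 v h1 t h2 _ ?_ h3
    have hconv : Convex ℝ (J v) := (hI2 v h1).convex
    have := hconv (hI1 v h1) h2 (sub_nonneg.2 r.2.2) r.2.1 (by ring)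
    simpa using this

theorem s_saf : S_saf := by
  intro ι _
  change ∀ V : Set (ι → ℝ), SA V → s_saf_P V
  induction ι using Finite.induction_empty_option with
  | of_equiv e h =>
    intro V hV T F hF
    have h1 := h ((fun v b => v (e.symm b)) ⁻¹' V)
      (SA.preimage hV fun b => PF.coord (e.symm b)) T (fun v => F fun b => v (e.symm b)) (by
        intro γ hγ hγV
        refine hF (fun s b => γ s (e.symm b)) ?_ hγV
        exact continuous_pi fun b => (continuous_apply (e.symm b)).comp hγ)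
    refine h1.subset ?_
    rintro _ ⟨w, hw, rfl⟩
    have hw' : (fun b => (fun a => w (e a)) (e.symm b)) = w := by
      funext b
      simp
    refine ⟨fun a => w (e a), ?_, ?_⟩
    · change (fun b => (fun a => w (e a)) (e.symm b)) ∈ V
      rw [hw']
      exact hw
    · change F (fun b => (fun a => w (e a)) (e.symm b)) = F w
      rw [hw']
  | h_empty =>
    intro V _ T F _
    exact (Set.toFinite V).image F
  | h_option h =>
    intro V hV T F hF
    obtain ⟨N, C, hC⟩ := exists_cells hV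
    refine (Set.finite_iUnion fun ik : Fin 5 × Fin N =>
      s_saf_cell h hV (C ik.1 ik.2) T F hF).subset ?_
    rintro _ ⟨w, hw, rfl⟩
    obtain ⟨i, k, hk, hR⟩ := hC w
    rw [mem_iUnion]
    exact ⟨(i, ⟨k, hk⟩), w, ⟨hw, hR⟩, rfl⟩

end Pool.Agent.H208.Cur
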