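import Pool.Agent.H208.Cur.Stm

set_option autoImplicit false

/-!
# The inverse of an isotopy is an isotopy
-/

noncomputable section

namespace Pool.Agent.H208.Cur

open OnePoint Set Filter Topology unitInterval Polynomial

/-- The total map of a path of homeomorphisms, as an equivalence. -/
def s_symm_equiv (h : I → Sph ≃ₜ Sph) : I × Sph ≃ I × Sph where
  toFun p := (p.1, h p.1 p.2)
  invFun p := (p.1, (h p.1).symm p.2)
  left_inv p := by
    ext
    · rfl
    · simp
  right_inv p := by
    ext
    · rfl
    · simp

theorem s_symm : S_symm := by
  intro h hh
  have hc : Continuous (s_symm_equiv h) := continuous_fst.prodMk hh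
  have h2 : Continuous (s_symm_equiv h).symm :=
    (Continuous.homeoOfEquivCompactToT2 hc).symm.continuous
  exact continuous_snd.comp h2

end Pool.Agent.H208.Cur
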