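import Pool.Agent.H208.Cur.Fin
import Pool.Agent.H208.Cur.Saf
import Pool.Agent.H208.Cur.Sa
import Pool.Agent.H208.Cur.Root
import Pool.Agent.H208.Cur.Cont
import Pool.Agent.H208.Cur.Open
import Pool.Agent.H208.Cur.Crit
import Pool.Agent.H208.Cur.Mob
import Pool.Agent.H208.Cur.Rat
import Pool.Agent.H208.Cur.Move
import Pool.Agent.H208.Cur.Symm
import Pool.Agent.H208.Cur.Lift
import Pool.Agent.H208.Cur.Loc
import Pool.Agent.H208.Cur.Equiv
import Pool.Agent.H208.Cur.Least
import Pool.Agent.H208.Cur.Fib

set_option autoImplicit false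

/-!
# All the steps
-/

namespace Pool.Agent.H208.Cur

theorem steps : Steps where
  saf := s_saf
  sa := s_sa
  root := s_root
  cont := s_cont
  opn := s_open
  crt := s_crit
  mob := s_mob
  rat := s_rat
  mov := s_move
  symm := s_symm
  lift := s_lift
  loc := s_loc
  equiv := s_equiv
  least := s_least
  fib := s_fib

end Pool.Agent.H208.Cur
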