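import Mathlib

set_option autoImplicit false

/-!
# Pullback of curves under rational Thurston maps: definitions
-/

noncomputable section

namespace Pool.Agent.H208.Cur

open OnePoint Set Filter Topology unitInterval Polynomial

/-- The Riemann sphere `ℂ ∪ {∞}`. -/
abbrev Sph : Type := OnePoint ℂ

/-- The critical points of `F`: the points near which `F` is not injective. -/
def crit (F : Sph → Sph) : Set Sph := {x | ∀ U ∈ 𝓝 x, ¬ InjOn F U}

/-- The postcritical points `P_F = ⋃_{n ≥ 1} F^n(crit F)`. -/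
def post (F : Sph → Sph) : Set Sph := {y | ∃ n, 1 ≤ n ∧ ∃ c ∈ crit F, F^[n] c = y}

/-- The point `A / B` of the sphere, for `(A, B) ≠ (0, 0)`. -/
def quo (A B : ℂ) : Sph := if B = 0 then ∞ else ((A / B : ℂ) : Sph)

/-- The map `z ↦ a(z) / b(z)` of the sphere, for coprime polynomials of degree at most `d`, one of
them of degree `d`. -/
def ratMap (d : ℕ) (a b : ℂ[X]) (x : Sph) : Sph :=
  x.elim (quo (a.coeff d) (b.coeff d)) fun z => quo (a.eval z) (b.eval z)

/-- `R` is a rational map of degree `d`. -/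
def IsRational (d : ℕ) (R : Sph → Sph) : Prop :=
  ∃ a b : ℂ[X], IsCoprime a b ∧ max a.natDegree b.natDegree = d ∧ R = ratMap d a b

/-- `h` is an isotopy: a continuous path of homeomorphisms of the sphere. -/
def IsIsotopy (h : I → Sph ≃ₜ Sph) : Prop := Continuous fun p : I × Sph => h p.1 p.2

/-- Thurston equivalence: `h₀ ∘ F = G ∘ h₁` for two homeomorphisms `h₀`, `h₁` which are isotopic
relative to the postcritical points of `F`. -/
def ThurstonEquiv (F G : Sph → Sph) : Prop :=
  ∃ h : I → Sph ≃ₜ Sph, IsIsotopy h ∧ (∀ s, ∀ x ∈ post F, h s x = h 0 x) ∧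
    ∀ x, h 0 (F x) = G (h 1 x)

/-- `F` is a rational Thurston map of degree `d`: it has finitely many postcritical points and is
Thurston equivalent to a rational map of degree `d ≥ 2`. -/
def IsRationalThurston (d : ℕ) (F : Sph → Sph) : Prop :=
  2 ≤ d ∧ (post F).Finite ∧ ∃ R, IsRational d R ∧ ThurstonEquiv F R

/-- `γ` is a simple closed curve in the sphere which avoids `P`. -/
def IsCurve (P γ : Set Sph) : Prop :=
  (∃ c : Circle → Sph, Continuous c ∧ Function.Injective c ∧ range c = γ) ∧ Disjoint γ P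

/-- The simple closed curve `γ` in the complement of `P` is essential: both components of its
complement contain at least two points of the finite set `P`. -/
def Essential (P γ : Set Sph) : Prop :=
  IsCurve P γ ∧ ∀ x ∉ γ, 2 ≤ (connectedComponentIn γᶜ x ∩ P).ncard

/-- `γ` and `δ` are isotopic relative to `P`. -/
def Isotopic (P γ δ : Set Sph) : Prop :=
  ∃ h : I → Sph ≃ₜ Sph, IsIsotopy h ∧ (∀ x, h 0 x = x) ∧ (∀ s, ∀ x ∈ P, h s x = x) ∧
    h 1 '' γ = δ

/-- The element `o`: the trivial curves. -/
def triv (P : Set Sph) : Set (Set Sph) := {δ | IsCurve P δ ∧ ¬ Essential P δ}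

open Classical in
/-- The class of the curve `γ`: its isotopy class if it is essential, and `o` otherwise. -/
def cls (P γ : Set Sph) : Set (Set Sph) := if Essential P γ then {δ | Isotopic P γ δ} else triv P

/-- The set of the isotopy classes of essential curves together with `o`. -/
def Classes (P : Set Sph) : Set (Set (Set Sph)) :=
  {x | x = triv P ∨ ∃ γ, Essential P γ ∧ x = cls P γ}

/-- The pullback relation `x → y`. -/
def Pull (F : Sph → Sph) (x y : Set (Set Sph)) : Prop :=
  (x = triv (post F) ∧ y = triv (post F)) ∨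
    ∃ γ, Essential (post F) γ ∧ x = cls (post F) γ ∧
      ∃ p ∈ F ⁻¹' γ, y = cls (post F) (connectedComponentIn (F ⁻¹' γ) p)

/-- The `n`-step pullback relation `x →ⁿ y`. -/
def PullN (F : Sph → Sph) : ℕ → Set (Set Sph) → Set (Set Sph) → Prop
  | 0, x, y => x = y
  | n + 1, x, y => ∃ z, PullN F n x z ∧ Pull F z y

/-- `A` is a finite global attractor of the pullback relation. -/
def IsGlobalAttractor (F : Sph → Sph) (A : Set (Set (Set Sph))) : Prop :=
  A ⊆ Classes (post F) ∧ A.Finite ∧
    ∀ x ∈ Classes (post F), ∃ N, ∀ n ≥ N, ∀ y, PullN F n x y → y ∈ A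

/-! ### Internal definitions -/

/-- the least finite global attractor exists and has `k` elements -/
def HasLeast (F : Sph → Sph) (k : ℕ) : Prop :=
  ∃ A, IsLeast {A | IsGlobalAttractor F A} A ∧ A.ncard = k

/-- index set of the real coordinates of a normalised rational map of degree `d` with `m` marked
points: real and imaginary parts of the coefficients and of the points -/
abbrev Ix (d m : ℕ) : Type := (Fin d ⊕ (Fin d ⊕ Fin m)) × Bool

/-- the complex coordinate -/
def cc {d m : ℕ} (y : Ix d m → ℝ) (i : Fin d ⊕ (Fin d ⊕ Fin m)) : ℂ := ⟨y (i, false), y (i, true)⟩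

/-- the numerator -/
def nu {d m : ℕ} (y : Ix d m → ℝ) (z : ℂ) : ℂ := ∑ i : Fin d, cc y (.inl i) * z ^ (i : ℕ)

/-- the denominator -/
def de {d m : ℕ} (y : Ix d m → ℝ) (z : ℂ) : ℂ :=
  z ^ d + ∑ i : Fin d, cc y (.inr (.inl i)) * z ^ (i : ℕ)

/-- the marked points -/
def mk {d m : ℕ} (y : Ix d m → ℝ) (j : Fin m) : ℂ := cc y (.inr (.inr j))

/-- the rational map -/
def rm {d m : ℕ} (y : Ix d m → ℝ) (x : Sph) : Sph :=
  x.elim ((0 : ℂ) : Sph) fun z => quo (nu y z) (de y z)

/-- the normalised marked rational maps of type `(J, τ)`: the marked points `q_j` are the preimages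
of the set `P` of the marked points with index in `J`, `q_j` is mapped to `q_{τ j}`, and all points
outside `P` have `d` preimages -/
structure Good {d m : ℕ} (J : Set (Fin m)) (τ : Fin m → Fin m) (y : Ix d m → ℝ) : Prop where
  cop : ∀ z, ¬ (nu y z = 0 ∧ de y z = 0)
  inj : Function.Injective (mk y)
  map : ∀ j, rm y (mk y j : Sph) = (mk y (τ j) : Sph)
  mem : ∀ j ∈ J, ∀ x : Sph, rm y x = (mk y j : Sph) → ∃ i, x = (mk y i : Sph)
  fib : ∀ w : Sph, (∀ j ∈ J, w ≠ (mk y j : Sph)) → (rm y ⁻¹' {w}).ncard = d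

end Pool.Agent.H208.Cur
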