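import Pool.Agent.H208.Cur.Main

set_option autoImplicit false

/-!
# Assembly of the proof, second part
-/

noncomputable section

namespace Pool.Agent.H208.Cur

open OnePoint Set Filter Topology unitInterval Polynomial
open Pool.Agent.H581R2 Pool.Agent.TH729.SQ

/-- the steps -/
structure Steps : Prop where
  saf : S_saf
  sa : S_sa
  root : S_root
  cont : S_cont
  opn : S_open
  crt : S_crit
  mob : S_mob
  rat : S_rat
  mov : S_move
  symm : S_symm
  lift : S_lift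
  loc : S_loc
  equiv : S_equiv
  least : S_least
  fib : S_fib

theorem path_const (H : Steps) {d m : ℕ} (hd : 1 ≤ d) {J : Set (Fin m)} {τ : Fin m → Fin m}
    (hτ : ∀ j, τ j ∈ J) {y : I → Ix d m → ℝ} (hy : Continuous y) (hg : ∀ s, Good J τ (y s)) :
    {k | HasLeast (rm (y 0)) k} = {k | HasLeast (rm (y 1)) k} := by
  have h1 : IsLocallyConstant fun s => {k | HasLeast (rm (y s)) k} := by
    rw [IsLocallyConstant.iff_eventually_eq]
    intro s₀
    filter_upwards [local_step hd H.root H.cont H.opn H.crt H.rat H.mov H.symm H.lift H.loc hτ hy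
      hg s₀] with s hs
    ext k
    exact (hasLeast_iff H.symm H.equiv hs k).symm
  exact h1.apply_eq_of_isPreconnected isPreconnected_univ (mem_univ _) (mem_univ _)

theorem finite_values (H : Steps) {d m : ℕ} (hd : 1 ≤ d) (J : Set (Fin m)) (τ : Fin m → Fin m)
    (hτ : ∀ j, τ j ∈ J) : {k | ∃ y : Ix d m → ℝ, Good J τ y ∧ HasLeast (rm y) k}.Finite := by
  have h1 := H.saf (Ix d m) {y | Good J τ y} (H.sa d m hd J τ) (Set ℕ)
    (fun y => {k | HasLeast (rm y) k}) (fun γ hγ hγ2 => path_const H hd hτ hγ hγ2)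
  have h2 : {k | ∃ y : Ix d m → ℝ, Good J τ y ∧ HasLeast (rm y) k} =
      ⋃₀ ((fun y : Ix d m → ℝ => {k | HasLeast (rm y) k}) '' {y | Good J τ y}) := by
    ext k
    constructor
    · rintro ⟨y, hy, hk⟩
      exact ⟨_, ⟨y, hy, rfl⟩, hk⟩
    · rintro ⟨_, ⟨y, hy, rfl⟩, hk⟩
      exact ⟨y, hy, hk⟩
  rw [h2]
  refine h1.sUnion ?_
  rintro _ ⟨y, hy, rfl⟩
  exact Set.Subsingleton.finite fun k hk l hl => hk.unique hl

theorem exists_bound (H : Steps) {d : ℕ} (hd : 1 ≤ d) (N : ℕ) : ∃ b : ℕ, ∀ m ≤ N,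
    ∀ (J : Set (Fin m)) (τ : Fin m → Fin m), (∀ j, τ j ∈ J) → ∀ y : Ix d m → ℝ, Good J τ y →
      ∀ k, HasLeast (rm y) k → k ≤ b := by
  have h1 : (⋃ m ∈ Iic N, ⋃ J : Set (Fin m), ⋃ τ : {τ : Fin m → Fin m // ∀ j, τ j ∈ J},
      {k | ∃ y : Ix d m → ℝ, Good J τ.1 y ∧ HasLeast (rm y) k}).Finite := by
    refine (finite_Iic N).biUnion fun m _ => ?_
    refine finite_iUnion fun J => ?_
    exact finite_iUnion fun τ => finite_values H hd J τ.1 τ.2
  obtain ⟨b, hb⟩ := h1.bddAbove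
  refine ⟨b, fun m hm J τ hτ y hy k hk => hb ?_⟩
  simp only [mem_iUnion]
  exact ⟨m, hm, J, ⟨τ, hτ⟩, y, hy, hk⟩

/-! ### Normal form -/

/-- the same coefficients, other marked points -/
def remark {d m : ℕ} (y : Ix d 0 → ℝ) (q : Fin m → ℂ) : Ix d m → ℝ
  | (.inl i, b) => y (.inl i, b)
  | (.inr (.inl i), b) => y (.inr (.inl i), b)
  | (.inr (.inr j), false) => (q j).re
  | (.inr (.inr j), true) => (q j).im

theorem mk_remark {d m : ℕ} (y : Ix d 0 → ℝ) (q : Fin m → ℂ) (j : Fin m) :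
    mk (remark y q) j = q j := by
  apply Complex.ext <;> rfl

theorem nu_remark {d m : ℕ} (y : Ix d 0 → ℝ) (q : Fin m → ℂ) (z : ℂ) :
    nu (remark y q) z = nu y z := rfl

theorem de_remark {d m : ℕ} (y : Ix d 0 → ℝ) (q : Fin m → ℂ) (z : ℂ) :
    de (remark y q) z = de y z := rfl

theorem rm_remark {d m : ℕ} (y : Ix d 0 → ℝ) (q : Fin m → ℂ) : rm (remark y q) = rm y := by
  funext x
  rfl

theorem finite_preimage (H : Steps) {d : ℕ} (hd : 2 ≤ d) {R : Sph → Sph} (hR : IsRational d R)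
    (w : Sph) : (R ⁻¹' {w}).Finite := by
  obtain ⟨y, hy, M, hM, -⟩ := H.mob d hd R hR ∅ finite_empty
  have h1 := (H.fib d 0 (by omega) y hy (M w)).1
  have h2 : R ⁻¹' {w} = M ⁻¹' (rm y ⁻¹' {M w}) := by
    ext x
    simp only [mem_preimage, mem_singleton_iff]
    rw [← hM]
    exact M.injective.eq_iff.symm
  rw [h2]
  exact h1.preimage M.injective.injOn

theorem normal_form (H : Steps) {d : ℕ} (hd : 2 ≤ d) {R : Sph → Sph} (hR : IsRational d R)
    (hP : (post R).Finite) : ∃ m ≤ (post R).ncard * d, ∃ (J : Set (Fin m)) (τ : Fin m → Fin m)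
      (y : Ix d m → ℝ), (∀ j, τ j ∈ J) ∧ Good J τ y ∧ ThurstonEquiv R (rm y) := by
  classical
  have hE : (R ⁻¹' (post R)).Finite := hP.preimage' fun w _ => finite_preimage H hd hR w
  obtain ⟨y, hy, M, hM, hinf⟩ := H.mob d hd R hR _ hE
  have hd1 : 1 ≤ d := by omega
  set P : Set Sph := post (rm y) with hPdef
  have hPM : P = M '' post R := post_eq hM fun _ _ => rfl
  have hPf : P.Finite := by rw [hPM]; exact hP.image _
  have hPc : P.ncard = (post R).ncard := by
    rw [hPM]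
    exact ncard_image_of_injective _ M.injective
  set Q : Set Sph := rm y ⁻¹' P with hQdef
  have hQM : Q = M '' (R ⁻¹' post R) := by
    ext x
    constructor
    · intro hx
      refine ⟨M.symm x, ?_, M.apply_symm_apply x⟩
      have h1 : rm y x ∈ P := hx
      rw [hPM] at h1
      obtain ⟨z, hz, hz2⟩ := h1
      have h2 := hM (M.symm x)
      rw [M.apply_symm_apply, ← hz2] at h2
      show R (M.symm x) ∈ post R
      rw [M.injective h2]
      exact hz
    · rintro ⟨z, hz, rfl⟩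
      show rm y (M z) ∈ P
      rw [← hM, hPM]
      exact ⟨_, hz, rfl⟩
  have hQf : Q.Finite := by rw [hQM]; exact hE.image _
  have hQinf : ∞ ∉ Q := by rw [hQM]; exact hinf
  have hPQ : P ⊆ Q := fun x hx => post_map hx
  have hQc : Q.ncard ≤ (post R).ncard * d := by
    have h1 : Q = ⋃ w ∈ hPf.toFinset, rm y ⁻¹' {w} := by
      ext x
      simp [hQdef]
    rw [h1, ← hPc]
    refine (Finset.set_ncard_biUnion_le _ _).trans ?_
    refine (Finset.sum_le_card_nsmul _ _ d fun w _ => (H.fib d 0 hd1 y hy w).2).trans ?_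
    rw [ncard_eq_toFinset_card P hPf, smul_eq_mul]
  set m := Q.ncard with hm
  have e : Q ≃ Fin m := by
    have : Finite Q := hQf
    exact (Finite.equivFin Q).trans (finCongr (Nat.card_coe_set_eq Q))
  have hlift : ∀ x : Q, ∃ z : ℂ, (z : Sph) = x := by
    rintro ⟨x, hx⟩
    have h1 : x ≠ ∞ := fun h => hQinf (h ▸ hx)
    obtain ⟨z, hz⟩ := ne_infty_iff_exists.1 h1
    exact ⟨z, hz⟩
  choose g hg using hlift
  set q : Fin m → ℂ := fun j => g (e.symm j) with hq
  have hqe : ∀ j, (q j : Sph) = e.symm j := fun j => hg _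
  have hqinj : Function.Injective q := by
    intro i j hij
    have h1 : ((e.symm i : Q) : Sph) = e.symm j := by rw [← hqe, ← hqe, hij]
    exact e.symm.injective (Subtype.ext h1)
  have hqs : ∀ x ∈ Q, ∃ i, x = (q i : Sph) := fun x hx => ⟨e ⟨x, hx⟩, by rw [hqe]; simp⟩
  have hqm : ∀ j, (q j : Sph) ∈ Q := fun j => by rw [hqe]; exact (e.symm j).2
  have hτ : ∀ j, ∃ i, rm y (q j : Sph) = (q i : Sph) := fun j => hqs _ (hPQ (hqm j))
  choose τ hτ using hτ
  set J : Set (Fin m) := {j | (q j : Sph) ∈ P} with hJ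
  have hτJ : ∀ j, τ j ∈ J := by
    intro j
    show (q (τ j) : Sph) ∈ P
    rw [← hτ]
    exact hqm j
  have hrat : IsRational d (rm y) := H.rat d 0 hd1 y hy
  refine ⟨m, hQc, J, τ, remark y q, hτJ, ⟨fun z => hy z, ?_, ?_, ?_, ?_⟩, ?_⟩
  · intro i j hij
    rw [mk_remark, mk_remark] at hij
    exact hqinj hij
  · intro j
    rw [rm_remark, mk_remark, mk_remark]
    exact hτ j
  · intro j hj x hx
    rw [rm_remark, mk_remark] at hx
    obtain ⟨i, hi⟩ := hqs x (show rm y x ∈ P by rw [hx]; exact hj)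
    exact ⟨i, by rw [mk_remark]; exact hi⟩
  · intro w hw
    rw [rm_remark]
    by_contra hne
    obtain ⟨c, hc, rfl⟩ := (H.crt d hd1 (rm y) hrat w).2 hne
    have h1 : rm y c ∈ P := ⟨1, le_rfl, c, hc, rfl⟩
    obtain ⟨i, hi⟩ := hqs _ (hPQ h1)
    refine hw i ?_ (by rw [mk_remark]; exact hi)
    show (q i : Sph) ∈ P
    rw [← hi]
    exact h1
  · rw [rm_remark]
    exact thurstonEquiv_of_conj hM

theorem main (H : Steps) : ∃ B : ℕ → ℕ → ℕ, ∀ (d : ℕ) (F : Sph → Sph), IsRationalThurston d F →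
    (∃ A, IsGlobalAttractor F A) →
    ∃ A, IsLeast {A | IsGlobalAttractor F A} A ∧ A.ncard ≤ B (post F).ncard d := by
  classical
  have hB : ∀ n d : ℕ, ∃ b : ℕ, 1 ≤ d → ∀ m ≤ n * d,
      ∀ (J : Set (Fin m)) (τ : Fin m → Fin m), (∀ j, τ j ∈ J) → ∀ y : Ix d m → ℝ, Good J τ y →
      ∀ k, HasLeast (rm y) k → k ≤ b := by
    intro n d
    by_cases hd : 1 ≤ d
    · obtain ⟨b, hb⟩ := exists_bound H hd (n * d)
      exact ⟨b, fun _ => hb⟩
    · exact ⟨0, fun h => absurd h hd⟩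
  choose B hB using hB
  refine ⟨B, ?_⟩
  rintro d F ⟨hd, hfin, R, hR, hFR⟩ hA
  obtain ⟨A, hA⟩ := H.least F hA
  refine ⟨A, hA, ?_⟩
  obtain ⟨⟨g, hg⟩, hk⟩ := H.equiv H.symm F R hFR
  have hRk : HasLeast R A.ncard := hk _ ⟨A, hA, rfl⟩
  have hRf : (post R).Finite := by rw [hg]; exact hfin.image _
  have hRc : (post R).ncard = (post F).ncard := by
    rw [hg]
    exact ncard_image_of_injective _ g.injective
  obtain ⟨m, hm, J, τ, y, hτ, hy, hRy⟩ := normal_form H hd hR hRf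
  have hyk : HasLeast (rm y) A.ncard := (H.equiv H.symm R (rm y) hRy).2 _ hRk
  rw [hRc] at hm
  exact hB _ d (by omega) m hm J τ hτ y hy _ hyk

end Pool.Agent.H208.Cur
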