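import Pool.Agent.H208.Cur.Stm2

set_option autoImplicit false

/-!
# Assembly of the proof
-/

noncomputable section

namespace Pool.Agent.H208.Cur

open OnePoint Set Filter Topology unitInterval Polynomial
open Pool.Agent.H581R2 Pool.Agent.TH729.SQ

/-! ### Thurston equivalence -/

theorem crit_of_conj {F G : Sph → Sph} {g₀ g₁ : Sph ≃ₜ Sph} (h : ∀ x, g₀ (F x) = G (g₁ x)) {x : Sph}
    (hx : x ∈ crit F) : g₁ x ∈ crit G := by
  intro U hU hinj
  refine hx (g₁ ⁻¹' U) (g₁.continuous.continuousAt hU) ?_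
  intro a ha b hb hab
  have h1 : G (g₁ a) = G (g₁ b) := by rw [← h, ← h, hab]
  exact g₁.injective (hinj ha hb h1)

theorem crit_of_conj' {F G : Sph → Sph} {g₀ g₁ : Sph ≃ₜ Sph} (h : ∀ x, g₀ (F x) = G (g₁ x)) :
    crit G = g₁ '' crit F := by
  ext x
  constructor
  · intro hx
    have h' : ∀ x, g₀.symm (G x) = F (g₁.symm x) := by
      intro x
      rw [Homeomorph.symm_apply_eq, h, g₁.apply_symm_apply]
    exact ⟨g₁.symm x, crit_of_conj h' hx, g₁.apply_symm_apply x⟩
  · rintro ⟨y, hy, rfl⟩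
    exact crit_of_conj h hy

theorem post_map {F : Sph → Sph} {x : Sph} (hx : x ∈ post F) : F x ∈ post F := by
  obtain ⟨n, hn, c, hc, rfl⟩ := hx
  exact ⟨n + 1, by omega, c, hc, Function.iterate_succ_apply' F n c⟩

theorem post_eq {F G : Sph → Sph} {g₀ g₁ : Sph ≃ₜ Sph} (h : ∀ x, g₀ (F x) = G (g₁ x))
    (h' : ∀ x ∈ post F, g₁ x = g₀ x) : post G = g₀ '' post F := by
  have key : ∀ n, ∀ c ∈ crit F, G^[n + 1] (g₁ c) = g₀ (F^[n + 1] c) := by
    intro n c hc
    induction n with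
    | zero => exact (h c).symm
    | succ n ih =>
      rw [Function.iterate_succ_apply' G (n + 1), ih, Function.iterate_succ_apply' F (n + 1), h,
        h' _ ⟨n + 1, by omega, c, hc, rfl⟩]
  ext x
  constructor
  · rintro ⟨n, hn, c, hc, rfl⟩
    rw [crit_of_conj' h] at hc
    obtain ⟨c, hc, rfl⟩ := hc
    obtain ⟨n, rfl⟩ : ∃ k, n = k + 1 := ⟨n - 1, by omega⟩
    exact ⟨_, ⟨n + 1, hn, c, hc, rfl⟩, (key n c hc).symm⟩
  · rintro ⟨_, ⟨n, hn, c, hc, rfl⟩, rfl⟩
    obtain ⟨n, rfl⟩ : ∃ k, n = k + 1 := ⟨n - 1, by omega⟩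
    exact ⟨n + 1, hn, g₁ c, by rw [crit_of_conj' h]; exact ⟨c, hc, rfl⟩, key n c hc⟩

theorem ThurstonEquiv.symm (h0 : S_symm) {F G : Sph → Sph} (h : ThurstonEquiv F G) :
    ThurstonEquiv G F := by
  obtain ⟨h, h1, h2, h3⟩ := h
  have hp : post G = h 0 '' post F := post_eq h3 (h2 1)
  refine ⟨fun s => (h s).symm, h0 h h1, ?_, ?_⟩
  · intro s x hx
    rw [hp] at hx
    obtain ⟨y, hy, rfl⟩ := hx
    show (h s).symm (h 0 y) = (h 0).symm (h 0 y)
    rw [← h2 s y hy, Homeomorph.symm_apply_apply, h2 s y hy, Homeomorph.symm_apply_apply]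
  · intro x
    show (h 0).symm (G x) = F ((h 1).symm x)
    rw [Homeomorph.symm_apply_eq, h3, Homeomorph.apply_symm_apply]

theorem thurstonEquiv_of_conj {F G : Sph → Sph} {g : Sph ≃ₜ Sph} (h : ∀ x, g (F x) = G (g x)) :
    ThurstonEquiv F G :=
  ⟨fun _ => g, by unfold IsIsotopy; exact g.continuous.comp continuous_snd, fun _ _ _ => rfl, h⟩

theorem hasLeast_iff (h0 : S_symm) (he : S_equiv) {F G : Sph → Sph} (h : ThurstonEquiv F G) (k : ℕ) :
    HasLeast F k ↔ HasLeast G k :=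
  ⟨(he h0 F G h).2 k, (he h0 G F (h.symm h0)).2 k⟩

theorem HasLeast.unique {F : Sph → Sph} {k l : ℕ} (hk : HasLeast F k) (hl : HasLeast F l) : k = l := by
  obtain ⟨A, hA, rfl⟩ := hk
  obtain ⟨B, hB, rfl⟩ := hl
  rw [hA.unique hB]

/-! ### Postcritical points of good maps -/

theorem Good.post_sub {d m : ℕ} (hd : 1 ≤ d) (hc : S_crit) (hr : S_rat) {J : Set (Fin m)}
    {τ : Fin m → Fin m} (hτ : ∀ j, τ j ∈ J) {y : Ix d m → ℝ} (h : Good J τ y) :
    post (rm y) ⊆ (fun j => (Cur.mk y j : Sph)) '' J := by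
  have key : ∀ n, ∀ c ∈ crit (rm y), (rm y)^[n + 1] c ∈ (fun j => (Cur.mk y j : Sph)) '' J := by
    intro n c hcc
    induction n with
    | zero =>
      show rm y c ∈ _
      by_contra hcon
      have h1 := h.fib (rm y c) (fun j hj heq => hcon ⟨j, hj, heq.symm⟩)
      exact ((hc d hd (rm y) (hr d m hd y h.cop) (rm y c)).1 ⟨c, hcc, rfl⟩) h1
    | succ n ih =>
      obtain ⟨j, hj, hj2⟩ := ih
      rw [Function.iterate_succ_apply', ← hj2]
      exact ⟨τ j, hτ j, (h.map j).symm⟩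
  rintro _ ⟨n, hn, c, hcc, rfl⟩
  obtain ⟨n, rfl⟩ : ∃ k, n = k + 1 := ⟨n - 1, by omega⟩
  exact key n c hcc

/-! ### The local step -/

theorem continuous_mk {d m : ℕ} {T : Type*} [TopologicalSpace T] {y : T → Ix d m → ℝ}
    (hy : Continuous y) : Continuous fun t => mk (y t) := by
  refine continuous_pi fun j => ?_
  have h1 : Continuous fun t => y t (.inr (.inr j), false) := (continuous_apply _).comp hy
  have h2 : Continuous fun t => y t (.inr (.inr j), true) := (continuous_apply _).comp hy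
  have h3 : (fun t => mk (y t) j) = fun t => ((y t (.inr (.inr j), false) : ℝ) : ℂ) +
      (y t (.inr (.inr j), true) : ℝ) * Complex.I := by
    funext t
    apply Complex.ext <;> simp [mk, cc]
  rw [h3]
  fun_prop

/-- the segment from `a` to `b` -/
def seg (a b t : I) : I := ⟨(1 - (t : ℝ)) * a + t * b, by
  have := t.2.1; have := t.2.2; have := a.2.1; have := a.2.2; have := b.2.1; have := b.2.2
  constructor
  · nlinarith
  · nlinarith⟩

theorem continuous_seg (a b : I) : Continuous (seg a b) := by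
  unfold seg
  fun_prop

theorem seg_zero (a b : I) : seg a b 0 = a := by
  apply Subtype.ext
  simp [seg]

theorem seg_one (a b : I) : seg a b 1 = b := by
  apply Subtype.ext
  simp [seg]

theorem dist_seg (a b t : I) : dist (seg a b t) a ≤ dist b a := by
  rw [Subtype.dist_eq, Subtype.dist_eq, Real.dist_eq, Real.dist_eq]
  have h1 : ((seg a b t : I) : ℝ) - a = t * ((b : ℝ) - a) := by
    simp only [seg]
    ring
  rw [h1, abs_mul, abs_of_nonneg t.2.1]
  exact mul_le_of_le_one_left (abs_nonneg _) t.2.2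

theorem local_step {d m : ℕ} (hd : 1 ≤ d) (hroot : S_root) (hcont : S_cont) (hopen : S_open)
    (hcrit : S_crit) (hrat : S_rat) (hmove : S_move) (hsymm : S_symm) (hlift : S_lift) (hloc : S_loc)
    {J : Set (Fin m)} {τ : Fin m → Fin m} (hτ : ∀ j, τ j ∈ J) {y : I → Ix d m → ℝ}
    (hy : Continuous y) (hg : ∀ s, Good J τ (y s)) (s₀ : I) :
    ∀ᶠ s in 𝓝 s₀, ThurstonEquiv (rm (y s₀)) (rm (y s)) := by
  obtain ⟨ε, hε, hm⟩ := hmove m (mk (y s₀)) (hg s₀).inj
  have hmk : Continuous fun t => mk (y t) := continuous_mk hy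
  obtain ⟨δ, hδ, hδ2⟩ := Metric.continuousAt_iff.1 (hmk.continuousAt (x := s₀)) ε hε
  filter_upwards [Metric.ball_mem_nhds s₀ hδ] with s hs
  set sg : I → I := seg s₀ s with hsg
  have hsgc : Continuous sg := continuous_seg _ _
  have hsg0 : sg 0 = s₀ := seg_zero _ _
  have hsg1 : sg 1 = s := seg_one _ _
  set Y : I → Ix d m → ℝ := fun t => y (sg t) with hY
  have hYc : Continuous Y := hy.comp hsgc
  have hYg : ∀ t, Good J τ (Y t) := fun t => hg _
  obtain ⟨h, hh1, hh2, hh3⟩ := hm (fun t => mk (Y t)) (hmk.comp hsgc) (by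
      show mk (y (sg 0)) = _
      rw [hsg0]) (by
      intro t j
      have h1 := hδ2 ((dist_seg s₀ s t).trans_lt hs)
      rw [dist_pi_lt_iff hε] at h1
      have h2 := h1 j
      rwa [dist_eq_norm] at h2)
  have hhs := hsymm h hh1
  have hR : Continuous fun p : I × Sph => rm (Y p.1) p.2 :=
    hcont d m hd I Y hYc fun t => (hYg t).cop
  have hRo := hopen hroot d m hd I Y hYc fun t => (hYg t).cop
  have hRl := hloc d m hd J τ Y hYc hYg hR hRo
  set G : I × Sph → Sph := fun p => (h p.1).symm (rm (Y p.1) (h p.1 p.2)) with hG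
  have hGc : Continuous G := by
    have h1 : Continuous fun p : I × Sph => ((p.1, h p.1 p.2) : I × Sph) :=
      continuous_fst.prodMk hh1
    have h2 : Continuous fun p : I × Sph => ((p.1, rm (Y p.1) (h p.1 p.2)) : I × Sph) :=
      continuous_fst.prodMk (hR.comp h1)
    exact hhs.comp h2
  set P : Set Sph := (fun j => (mk (y s₀) j : Sph)) '' J with hP
  set Q : Set Sph := range fun j => (mk (y s₀) j : Sph) with hQ
  have hGP : ∀ t x, G (t, x) ∈ P ↔ x ∈ Q := by
    intro t x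
    constructor
    · rintro ⟨j, hj, hj2⟩
      have h1 : rm (Y t) (h t x) = (mk (Y t) j : Sph) := by
        rw [← hh3 t j]
        have h4 : (mk (y s₀) j : Sph) = (h t).symm (rm (Y t) (h t x)) := hj2
        rw [h4, Homeomorph.apply_symm_apply]
      obtain ⟨i, hi⟩ := (hYg t).mem j hj _ h1
      rw [← hh3 t i] at hi
      exact ⟨i, ((h t).injective hi).symm⟩
    · rintro ⟨i, rfl⟩
      refine ⟨τ i, hτ i, ?_⟩
      show (mk (y s₀) (τ i) : Sph) = (h t).symm (rm (Y t) (h t (mk (y s₀) i : Sph)))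
      rw [hh3, (hYg t).map, ← hh3 t (τ i), Homeomorph.symm_apply_apply]
  have hGl : IsLocalHomeomorphOn (fun p : I × Sph => (p.1, G p)) {p | p.2 ∉ Q} := by
    let H : I × Sph ≃ₜ I × Sph :=
      { toFun := fun p => (p.1, h p.1 p.2)
        invFun := fun p => (p.1, (h p.1).symm p.2)
        left_inv := fun p => by simp
        right_inv := fun p => by simp
        continuous_toFun := continuous_fst.prodMk hh1
        continuous_invFun := continuous_fst.prodMk hhs }
    have e1 : (fun p : I × Sph => (p.1, G p)) =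
        H.symm ∘ (fun p : I × Sph => (p.1, rm (Y p.1) p.2)) ∘ H := by
      funext p
      rfl
    rw [e1]
    refine IsLocalHomeomorphOn.comp (t := univ)
      (H.symm.isLocalHomeomorph.isLocalHomeomorphOn (s := univ)) ?_ (fun _ _ => mem_univ _)
    refine IsLocalHomeomorphOn.comp (t := {p | ∀ j, p.2 ≠ (mk (Y p.1) j : Sph)}) hRl
      (H.isLocalHomeomorph.isLocalHomeomorphOn (s := {p | p.2 ∉ Q})) ?_
    intro p hp j hj
    apply hp
    have h1 : h p.1 p.2 = (mk (Y p.1) j : Sph) := hj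
    rw [← hh3 p.1 j] at h1
    exact ⟨j, ((h p.1).injective h1).symm⟩
  have hPf : P.Finite := Set.toFinite _
  have hQf : Q.Finite := Set.finite_range _
  obtain ⟨K, hK1, hK2, hK3, hK4⟩ := hlift G hGc P Q hPf hQf hGP hGl
  refine ⟨fun t => (K t).trans (h 1), ?_, ?_, ?_⟩
  · show Continuous fun p : I × Sph => h 1 (K p.1 p.2)
    exact (h 1).continuous.comp hK1
  · intro t x hx
    have hxQ : x ∈ Q := by
      obtain ⟨j, -, hj⟩ := (hg s₀).post_sub hd hcrit hrat hτ hx
      exact ⟨j, hj⟩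
    show h 1 (K t x) = h 1 (K 0 x)
    rw [hK3 t x hxQ, hK2]
  · intro x
    show h 1 (K 0 (rm (y s₀) x)) = rm (y s) (h 1 (K 1 x))
    rw [hK2]
    have h1 := hK4 1 x
    have h2 : (h 1).symm (rm (Y 1) (h 1 (K 1 x))) = (h 0).symm (rm (Y 0) (h 0 x)) := h1
    have h3 : (h 0).symm (rm (Y 0) (h 0 x)) = rm (y s₀) x := by
      rw [Homeomorph.symm_apply_eq, hh2, hh2]
      show rm (y (sg 0)) x = _
      rw [hsg0]
    rw [h3, Homeomorph.symm_apply_eq] at h2
    rw [← h2]
    show rm (y (sg 1)) _ = _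
    rw [hsg1]

end Pool.Agent.H208.Cur
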