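import Pool.Agent.H208.Cur.Defs
import Pool.Graph.R_seed8.TH729.SQ.Comp

set_option autoImplicit false

/-!
# Statements of the steps of the proof (problem MP_5e4b6b_an)

Every `S_x : Prop` is to be proved as a theorem `s_x : S_x` in its own file.
-/

noncomputable section

namespace Pool.Agent.H208.Cur

open OnePoint Set Filter Topology unitInterval Polynomial
open Pool.Agent.H581R2 Pool.Agent.TH729.SQ

/-- **S_saf.** A function which is constant along paths in a semialgebraic set has finitely many
values on it.

Proof: copy the proof of `fc_sa` in `Pool.Graph.R_seed8.TH729.SQ.Comp` (induction on `ι` with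
`Finite.induction_empty_option`; `exists_cells`, `CellData`, `PC`). In the step for `Option α`: for
a cell `c` and a piece `A τ` of `c.hs : PC c.D c.s` the set `A τ ∩ D₁`,
`D₁ = {v ∈ D | ext (s v) v ∈ V}`, is `SA` (see the proof of `CellData.fin`), and
`v ↦ F (ext (s v) v)` is constant along paths in it since `s` is continuous on it. A point `w` of
`V` in the cell is joined in `V` to `ext (s v) v`, `v = fun i => w (some i)`, by the vertical
segment. So `F '' V` is contained in a finite union of finite sets. -/
def S_saf : Prop := ∀ (ι : Type) [Finite ι] (V : Set (ι → ℝ)), SA V → ∀ (T : Type)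
    (F : (ι → ℝ) → T),
    (∀ γ : I → ι → ℝ, Continuous γ → (∀ s, γ s ∈ V) → F (γ 0) = F (γ 1)) → (F '' V).Finite

/-- **S_sa.** The set of the normalised marked rational maps of type `(J, τ)` is semialgebraic
over `ℚ` (`SA`, `SAP` in `Pool.Graph.R_seed8.H581R2.SA`; quantifiers over real variables:
`SAP.exists'`, `SAP.forall'` in `Pool.Graph.R_seed8.TH729.SQ.Cell`, iterate them for complex
variables and for finite families).

Proof: real and imaginary parts of `nu y z`, `de y z`, `mk y j` are `PF` in `(y, Re z, Im z)`.
`rm y z = w` for finite `z, w` iff `de y z ≠ 0 ∧ nu y z = w * de y z`, `rm y z = ∞` iff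
`de y z = 0`, `rm y ∞ = 0`. `(rm y ⁻¹' {w}).ncard = d` (with `1 ≤ d`) means that there are `d` but
not `d + 1` distinct preimages, and `∞` is a preimage of `0` only. -/
def S_sa : Prop := ∀ (d m : ℕ), 1 ≤ d → ∀ (J : Set (Fin m)) (τ : Fin m → Fin m),
    SA {y : Ix d m → ℝ | Good J τ y}

/-- **S_root.** Zeros of holomorphic functions persist.

Proof: choose a small closed disc around `z₀` in `V` on whose boundary circle `f t₀` has no zero
(possible by the hypothesis on the punctured neighbourhood), `ε > 0` the minimum of `|f t₀|` on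
the circle. For `t` near `t₀`, `|f t| > ε / 2` on the circle (compactness, continuity) and
`|f t z₀| < ε / 2`. If `f t` had no zero in the closed disc the maximum principle for `1 / f t`
would give `1 / |f t z₀| ≤ 2 / ε`
(`Complex.norm_le_of_forall_mem_frontier_norm_le` or similar). -/
def S_root : Prop := ∀ (T : Type) [TopologicalSpace T] (f : T → ℂ → ℂ) (t₀ : T) (z₀ : ℂ),
    Continuous (fun p : T × ℂ => f p.1 p.2) → (∀ t, Differentiable ℂ (f t)) → f t₀ z₀ = 0 →
    (∀ᶠ z in 𝓝[≠] z₀, f t₀ z ≠ 0) → ∀ V ∈ 𝓝 z₀, ∀ᶠ t in 𝓝 t₀, ∃ z ∈ V, f t z = 0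

/-- **S_cont.** The rational map depends continuously on the coefficients and the point.

Proof: near `(t₀, z₀)` with `z₀` finite and `de ≠ 0` this is clear; if `de = 0` then `nu ≠ 0` and
`de / nu → 0`. Near `(t₀, ∞)`: `rm y z = nu y z / de y z → 0` as `z → ∞`, locally uniformly in the
coefficients (divide by `z ^ d`, put `ζ = 1 / z`), and `rm y ∞ = 0`. -/
def S_cont : Prop := ∀ (d m : ℕ), 1 ≤ d → ∀ (T : Type) [TopologicalSpace T]
    (y : T → Ix d m → ℝ), Continuous y → (∀ t z, ¬ (nu (y t) z = 0 ∧ de (y t) z = 0)) →
    Continuous fun p : T × Sph => rm (y p.1) p.2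

/-- **S_open.** The family of rational maps is open.

Proof: from `S_root`, in the four cases (`x₀` finite or `∞`, its value finite or `∞`). If `x₀` and
its value are finite: apply `S_root` to `f (t, w) z = nu (y t) z - w * de (y t) z`, parameter
`(t, w) : T × ℂ` (the polynomial `f (t₀, w₀)` is not zero since otherwise `nu = w₀ * de`, hence
`de` has no zeros because of the hypothesis, but `de` has degree `d ≥ 1`; so its zeros are isolated;
near a zero `z` of `f (t, w)` one has `de (y t) z ≠ 0` by the hypothesis). If the value is `∞`: use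
`f (t, u) z = u * nu (y t) z - de (y t) z` with `u = 1 / w` (and `u = 0` for `w = ∞`). If
`x₀ = ∞` (the value is `0`): use the coordinate `ζ = 1 / z` and the reversed polynomials
`∑ i, c_i * ζ ^ (d - i)`. -/
def S_open : Prop := S_root → ∀ (d m : ℕ), 1 ≤ d → ∀ (T : Type) [TopologicalSpace T]
    (y : T → Ix d m → ℝ), Continuous y → (∀ t z, ¬ (nu (y t) z = 0 ∧ de (y t) z = 0)) →
    ∀ (t₀ : T) (x₀ : Sph), ∀ V ∈ 𝓝 x₀,
    ∀ᶠ p : T × Sph in 𝓝 (t₀, rm (y t₀) x₀), ∃ x ∈ V, rm (y p.1) x = p.2

/-- **S_crit.** The critical values of a rational map of degree `d` are the points with fewer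
than `d` preimages.

Proof: let `R = a / b`. For a finite `w` different from `R ∞` the preimages of `w` are the roots of
`a - w b`, a polynomial of degree exactly `d`; a multiple root is a root of the Wronskian
`a' b - a b'`, which is not zero. So all but finitely many `w` have exactly `d` preimages, and every
`w` has at most `d` (for `w = R ∞` the degree of `a - w b` drops by at least one; similarly for
`w = ∞` and `b`). `R` is continuous and open (polynomials: `S_cont`, `S_open` for constant families
are the normalised case; or use the open mapping theorem).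
(←) Let `w` have `k < d` preimages `x_1, ..., x_k` (`k = 0` is impossible: `R` is open and the
sphere is compact and connected). Points `w'` near `w`, `w' ≠ w`, have `d` preimages, all near the
`x_i`, so for every neighbourhood two of them lie near the same `x_i`: some `x_i` is critical.
(→) If `w` has `d` preimages `x_i` take disjoint neighbourhoods `V_i`; by openness every `w'` near
`w` has a preimage in each `V_i`, hence exactly one as there are at most `d`: `R` is injective on
`V_i ∩ R⁻¹(W)` for a neighbourhood `W` of `w`, so no `x_i` is critical. -/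
def S_crit : Prop := ∀ (d : ℕ), 1 ≤ d → ∀ R : Sph → Sph, IsRational d R → ∀ w,
    (w ∈ R '' crit R ↔ (R ⁻¹' {w}).ncard ≠ d)

/-- **S_mob.** Normalisation of a rational map of degree `d ≥ 2` by a Möbius transformation which
keeps a given finite set away from `∞`.

Proof: choose a finite `z₀ ∉ E` with `R z₀ ≠ z₀` (`R` has at most `d + 1` fixed points:
`a - z b ≠ 0`). Conjugate by the translation `z ↦ z - z₀`, then by the inversion `z ↦ 1 / z`
(`(a, b)` becomes `(reflect d b, reflect d a)`), so `z₀` is now at `∞` and its image `v` is finite;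
finally conjugate by the translation `z ↦ z - v`. Now `∞ ↦ 0`, so the denominator has degree
exactly `d` and the numerator has degree `< d`; divide both by the leading coefficient of the
denominator. (Each of the three steps is a statement on `ratMap d a b` for polynomials of degree
`≤ d` without common zeros whose coefficients of `X ^ d` are not both zero.) -/
def S_mob : Prop := ∀ (d : ℕ), 2 ≤ d → ∀ R : Sph → Sph, IsRational d R → ∀ E : Set Sph, E.Finite →
    ∃ y : Ix d 0 → ℝ, (∀ z, ¬ (nu y z = 0 ∧ de y z = 0)) ∧
      ∃ M : Sph ≃ₜ Sph, (∀ x, M (R x) = rm y (M x)) ∧ ∞ ∉ M '' E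

/-- **S_rat.** `rm y` is a rational map of degree `d`. -/
def S_rat : Prop := ∀ (d m : ℕ), 1 ≤ d → ∀ y : Ix d m → ℝ,
    (∀ z, ¬ (nu y z = 0 ∧ de y z = 0)) → IsRational d (rm y)

/-- **S_move.** Small motions of finitely many points of the plane extend to isotopies of the
sphere.

Proof: let `r > 0` be such that the discs of radius `r` around the `q j` are disjoint (not even
needed: it is enough that `φ_j (q i) = 0` for `i ≠ j`), `φ_j z = max 0 (1 - |z - q j| / r)`,
`ε = r / (2 (m + 1))` and `h s z = z + ∑ j, φ_j z • (c s j - q j)`: the identity plus a map with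
Lipschitz constant `≤ 1 / 2` and bounded values, so a homeomorphism of `ℂ`
(`ApproximatesLinearOn.toHomeomorph`), extended by `∞ ↦ ∞` (`Homeomorph.onePointCongr`); joint
continuity at `∞` since `|h s z| ≥ |z| - C`. -/
def S_move : Prop := ∀ (m : ℕ) (q : Fin m → ℂ), Function.Injective q → ∃ ε > 0,
    ∀ c : I → Fin m → ℂ, Continuous c → c 0 = q → (∀ s j, ‖c s j - q j‖ < ε) →
      ∃ h : I → Sph ≃ₜ Sph, IsIsotopy h ∧ (∀ x, h 0 x = x) ∧
        ∀ s j, h s (q j : Sph) = (c s j : Sph)

/-- **S_inv'.** The inverse of an isotopy is an isotopy.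

Proof: `(s, x) ↦ (s, h s x)` is a continuous bijection of the compact Hausdorff space
`I × Sph`. -/
def S_symm : Prop := ∀ h : I → Sph ≃ₜ Sph, IsIsotopy h → IsIsotopy fun s => (h s).symm

/-- **S_lift.** A family of branched coverings with constant branch data is trivial.

Proof: `Ψ (s, x) = (s, G (s, x))` restricts to a covering map from the complement of `I × Q` to the
complement of `I × P` (`IsCoveringMapOn.of_isLocalHomeomorphOn`, compact Hausdorff; compare
`Brc.cov` in `Pool.Agent.H208.Tree.Brc`). For `x ∉ Q` lift the path `s ↦ (s, G (0, x))` to a path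
`s ↦ (s, K s x)` from `(0, x)`
(`IsCoveringMap.exists_path_lifts`, uniqueness `eq_of_comp_eq`, joint continuity
`IsLocalHomeomorph.continuous_lift`; compare `Pool.Agent.H208.Tree.Lift`), and put `K s x = x` for
`x ∈ Q` (`s ↦ G (s, x)` is a path in the finite set `P`, so constant).
Joint continuity at `(s₀, q)`, `q ∈ Q`, `p = G (0, q)`: let `O` be a neighbourhood of `q`. Take
disjoint open sets `U ∋ q`, `U ⊆ O` and `U' ⊇ Q \ {q}`. By compactness there is an open `V ∋ p`
with `G (s, ·) ⁻¹' V ⊆ U ∪ U'` for all `s` (the fibre of `p` under `G (s, ·)` lies in `Q`). For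
`x ∈ U`, `x ∉ Q` with `G (0, x) ∈ V` the path `s ↦ K s x` stays in `U ∪ U'` and starts in `U`, so it
stays in `U`.
`K s` is injective by uniqueness of lifts (from time `s` back to time `0`), surjective by lifting
the path `t ↦ (s (1 - t), G (s, z))` from `(s, z)`; continuous bijections of the sphere are
homeomorphisms. -/
def S_lift : Prop := ∀ (G : I × Sph → Sph), Continuous G → ∀ P Q : Set Sph, P.Finite → Q.Finite →
    (∀ s x, G (s, x) ∈ P ↔ x ∈ Q) →
    IsLocalHomeomorphOn (fun p : I × Sph => (p.1, G p)) {p | p.2 ∉ Q} →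
    ∃ K : I → Sph ≃ₜ Sph, IsIsotopy K ∧ (∀ x, K 0 x = x) ∧ (∀ s, ∀ x ∈ Q, K s x = x) ∧
      ∀ s x, G (s, K s x) = G (0, x)

/-- **S_loc.** The family of a path of good maps is a local homeomorphism away from the marked
points.

Proof: `Π (s, x) = (s, rm (y s) x)` is continuous (`S_cont`) and open (`S_open`). Let `p = (s₀, x₀)`
be not marked, `w₀ = rm (y s₀) x₀`; by `Good.mem` `w₀ ≠ mk (y s₀) j` for `j ∈ J`. So `w₀` has
exactly `d` preimages `x_0, ..., x_{d-1}` under `rm (y s₀)`; take pairwise disjoint open
neighbourhoods `V_i`. For `(s, w)` near `(s₀, w₀)` there is a preimage of `w` under `rm (y s)` in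
each `V_i`, and `w ≠ mk (y s) j` for `j ∈ J`, so `w` has exactly `d` preimages: exactly one in each
`V_i`. So `Π` is injective on a neighbourhood of `p`, and an injective continuous open map on an
open set gives an `OpenPartialHomeomorph`
(`Topology.IsOpenEmbedding` / `IsOpenEmbedding.toOpenPartialHomeomorph`). -/
def S_loc : Prop := ∀ (d m : ℕ), 1 ≤ d → ∀ (J : Set (Fin m)) (τ : Fin m → Fin m)
    (y : I → Ix d m → ℝ), Continuous y → (∀ s, Good J τ (y s)) →
    (Continuous fun p : I × Sph => rm (y p.1) p.2) →
    (∀ (t₀ : I) (x₀ : Sph), ∀ V ∈ 𝓝 x₀,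
      ∀ᶠ p : I × Sph in 𝓝 (t₀, rm (y t₀) x₀), ∃ x ∈ V, rm (y p.1) x = p.2) →
    IsLocalHomeomorphOn (fun p : I × Sph => (p.1, rm (y p.1) p.2))
      {p | ∀ j, p.2 ≠ (mk (y p.1) j : Sph)}

/-- **S_equiv.** The size of the least finite global attractor is invariant under Thurston
equivalence.

Proof: let `h` be the isotopy. `crit G = h 1 '' crit F`, `post G = h 0 '' post F` (by induction on
`n`, as `h 1 = h 0` on `post F`). Put `Φ x = (fun δ => h 0 '' δ) '' x`. For a homeomorphism `g`:
`Essential P γ ↔ Essential (g '' P) (g '' γ)`, `Isotopic P γ δ ↔ Isotopic (g '' P) (g '' γ) (g '' δ)`,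
so `cls (g '' P) (g '' γ)` is the image of `cls P γ`, same for `triv`. `Isotopic P` is symmetric and
transitive (`S_symm`, pointwise composition) and implies `cls P γ = cls P δ`. For all sets `δ`:
`cls (post G) (h 1 '' δ) = cls (post G) (h 0 '' δ)` (isotopy `h s ∘ (h 0)⁻¹`).
`G ⁻¹' (h 0 '' γ) = h 1 '' (F ⁻¹' γ)`, and components are mapped to components. So
`Pull F x y → Pull G (Φ x) (Φ y)`. The inverse isotopy gives `ThurstonEquiv G F` with the inverse
`Φ`, hence `Pull F x y ↔ Pull G (Φ x) (Φ y)`, the same for `PullN`, and `A` is the least finite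
global attractor of `F` iff `Φ '' A` is the one of `G`. -/
def S_equiv : Prop := S_symm → ∀ F G : Sph → Sph, ThurstonEquiv F G →
    (∃ g : Sph ≃ₜ Sph, post G = g '' post F) ∧ ∀ k, HasLeast F k → HasLeast G k

/-- **S_least.** The intersection of two finite global attractors is one, so if there is one there
is a least one. -/
def S_least : Prop := ∀ F : Sph → Sph, (∃ A, IsGlobalAttractor F A) →
    ∃ A, IsLeast {A | IsGlobalAttractor F A} A

end Pool.Agent.H208.Cur
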