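import Pool.Agent.H208.Cur.Stm

set_option autoImplicit false

/-!
# One more step
-/

noncomputable section

namespace Pool.Agent.H208.Cur

open OnePoint Set Filter Topology unitInterval Polynomial

/-- **S_fib.** The fibres of `rm y` are finite and have at most `d` points.

Proof: for `w = ∞` the fibre consists of the zeros of `de y`, a monic polynomial of degree `d`
(`∞` is mapped to `0`). For `w ≠ 0` finite: the zeros of `nu y - w * de y`, a polynomial of degree
exactly `d`. For `w = 0`: `∞` and zeros of `nu y`, a polynomial of degree `< d` which is not zero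
(otherwise a zero of `de y` contradicts the hypothesis; `de y` has a zero since `d ≥ 1`). -/
def S_fib : Prop := ∀ (d m : ℕ), 1 ≤ d → ∀ y : Ix d m → ℝ,
    (∀ z, ¬ (nu y z = 0 ∧ de y z = 0)) → ∀ w, (rm y ⁻¹' {w}).Finite ∧ (rm y ⁻¹' {w}).ncard ≤ d

end Pool.Agent.H208.Cur
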